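import Pool.Agent.Lib.MP_6adaea_nt.Defs

/-!
The derivation with respect to a separating element, and existence of such an element.
-/

set_option linter.unusedSectionVars false

namespace Pool.Agent.Lib.MP_6adaea_nt
open Module Polynomial

universe u v

theorem der_intDegree {K : Type u} [Field K] {r : RatFunc K} (hr : r ≠ 0) (n : ℕ) :
    (r ^ n).intDegree = n * r.intDegree := by
  induction n with
  | zero => simp
  | succ n ih =>
    rw [pow_succ, RatFunc.intDegree_mul (pow_ne_zero n hr) hr, ih]
    push_cast
    ring

theorem der_not_pow (K : Type u) (L : Type v) [Field K] [Field L] (p : ℕ) [Fact p.Prime] [CharP K p]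
    [Algebra (RatFunc K) L] [Algebra.IsSeparable (RatFunc K) L] (y : L) :
    y ^ p ≠ algebraMap (RatFunc K) L RatFunc.X := by
  intro h
  have hp : p.Prime := Fact.out
  have : ExpChar (RatFunc K) p := ExpChar.prime hp
  have h1 := IntermediateField.adjoin_simple_eq_adjoin_pow_expChar_of_isSeparable' (RatFunc K) L y p
  rw [h, IntermediateField.adjoin_simple_eq_bot_iff.2 (IntermediateField.algebraMap_mem _ _),
    IntermediateField.adjoin_simple_eq_bot_iff, IntermediateField.mem_bot] at h1
  obtain ⟨r, rfl⟩ := h1
  rw [← map_pow] at h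
  have h2 : r ^ p = RatFunc.X := (algebraMap (RatFunc K) L).injective h
  have h3 : r ≠ 0 := by
    rintro rfl
    rw [zero_pow hp.ne_zero] at h2
    exact RatFunc.X_ne_zero h2.symm
  have h4 := der_intDegree h3 p
  rw [h2, RatFunc.intDegree_X] at h4
  have h5 : (p : ℤ) ∣ 1 := ⟨_, h4⟩
  exact hp.one_lt.ne' (by exact_mod_cast Int.eq_one_of_dvd_one (Int.natCast_nonneg p) h5)

/-- A derivation on a purely inseparable simple extension of degree `p`. -/
theorem der_simple {E L : Type v} [Field E] [Field L] [Algebra E L] (p : ℕ) [Fact p.Prime]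
    [CharP L p] {t : L} {a : E} (ha : algebraMap E L a = t ^ p)
    (ht : ∀ b : E, algebraMap E L b ≠ t) (htop : IntermediateField.adjoin E {t} = ⊤) :
    ∃ D : Derivation E L L, D t = 1 ∧ ∀ x, D x = 0 → ∃ b : E, x = algebraMap E L b := by
  have hp : p.Prime := Fact.out
  have hE : CharP E p := (Algebra.charP_iff E L p).2 inferInstance
  have h0 : aeval t (X ^ p - C a : E[X]) = 0 := by simp [ha]
  have hmo : (X ^ p - C a : E[X]).Monic := monic_X_pow_sub_C a hp.ne_zero
  have hirr : Irreducible (X ^ p - C a : E[X]) := by
    refine X_pow_sub_C_irreducible_of_prime hp fun b hb => ht b ?_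
    apply frobenius_inj L p
    rw [frobenius_def, frobenius_def, ← map_pow, hb, ha]
  have hmin : X ^ p - C a = minpoly E t := minpoly.eq_of_irreducible_of_monic hirr h0 hmo
  have hint : IsIntegral E t := ⟨_, hmo, h0⟩
  have hsurj : Function.Surjective (aeval t : E[X] →ₐ[E] L) := by
    rw [← AlgHom.range_eq_top, ← Algebra.adjoin_singleton_eq_range_aeval,
      ← IntermediateField.adjoin_simple_toSubalgebra_of_isAlgebraic hint.isAlgebraic, htop]
    rfl
  have hd : ∀ q : E[X], aeval t q = 0 → aeval t (derivative' q) = 0 := by
    intro q hq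
    obtain ⟨r, rfl⟩ := minpoly.dvd E t hq
    rw [derivative'_apply, derivative_mul, map_add, map_mul, map_mul, minpoly.aeval, ← hmin]
    simp [derivative_X_pow]
  have hD := Derivation.liftOfSurjective_apply hsurj hd
  refine ⟨Derivation.liftOfSurjective hsurj hd, by simpa using hD X, fun x hx => ?_⟩
  obtain ⟨q, rfl⟩ := hsurj x
  have e : aeval t (q %ₘ (X ^ p - C a)) = aeval t q := aeval_modByMonic_eq_self_of_root h0
  have hdeg : (q %ₘ (X ^ p - C a)).degree < p := by
    rw [← degree_X_pow_sub_C hp.pos a]
    exact degree_modByMonic_lt q hmo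
  rw [← e] at hx ⊢
  generalize q %ₘ (X ^ p - C a) = r at hx hdeg
  rw [hD, derivative'_apply] at hx
  have h1 : derivative r = 0 := by
    by_contra h1
    have h2 := minpoly.degree_le_of_ne_zero E t h1 hx
    rw [← hmin, degree_X_pow_sub_C hp.pos] at h2
    exact absurd (h2.trans degree_derivative_le) hdeg.not_ge
  have h2 : r = C (r.coeff 0) := by
    ext n
    rcases n with _ | n
    · simp
    · rw [coeff_C_succ]
      by_cases hn : n + 1 < p
      · have h3 := congrArg (coeff · n) h1
        simp only [coeff_derivative, coeff_zero] at h3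
        refine (mul_eq_zero.1 h3).resolve_right ?_
        rw [← Nat.cast_succ, CharP.cast_eq_zero_iff E p]
        exact Nat.not_dvd_of_pos_of_lt n.succ_pos hn
      · exact coeff_eq_zero_of_degree_lt (hdeg.trans_le (by exact_mod_cast not_lt.1 hn))
  exact ⟨r.coeff 0, by rw [h2]; simp⟩

/-- Let `t` be the image of `X`, `E = (frobenius L p).fieldRange` the subfield of `p`-th powers
(it contains the image of `K`, a finite hence perfect field). `t ∉ E`: if `t = y ^ p` then `y` is
separable and purely inseparable over `RatFunc K`, so `y` lies in `RatFunc K`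
(e.g. `IsSeparable` + `IntermediateField.adjoin_simple_eq_adjoin_pow_expChar_of_isSeparable'`),
and `intDegree X = 1` is not a multiple of `p`. `L = E(t)`:
`IntermediateField.adjoin_eq_adjoin_pow_expChar_of_isSeparable'` with `S = univ`, and rational
functions in `t` lie in the field `E(t)`. The minimal polynomial of `t` over `E` is
`X ^ p - C (t ^ p)` (`X_pow_sub_C_irreducible_of_prime`), its derivative is zero, so
`Polynomial.derivative'` descends along `aeval t : E[X] → L` (`Derivation.liftOfSurjective`).
If `x = aeval t a` with `degree a < p` and `D x = 0` then `derivative a = 0` by minimality, so `a`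
is constant (`natDegree a < p`). -/
theorem exists_der (K : Type u) (L : Type v) [Field K] [Finite K] [Field L] [Algebra K L]
    (p : ℕ) [Fact p.Prime] [CharP K p]
    [Algebra (RatFunc K) L] [IsScalarTower K (RatFunc K) L] [FiniteDimensional (RatFunc K) L]
    [Algebra.IsSeparable (RatFunc K) L] :
    ∃ D : Derivation ℤ L L, D (algebraMap (RatFunc K) L RatFunc.X) = 1 ∧
      (∀ c : K, D (algebraMap K L c) = 0) ∧ ∀ x, D x = 0 → ∃ y, x = y ^ p := by
  have hp : p.Prime := Fact.out
  have hL : CharP L p := charP_of_injective_algebraMap (algebraMap K L).injective p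
  have : ExpChar (RatFunc K) p := ExpChar.prime hp
  have : ExpChar K p := ExpChar.prime hp
  set t := algebraMap (RatFunc K) L RatFunc.X with ht
  let E : Subfield L := (frobenius L p).fieldRange
  have hK : ∀ c : K, algebraMap K L c ∈ E := fun c => by
    obtain ⟨d, rfl⟩ := surjective_frobenius K p c
    exact ⟨algebraMap K L d, by rw [frobenius_def, frobenius_def, map_pow]⟩
  have htop : IntermediateField.adjoin E {t} = ⊤ := by
    have hE : ∀ x ∈ E, x ∈ IntermediateField.adjoin E {t} := fun x hx =>
      IntermediateField.algebraMap_mem _ (⟨x, hx⟩ : E)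
    have hpol : ∀ q : K[X], algebraMap (RatFunc K) L (algebraMap K[X] (RatFunc K) q) ∈
        IntermediateField.adjoin E {t} := fun q => by
      induction q using Polynomial.induction_on' with
      | add a b ha hb =>
        rw [map_add, map_add]
        exact add_mem ha hb
      | monomial n c =>
        rw [← C_mul_X_pow_eq_monomial, map_mul, map_mul, map_pow, map_pow, RatFunc.algebraMap_C,
          RatFunc.algebraMap_X, ← RatFunc.algebraMap_eq_C, ← IsScalarTower.algebraMap_apply]
        exact mul_mem (hE _ (hK c)) (pow_mem (IntermediateField.mem_adjoin_simple_self E t) n)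
    have hrat : ∀ r : RatFunc K, algebraMap (RatFunc K) L r ∈
        (IntermediateField.adjoin E {t}).toSubfield := fun r => by
      rw [← RatFunc.num_div_denom r, map_div₀]
      exact div_mem (hpol _) (hpol _)
    have h1 := IntermediateField.adjoin_eq_adjoin_pow_expChar_of_isSeparable' (RatFunc K) L
      Set.univ p
    have h2 : IntermediateField.adjoin (RatFunc K) ((· ^ p) '' (Set.univ : Set L)) ≤
        (IntermediateField.adjoin E {t}).toSubfield.toIntermediateField hrat := by
      rw [IntermediateField.adjoin_le_iff]
      rintro _ ⟨y, -, rfl⟩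
      exact hE _ ⟨y, rfl⟩
    rw [← h1, IntermediateField.adjoin_univ] at h2
    exact top_le_iff.1 fun x _ => h2 (IntermediateField.mem_top (x := x))
  obtain ⟨D, h1, h2⟩ := der_simple (E := E) p (t := t) (a := ⟨t ^ p, t, rfl⟩) rfl
    (fun b hb => by
      obtain ⟨_, y, rfl⟩ := b
      exact der_not_pow K L p y hb) htop
  refine ⟨D.restrictScalars ℤ, h1, fun c => D.map_algebraMap ⟨_, hK c⟩, fun x hx => ?_⟩
  obtain ⟨⟨_, y, rfl⟩, rfl⟩ := h2 x hx
  exact ⟨y, rfl⟩

/-- `exists_isTranscendenceBasis_and_isSeparable_of_perfectField`; the transcendence basis has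
one element since the image of `X` is also a transcendence basis
(`IsTranscendenceBasis.cardinalMk_eq` or `FunctionField.isAlgebraic_X_over_adjoin_transcendental`);
finiteness is `FunctionField.finiteDimensional_of_adjoin_transcendental`. -/
theorem exists_sep (K : Type u) (L : Type v) [Field K] [Finite K] [Field L] [Algebra K L]
    [Algebra (RatFunc K) L] [IsScalarTower K (RatFunc K) L] [FiniteDimensional (RatFunc K) L] :
    ∃ t : L, Transcendental K t ∧ FiniteDimensional (IntermediateField.adjoin K {t}) L ∧
      Algebra.IsSeparable (IntermediateField.adjoin K {t}) L := by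
  have : Algebra.EssFiniteType K (RatFunc K) :=
    IntermediateField.fg_top_iff.1 ⟨{RatFunc.X}, by simp [RatFunc.adjoin_X]⟩
  have : Algebra.EssFiniteType K L := Algebra.EssFiniteType.comp K (RatFunc K) L
  obtain ⟨s, hs, hsep⟩ := exists_isTranscendenceBasis_and_isSeparable_of_perfectField K L
  have hX : Transcendental K (algebraMap (RatFunc K) L RatFunc.X) :=
    (transcendental_algebraMap_iff (algebraMap (RatFunc K) L).injective).2 RatFunc.transcendental_X
  have hb : IsTranscendenceBasis K fun _ : PUnit.{v + 1} => algebraMap (RatFunc K) L RatFunc.X := by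
    refine (algebraicIndependent_unique_type_iff.2 hX).isTranscendenceBasis_iff_isAlgebraic.2 ?_
    rw [Set.range_const, ← IntermediateField.isAlgebraic_adjoin_iff_top]
    exact FunctionField.Algebra.IsAlgebraic.adjoin_algebraMap_X
  have hc := hs.cardinalMk_eq hb
  rw [Cardinal.mk_coe_finset, Cardinal.mk_punit, Nat.cast_eq_one] at hc
  obtain ⟨t, rfl⟩ := Finset.card_eq_one.1 hc
  have ht : Transcendental K t := hs.1.transcendental ⟨t, Finset.mem_singleton_self t⟩
  rw [Finset.coe_singleton] at hsep
  exact ⟨t, ht, FunctionField.finiteDimensional_of_adjoin_transcendental ht, hsep⟩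

end Pool.Agent.Lib.MP_6adaea_nt
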