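import Pool.Agent.Lib.MP_6adaea_nt.Place

/-!
Definitions: systems of places with a product formula and a derivation, finite subspaces.
-/

set_option linter.unusedSectionVars false

namespace Pool.Agent.Lib.MP_6adaea_nt
open Module Polynomial

universe u v

/-- a family of places of `L` with positive weights, the product formula, a derivation whose
kernel consists of `p`-th powers and which is almost integral, and finite residue fields -/
structure PSys (K : Type u) (L : Type v) [Field K] [Field L] [Algebra K L] (p : ℕ) where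
  ι : Type v
  pl : ι → Place K L
  w : ι → ℕ
  κ : ι →₀ ℕ
  D : Derivation ℤ L L
  w_pos : ∀ i, 0 < w i
  fin : ∀ x : L, {i | (pl i).ord x ≠ 0}.Finite
  prod : ∀ x : L, x ≠ 0 → ∀ S : Finset ι, (∀ i, (pl i).ord x ≠ 0 → i ∈ S) →
    ∑ i ∈ S, (w i : ℤ) * (pl i).ord x = 0
  der : ∀ i x, (pl i).Ge x 0 → (pl i).Ge (D x) (-(κ i : ℤ))
  ker : ∀ x, D x = 0 → ∃ y, x = y ^ p
  res : ∀ i, ∃ B : ℕ, ∀ s : Finset L, (∀ x ∈ s, (pl i).Ge x 0) →
    (∀ x ∈ s, ∀ y ∈ s, (pl i).Ge (x - y) 1 → x = y) → s.card ≤ B
  pole : ∀ x : L, Transcendental K x → ∃ i, (pl i).ord x < 0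

variable {K : Type u} {L : Type v} [Field K] [Field L] [Algebra K L]

/-- the total defect of the derivation -/
noncomputable def PSys.kap {p : ℕ} (P : PSys K L p) : ℕ := P.κ.sum fun i k => P.w i * k

open Classical in
/-- the elements of a finite subspace -/
noncomputable def els (U : Submodule K L) : Finset L :=
  if h : (U : Set L).Finite then h.toFinset else ∅

lemma fin_sub [Finite K] (U : Submodule K L) [FiniteDimensional K U] : (U : Set L).Finite := by
  have : Finite U := Module.finite_of_finite K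
  exact Set.toFinite _

@[simp] lemma mem_els [Finite K] {U : Submodule K L} [FiniteDimensional K U] {x : L} :
    x ∈ els U ↔ x ∈ U := by
  rw [els, dif_pos (fin_sub U), Set.Finite.mem_toFinset, SetLike.mem_coe]

lemma card_els [Finite K] (U : Submodule K L) [FiniteDimensional K U] :
    (els U).card = Nat.card K ^ finrank K U := by
  rw [← Module.natCard_eq_pow_finrank, els, dif_pos (fin_sub U), ← Set.ncard_eq_toFinset_card _
    (fin_sub U)]
  rfl

lemma two_le_card [Finite K] : 2 ≤ Nat.card K := Finite.one_lt_card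

/-- all nonzero elements have the same order -/
def Flat (v : Place K L) (Y : Submodule K L) : Prop :=
  ∀ y ∈ Y, ∀ y' ∈ Y, y ≠ 0 → y' ≠ 0 → v.ord y = v.ord y'

open Classical in
/-- total variation of the order on the nonzero elements -/
noncomputable def var (v : Place K L) (Y : Submodule K L) : ℤ :=
  ∑ y ∈ (els Y).erase 0, ∑ y' ∈ (els Y).erase 0, |v.ord y - v.ord y'|

/-- the elements with `c ≤ N * ord x` -/
def disc (v : Place K L) (N : ℕ) (c : ℤ) : Submodule K L where
  carrier := {x | x = 0 ∨ c ≤ N * v.ord x}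
  zero_mem' := Or.inl rfl
  add_mem' := by
    intro a b ha hb
    by_cases h1 : a = 0
    · simpa [h1] using hb
    by_cases h2 : b = 0
    · simpa [h2] using ha
    by_cases h3 : a + b = 0
    · exact Or.inl h3
    have ha' := ha.resolve_left h1
    have hb' := hb.resolve_left h2
    have h4 := v.ord_add h1 h2 h3
    have hN : (0 : ℤ) ≤ N := Int.natCast_nonneg N
    refine Or.inr ?_
    rcases min_le_iff.mp h4 with h | h
    · exact ha'.trans (mul_le_mul_of_nonneg_left h hN)
    · exact hb'.trans (mul_le_mul_of_nonneg_left h hN)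
  smul_mem' := by
    intro a x hx
    by_cases h : a = 0
    · exact Or.inl (by simp [h])
    rcases hx with hx | hx
    · exact Or.inl (by simp [hx])
    · exact Or.inr (by rwa [v.ord_smul h])

lemma mem_disc {v : Place K L} {N : ℕ} {c : ℤ} {x : L} :
    x ∈ disc v N c ↔ x = 0 ∨ c ≤ N * v.ord x := Iff.rfl

variable (K) in
/-- the polynomial `θ X + ∑ g i X ^ q ^ i` -/
noncomputable def drP (θ : L) (r : ℕ) (g : ℕ → L) : L[X] :=
  C θ * X + ∑ i ∈ Finset.Icc 1 r, C (g i) * X ^ (Nat.card K ^ i)

lemma drP_eval (θ : L) (r : ℕ) (g : ℕ → L) (x : L) :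
    (drP K θ r g).eval x = θ * x + ∑ i ∈ Finset.Icc 1 r, g i * x ^ (Nat.card K ^ i) := by
  simp [drP, eval_finsetSum]

lemma drP_natDegree [Finite K] (θ : L) (r : ℕ) (g : ℕ → L) :
    (drP K θ r g).natDegree ≤ Nat.card K ^ r := by
  have hq := two_le_card (K := K)
  refine natDegree_add_le_of_degree_le ?_ (natDegree_sum_le_of_forall_le _ _ fun i hi => ?_)
  · exact ((natDegree_C_mul_le _ _).trans natDegree_X_le).trans (Nat.one_le_pow _ _ (by omega))
  · exact (natDegree_C_mul_X_pow_le _ _).trans
      (Nat.pow_le_pow_right (by omega) (Finset.mem_Icc.mp hi).2)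

lemma drP_coeff_one [Finite K] (θ : L) (r : ℕ) (g : ℕ → L) : (drP K θ r g).coeff 1 = θ := by
  have hq := two_le_card (K := K)
  rw [drP, coeff_add, finsetSum_coeff, Finset.sum_eq_zero, add_zero, coeff_C_mul, coeff_X_one,
    mul_one]
  intro i hi
  have := Nat.one_lt_pow (n := i) (a := Nat.card K) (by have := (Finset.mem_Icc.mp hi).1; omega)
    (by omega)
  rw [coeff_C_mul_X_pow, if_neg this.ne]

lemma drP_coeff [Finite K] (θ : L) (r : ℕ) (g : ℕ → L) {j : ℕ} (hj : j ∈ Finset.Icc 1 r) :
    (drP K θ r g).coeff (Nat.card K ^ j) = g j := by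
  have hq := two_le_card (K := K)
  have h1 := Nat.one_lt_pow (n := j) (a := Nat.card K)
    (by have := (Finset.mem_Icc.mp hj).1; omega) (by omega)
  rw [drP, coeff_add, finsetSum_coeff, coeff_C_mul, coeff_X_of_ne_one h1.ne', mul_zero, zero_add,
    Finset.sum_eq_single j, coeff_C_mul_X_pow, if_pos rfl]
  · intro i _ hij
    rw [coeff_C_mul_X_pow, if_neg]
    exact fun h => hij (Nat.pow_right_injective hq h).symm
  · exact fun h => absurd hj h

end Pool.Agent.Lib.MP_6adaea_nt
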