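import Pool.Agent.Lib.MP_6adaea_nt.Defs

/-!
The places over a principal ideal domain, with weights given by the relative norm.
-/

set_option linter.unusedSectionVars false

namespace Pool.Agent.Lib.MP_6adaea_nt
open Module Polynomial

universe u v

section ded

open IsDedekindDomain

variable {K : Type u} {L : Type v} [Field K] [Field L] [Algebra K L] {O : Type v} [CommRing O]
  [IsDedekindDomain O] [Algebra O L] [IsFractionRing O L]

/-- the place of a height one prime -/
noncomputable def half_pl (hK : ∀ c : K, ∃ a : O, algebraMap O L a = algebraMap K L c)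
    (P : HeightOneSpectrum O) : Place K L where
  ord f := -WithZero.log (P.valuation L f)
  ord_zero := by simp
  ord_mul hf hg := by
    rw [map_mul, WithZero.log_mul ((Valuation.ne_zero_iff _).mpr hf)
      ((Valuation.ne_zero_iff _).mpr hg), neg_add]
  ord_add {f g} hf hg h := by
    rcases le_max_iff.mp ((P.valuation L).map_add f g) with h1 | h1
    · exact (min_le_left _ _).trans (neg_le_neg ((WithZero.log_le_log
        ((Valuation.ne_zero_iff _).mpr h) ((Valuation.ne_zero_iff _).mpr hf)).mpr h1))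
    · exact (min_le_right _ _).trans (neg_le_neg ((WithZero.log_le_log
        ((Valuation.ne_zero_iff _).mpr h) ((Valuation.ne_zero_iff _).mpr hg)).mpr h1))
  ord_const c := by
    by_cases hc : c = 0
    · simp [hc]
    have hle : ∀ c : K, P.valuation L (algebraMap K L c) ≤ 1 := fun c => by
      obtain ⟨a, ha⟩ := hK c
      rw [← ha]
      exact P.valuation_le_one a
    have h1 : P.valuation L (algebraMap K L c) * P.valuation L (algebraMap K L c⁻¹) = 1 := by
      rw [← map_mul, ← map_mul, mul_inv_cancel₀ hc, map_one, map_one]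
    rw [eq_one_of_one_le_mul_left (hle c) (hle c⁻¹) h1.ge]
    simp
  surj := by
    obtain ⟨t, ht⟩ := P.valuation_exists_uniformizer L
    refine ⟨t, (Valuation.ne_zero_iff (P.valuation L)).mp ?_, ?_⟩
    · rw [ht]
      exact WithZero.exp_ne_zero
    · rw [ht]
      simp

variable (hK : ∀ c : K, ∃ a : O, algebraMap O L a = algebraMap K L c)

theorem half_ge_iff (P : HeightOneSpectrum O) (f : L) (m : ℤ) :
    (half_pl hK P).Ge f m ↔ P.valuation L f ≤ WithZero.exp (-m) := by
  by_cases hf : f = 0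
  · simp [hf]
  rw [Place.ge_iff hf, ← WithZero.log_le_iff_le_exp ((Valuation.ne_zero_iff _).mpr hf)]
  exact le_neg

theorem half_ge_zero (P : HeightOneSpectrum O) (f : L) :
    (half_pl hK P).Ge f 0 ↔ P.valuation L f ≤ 1 := by
  rw [half_ge_iff, neg_zero, WithZero.exp_zero]

theorem half_ge_int (P : HeightOneSpectrum O) (a : O) : (half_pl hK P).Ge (algebraMap O L a) 0 :=
  (half_ge_zero hK P _).mpr (P.valuation_le_one a)

theorem half_ge_one (P : HeightOneSpectrum O) (a : O) :
    (half_pl hK P).Ge (algebraMap O L a) 1 ↔ a ∈ P.asIdeal := by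
  have h := P.intValuation_le_pow_iff_mem a 1
  rw [pow_one, Nat.cast_one] at h
  rw [half_ge_iff, ← h, P.valuation_of_algebraMap (K := L)]

theorem half_fin (f : L) : {P : HeightOneSpectrum O | (half_pl hK P).ord f ≠ 0}.Finite := by
  refine ((HeightOneSpectrum.Support.finite O f).union
    (HeightOneSpectrum.Support.finite O f⁻¹)).subset ?_
  intro P h0
  have hf : f ≠ 0 := fun h => h0 (by simp [h])
  have key : ∀ g : L, g ≠ 0 → (half_pl hK P).ord g < 0 → 1 < P.valuation L g := fun g hg h => by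
    have := mt (half_ge_zero hK P g).mpr (Place.not_ge_iff.mpr ⟨hg, h⟩)
    rwa [not_le] at this
  rcases lt_or_gt_of_ne h0 with h | h
  · exact Or.inl (key f hf h)
  · exact Or.inr (key f⁻¹ (inv_ne_zero hf) (by rw [Place.ord_inv]; omega))

open Classical in
theorem half_ord_count (P : HeightOneSpectrum O) {a : O} (ha : a ≠ 0) :
    (half_pl hK P).ord (algebraMap O L a) =
      ((Associates.mk P.asIdeal).count (Associates.mk (Ideal.span {a} : Ideal O)).factors : ℕ) := by
  show -WithZero.log (P.valuation L (algebraMap O L a)) = _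
  rw [P.valuation_of_algebraMap (K := L), P.intValuation_if_neg ha, WithZero.log_exp, neg_neg]

theorem half_psi_prod (ψ : Ideal O → ℤ)
    (hψ : ∀ I J : Ideal O, I ≠ ⊥ → J ≠ ⊥ → ψ (I * J) = ψ I + ψ J)
    (S : Finset (HeightOneSpectrum O)) (n : HeightOneSpectrum O → ℕ) :
    ψ (∏ P ∈ S, P.asIdeal ^ n P) = ∑ P ∈ S, ψ P.asIdeal * n P := by
  classical
  have h1 : ψ 1 = 0 := by
    have := hψ 1 1 one_ne_zero one_ne_zero
    rw [mul_one] at this
    omega
  have hp : ∀ (P : HeightOneSpectrum O) (k : ℕ), ψ (P.asIdeal ^ k) = ψ P.asIdeal * k := by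
    intro P k
    induction k with
    | zero => simpa using h1
    | succ k ih =>
      rw [pow_succ, hψ _ _ (pow_ne_zero k P.ne_bot) P.ne_bot, ih]
      push_cast
      ring
  induction S using Finset.induction_on with
  | empty => simpa using h1
  | insert P S hP ih =>
    rw [Finset.prod_insert hP, Finset.sum_insert hP, hψ _ _ (pow_ne_zero _ P.ne_bot)
      (Finset.prod_ne_zero_iff.mpr fun Q _ => pow_ne_zero _ Q.ne_bot), ih, hp]

theorem half_prod_int (ψ : Ideal O → ℤ)
    (hψ : ∀ I J : Ideal O, I ≠ ⊥ → J ≠ ⊥ → ψ (I * J) = ψ I + ψ J) {a : O} (ha : a ≠ 0)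
    (S : Finset (HeightOneSpectrum O))
    (hS : ∀ P, (half_pl hK P).ord (algebraMap O L a) ≠ 0 → P ∈ S) :
    ∑ P ∈ S, ψ P.asIdeal * (half_pl hK P).ord (algebraMap O L a) = ψ (Ideal.span {a}) := by
  classical
  have hI : (Ideal.span {a} : Ideal O) ≠ 0 := by
    rw [Ne, Ideal.zero_eq_bot, Ideal.span_singleton_eq_bot]
    exact ha
  have h1 := Ideal.finprod_heightOneSpectrum_factorization hI
  rw [finprod_eq_prod_of_mulSupport_subset _ (s := S) (by
    intro P hP
    refine Finset.mem_coe.mpr (hS P fun h => hP ?_)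
    rw [half_ord_count hK P ha, Nat.cast_eq_zero] at h
    show P.asIdeal ^ _ = 1
    rw [h, pow_zero])] at h1
  conv_rhs => rw [← h1]
  simp only [HeightOneSpectrum.maxPowDividing]
  rw [half_psi_prod ψ hψ]
  exact Finset.sum_congr rfl fun P _ => by rw [half_ord_count hK P ha]

theorem half_der (D : Derivation ℤ L L) {c : O} (hc : c ≠ 0)
    (hD : ∀ a : O, ∃ a' : O, algebraMap O L a' = algebraMap O L c * D (algebraMap O L a))
    (P : HeightOneSpectrum O) {x : L} (hx : (half_pl hK P).Ge x 0) :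
    (half_pl hK P).Ge (D x) (-(half_pl hK P).ord (algebraMap O L c)) := by
  have hinj := IsFractionRing.injective O L
  obtain ⟨n, ⟨d, hd⟩, hnd⟩ := P.exists_primeCompl_mul_eq_of_integer x ((half_ge_zero hK P x).mp hx)
  have hd' : d ∉ P.asIdeal := hd
  have hd1 := Place.not_ge_iff.mp (mt (half_ge_one hK P d).mp hd')
  have hd2 := (half_ge_int hK P d).le hd1.1
  have hc0 : algebraMap O L c ≠ 0 := (map_ne_zero_iff _ hinj).mpr hc
  obtain ⟨n', hn'⟩ := hD n
  obtain ⟨d', hd''⟩ := hD d
  have h1 : D x * (algebraMap O L c * algebraMap O L d) =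
      algebraMap O L n' - x * algebraMap O L d' := by
    have hnd' : x * algebraMap O L d = algebraMap O L n := hnd
    rw [hn', hd'', ← hnd', D.leibniz, smul_eq_mul, smul_eq_mul]
    ring
  have h2 : (half_pl hK P).Ge (D x * (algebraMap O L c * algebraMap O L d)) 0 := by
    rw [h1]
    refine (half_ge_int hK P n').sub ?_
    simpa using hx.mul (half_ge_int hK P d')
  rw [Place.ge_mul_iff (mul_ne_zero hc0 hd1.1), (half_pl hK P).ord_mul hc0 hd1.1] at h2
  exact h2.mono (by omega)

theorem half_approx (P : HeightOneSpectrum O) {x : L} (hx : (half_pl hK P).Ge x 0) :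
    ∃ a : O, (half_pl hK P).Ge (x - algebraMap O L a) 1 := by
  obtain ⟨n, ⟨d, hd⟩, hnd⟩ := P.exists_primeCompl_mul_eq_of_integer x ((half_ge_zero hK P x).mp hx)
  have hd' : d ∉ P.asIdeal := hd
  obtain ⟨e, p, hp, hep⟩ := P.isMaximal.exists_inv hd'
  refine ⟨n * e, ?_⟩
  have hnd' : x * algebraMap O L d = algebraMap O L n := hnd
  have h1 := congrArg (algebraMap O L) hep
  rw [map_add, map_mul, map_one] at h1
  have h2 : x - algebraMap O L (n * e) = x * algebraMap O L p := by
    rw [map_mul, ← hnd']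
    linear_combination (-x) * h1
  rw [h2]
  simpa using hx.mul ((half_ge_one hK P p).mpr hp)

theorem half_res (P : HeightOneSpectrum O) [Finite (O ⧸ P.asIdeal)] (s : Finset L)
    (h0 : ∀ x ∈ s, (half_pl hK P).Ge x 0)
    (h1 : ∀ x ∈ s, ∀ y ∈ s, (half_pl hK P).Ge (x - y) 1 → x = y) :
    s.card ≤ Nat.card (O ⧸ P.asIdeal) := by
  choose r hr using fun x : s => half_approx hK P (h0 x.1 x.2)
  rw [← Nat.card_eq_finsetCard s]
  refine Nat.card_le_card_of_injective (fun x : s => Ideal.Quotient.mk P.asIdeal (r x)) ?_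
  intro x y hxy
  have h2 := (half_ge_one hK P _).mpr (Ideal.Quotient.eq.mp hxy)
  refine Subtype.ext (h1 x.1 x.2 y.1 y.2 ?_)
  have h3 := ((hr x).sub (hr y)).add h2
  rw [map_sub] at h3
  convert h3 using 1
  ring

end ded

theorem half_psi {R F : Type u} [CommRing R] [IsDomain R] [IsPrincipalIdealRing R] [Field F]
    [Algebra R F] [IsFractionRing R F] (Ψ : F → ℤ)
    (hmul : ∀ x y : F, x ≠ 0 → y ≠ 0 → Ψ (x * y) = Ψ x + Ψ y)
    (hnn : ∀ a : R, a ≠ 0 → 0 ≤ Ψ (algebraMap R F a))
    (hpos : ∀ a : R, a ≠ 0 → ¬ IsUnit a → 0 < Ψ (algebraMap R F a)) :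
    ∃ ψ : Ideal R → ℤ, (∀ a : R, a ≠ 0 → ψ (Ideal.span {a}) = Ψ (algebraMap R F a)) ∧
      (∀ I J : Ideal R, I ≠ ⊥ → J ≠ ⊥ → ψ (I * J) = ψ I + ψ J) ∧
      ∀ I : Ideal R, I ≠ ⊥ → I ≠ ⊤ → 0 < ψ I := by
  have hinj := IsFractionRing.injective R F
  have hne : ∀ a : R, a ≠ 0 → algebraMap R F a ≠ 0 := fun a ha => (map_ne_zero_iff _ hinj).mpr ha
  have hle : ∀ a b : R, b ≠ 0 → a ∣ b → Ψ (algebraMap R F a) ≤ Ψ (algebraMap R F b) := by
    rintro a b hb ⟨c, rfl⟩
    have ha := left_ne_zero_of_mul hb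
    have hc := right_ne_zero_of_mul hb
    rw [map_mul, hmul _ _ (hne a ha) (hne c hc)]
    have := hnn c hc
    omega
  have hgen : ∀ a : R, a ≠ 0 → Ψ (algebraMap R F
      (Submodule.IsPrincipal.generator (Ideal.span {a} : Ideal R))) = Ψ (algebraMap R F a) := by
    intro a ha
    have h := Ideal.span_singleton_eq_span_singleton.mp
      (Ideal.span_singleton_generator (Ideal.span {a} : Ideal R))
    exact le_antisymm (hle _ _ ha h.dvd) (hle _ _ (h.ne_zero_iff.mpr ha) h.symm.dvd)
  have hex : ∀ I : Ideal R, I ≠ ⊥ → ∃ a : R, a ≠ 0 ∧ I = Ideal.span {a} := fun I hI =>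
    ⟨Submodule.IsPrincipal.generator I,
      fun h => hI ((Submodule.IsPrincipal.eq_bot_iff_generator_eq_zero I).mpr h),
      (Ideal.span_singleton_generator I).symm⟩
  refine ⟨fun I => Ψ (algebraMap R F (Submodule.IsPrincipal.generator I)), hgen, ?_, ?_⟩
  · intro I J hI hJ
    obtain ⟨a, ha, rfl⟩ := hex I hI
    obtain ⟨b, hb, rfl⟩ := hex J hJ
    have h1 := hgen (a * b) (mul_ne_zero ha hb)
    simp only [← Ideal.span_singleton_mul_span_singleton] at h1
    simp only []
    rw [h1, hgen a ha, hgen b hb, map_mul, hmul _ _ (hne a ha) (hne b hb)]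
  · intro I hI hI'
    obtain ⟨a, ha, rfl⟩ := hex I hI
    simp only []
    rw [hgen a ha]
    exact hpos a ha fun h => hI' (Ideal.span_singleton_eq_top.mpr h)

/-- Let `O = integralClosure R L`, a Dedekind domain (`IsIntegralClosure.isDedekindDomain`), finite
over `R` (`IsIntegralClosure.finite`), with fraction field `L`. Take `ι = HeightOneSpectrum O`,
`pl P = -WithZero.log (P.valuation L ·)` (copy `ded_pl`, `ded_ge_iff`, `finite_finSet`,
`isIntegral_iff_ge` from `Lib/MP_a01f70_lc/QQ/Ded.lean`, do not import that library).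
For a nonzero ideal `I` of `R` put `ψ I = Ψ (generator I)`; `Ψ` vanishes on units, so `ψ` is
additive and `ψ (span {a}) = Ψ a`. Weight `w P = (ψ (Ideal.relNorm R P)).toNat`, positive because
`relNorm R P ≤ comap P ≠ ⊤` and `≠ ⊥`. For `x ∈ O` nonzero factor `span {x}` into primes
(`Ideal.finprod_heightOneSpectrum_factorization` or induction on ideals with
`UniqueFactorizationMonoid.induction_on_prime`), use `Ideal.relNorm_singleton`,
`Algebra.algebraMap_intNorm`; for general `x` write `x = a / b`.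
Derivation: `O` is spanned over `R` by finitely many `e j`; choose `c ∈ O`, `c ≠ 0`, with all
`c * D (e j) ∈ O`; then `c * D O ⊆ O`; an element of nonnegative order at `P` is `a / b` with
`b ∉ P` (`HeightOneSpectrum.exists_primeCompl_mul_eq_of_integer`); `κ P = ord_P c`.
Residues: `O ⧸ P` is finite over the finite ring `R ⧸ comap P`; `B = Nat.card (O ⧸ P)`, send
`a / b` to `mk a * (mk b)⁻¹` (or show that every element of order `≥ 0` is congruent to an element
of `O` modulo order `≥ 1`). -/
theorem exists_half (K : Type u) (L : Type v) [Field K] [Field L] [Algebra K L]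
    (R F : Type u) [CommRing R] [IsDomain R] [IsPrincipalIdealRing R] [Field F] [Algebra R F]
    [IsFractionRing R F] [Algebra F L] [Algebra R L] [IsScalarTower R F L] [FiniteDimensional F L]
    [Algebra.IsSeparable F L] (hK : ∀ c : K, IsIntegral R (algebraMap K L c))
    (Ψ : F → ℤ) (hmul : ∀ x y : F, x ≠ 0 → y ≠ 0 → Ψ (x * y) = Ψ x + Ψ y)
    (hnn : ∀ a : R, a ≠ 0 → 0 ≤ Ψ (algebraMap R F a))
    (hpos : ∀ a : R, a ≠ 0 → ¬ IsUnit a → 0 < Ψ (algebraMap R F a))
    (hres : ∀ I : Ideal R, I.IsMaximal → I ≠ ⊥ → Finite (R ⧸ I))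
    (D : Derivation ℤ L L) (hD : ∀ a : R, IsIntegral R (D (algebraMap R L a))) :
    ∃ (ι : Type v) (pl : ι → Place K L) (w : ι → ℕ) (κ : ι →₀ ℕ), (∀ i, 0 < w i) ∧
      (∀ x : L, {i | (pl i).ord x ≠ 0}.Finite) ∧
      (∀ x : L, x ≠ 0 → ∀ S : Finset ι, (∀ i, (pl i).ord x ≠ 0 → i ∈ S) →
        ∑ i ∈ S, (w i : ℤ) * (pl i).ord x = Ψ (Algebra.norm F x)) ∧
      (∀ i x, (pl i).Ge x 0 → (pl i).Ge (D x) (-(κ i : ℤ))) ∧
      (∀ i, ∃ B : ℕ, ∀ s : Finset L, (∀ x ∈ s, (pl i).Ge x 0) →
        (∀ x ∈ s, ∀ y ∈ s, (pl i).Ge (x - y) 1 → x = y) → s.card ≤ B) ∧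
      ∀ x : L, (∀ i, (pl i).Ge x 0) → IsIntegral R x := by
  classical
  have hded : IsDedekindDomain (integralClosure R L) := integralClosure.isDedekindDomain R F L
  have hfin : Module.Finite R (integralClosure R L) :=
    IsIntegralClosure.finite R F L (integralClosure R L)
  have hfrac : IsFractionRing (integralClosure R L) L :=
    IsIntegralClosure.isFractionRing_of_finite_extension R F L (integralClosure R L)
  have htf0 : IsTorsionFree R L := .trans_faithfulSMul R F L
  have htf : IsTorsionFree R (integralClosure R L) := IsIntegralClosure.isTorsionFree R L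
  have hK' : ∀ c : K, ∃ a : integralClosure R L,
      algebraMap (integralClosure R L) L a = algebraMap K L c := fun c => ⟨⟨_, hK c⟩, rfl⟩
  have hinj := IsFractionRing.injective (integralClosure R L) L
  obtain ⟨ψ, hψ1, hψ2, hψ3⟩ := half_psi Ψ hmul hnn hpos
  have hN : ∀ I J : Ideal (integralClosure R L), I ≠ ⊥ → J ≠ ⊥ →
      ψ (Ideal.relNorm R (I * J)) = ψ (Ideal.relNorm R I) + ψ (Ideal.relNorm R J) := by
    intro I J hI hJ
    rw [map_mul, hψ2 _ _ (mt Ideal.relNorm_eq_bot_iff.mp hI) (mt Ideal.relNorm_eq_bot_iff.mp hJ)]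
  have hw : ∀ P : IsDedekindDomain.HeightOneSpectrum (integralClosure R L),
      0 < ψ (Ideal.relNorm R P.asIdeal) := fun P =>
    hψ3 _ (mt Ideal.relNorm_eq_bot_iff.mp P.ne_bot)
      (ne_top_of_le_ne_top (Ideal.comap_ne_top _ P.isPrime.ne_top) (Ideal.relNorm_le_comap R _))
  have hint : ∀ a : integralClosure R L, a ≠ 0 →
      ∀ S : Finset (IsDedekindDomain.HeightOneSpectrum (integralClosure R L)),
      (∀ P, (half_pl hK' P).ord (algebraMap _ L a) ≠ 0 → P ∈ S) →
      ∑ P ∈ S, ψ (Ideal.relNorm R P.asIdeal) * (half_pl hK' P).ord (algebraMap _ L a) =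
        Ψ (Algebra.norm F (algebraMap _ L a)) := by
    intro a ha S hS
    rw [half_prod_int hK' (fun I => ψ (Ideal.relNorm R I)) hN ha S hS, Ideal.relNorm_singleton,
      hψ1 _ (mt Algebra.intNorm_eq_zero.mp ha), Algebra.algebraMap_intNorm (L := L)]
  obtain ⟨s, hs⟩ := Module.Finite.fg_top (R := R) (M := integralClosure R L)
  obtain ⟨c, hc⟩ := IsLocalization.exist_integer_multiples
    (nonZeroDivisors (integralClosure R L)) s fun e => D (algebraMap _ L e)
  have hc0 : (c : integralClosure R L) ≠ 0 := nonZeroDivisors.ne_zero c.2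
  have hcD : ∀ a : integralClosure R L, ∃ a' : integralClosure R L,
      algebraMap _ L a' = algebraMap _ L (c : integralClosure R L) * D (algebraMap _ L a) := by
    intro a
    have ha : a ∈ Submodule.span R (s : Set (integralClosure R L)) := hs ▸ Submodule.mem_top
    induction ha using Submodule.span_induction with
    | mem e he =>
      obtain ⟨a', ha'⟩ := hc e he
      exact ⟨a', by rw [ha', Algebra.smul_def]⟩
    | zero => exact ⟨0, by simp⟩
    | add x y _ _ hx hy =>
      obtain ⟨x', hx'⟩ := hx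
      obtain ⟨y', hy'⟩ := hy
      exact ⟨x' + y', by rw [map_add, map_add, map_add, hx', hy', mul_add]⟩
    | smul r x _ hx =>
      obtain ⟨x', hx'⟩ := hx
      refine ⟨r • x' + c * x * ⟨_, hD r⟩, ?_⟩
      have e1 : ∀ z : integralClosure R L, algebraMap _ L (r • z) =
          algebraMap R L r * algebraMap _ L z := fun z => by
        rw [Algebra.smul_def, map_mul, ← IsScalarTower.algebraMap_apply]
      have e2 : algebraMap (integralClosure R L) L ⟨_, hD r⟩ = D (algebraMap R L r) := rfl
      rw [map_add, e1, e1, map_mul, map_mul, e2, hx', D.leibniz, smul_eq_mul, smul_eq_mul]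
      ring
  refine ⟨IsDedekindDomain.HeightOneSpectrum (integralClosure R L), half_pl hK',
    fun P => (ψ (Ideal.relNorm R P.asIdeal)).toNat,
    Finsupp.ofSupportFinite
      (fun P => ((half_pl hK' P).ord (algebraMap _ L (c : integralClosure R L))).toNat)
      ((half_fin hK' (algebraMap _ L (c : integralClosure R L))).subset fun P hP h => hP (by
        simp only [h, Int.toNat_zero])),
    fun P => ?_, half_fin hK', fun x hx S hS => ?_, fun P x hx => ?_, fun P => ?_, fun x hx => ?_⟩
  · have := hw P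
    show 0 < (ψ (Ideal.relNorm R P.asIdeal)).toNat
    omega
  · obtain ⟨a, b, hb, rfl⟩ := IsFractionRing.div_surjective (A := integralClosure R L) x
    have hb0 : b ≠ 0 := nonZeroDivisors.ne_zero hb
    have hb1 : algebraMap _ L b ≠ 0 := (map_ne_zero_iff _ hinj).mpr hb0
    have ha1 : algebraMap _ L a ≠ 0 := fun h => hx (by rw [h, zero_div])
    have ha0 : a ≠ 0 := (map_ne_zero_iff _ hinj).mp ha1
    have h1 := hint a ha0 (S ∪ (half_fin hK' (algebraMap _ L a)).toFinset ∪
      (half_fin hK' (algebraMap _ L b)).toFinset) fun P hP =>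
        Finset.mem_union_left _ (Finset.mem_union_right _ ((Set.Finite.mem_toFinset _).mpr hP))
    have h2 := hint b hb0 (S ∪ (half_fin hK' (algebraMap _ L a)).toFinset ∪
      (half_fin hK' (algebraMap _ L b)).toFinset) fun P hP =>
        Finset.mem_union_right _ ((Set.Finite.mem_toFinset _).mpr hP)
    have h3 := hmul _ _ (Algebra.norm_ne_zero_iff (R := F).mpr hx)
      (Algebra.norm_ne_zero_iff (R := F).mpr hb1)
    rw [← map_mul, div_mul_cancel₀ _ hb1, ← h1, ← h2, ← sub_eq_iff_eq_add,
      ← Finset.sum_sub_distrib] at h3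
    rw [← h3, Finset.sum_subset (Finset.subset_union_left.trans Finset.subset_union_left)
      (s₂ := S ∪ (half_fin hK' (algebraMap _ L a)).toFinset ∪
        (half_fin hK' (algebraMap _ L b)).toFinset) (fun P _ hP => by
          rw [not_not.mp (mt (hS P) hP), mul_zero])]
    refine Finset.sum_congr rfl fun P _ => ?_
    rw [Place.ord_div _ ha1 hb1, Int.toNat_of_nonneg (hw P).le]
    ring
  · refine (half_der hK' D hc0 hcD P hx).mono ?_
    rw [Finsupp.ofSupportFinite_coe]
    omega
  · have hmax := P.isMaximal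
    have h1 : (P.asIdeal.comap (algebraMap R (integralClosure R L))).IsMaximal :=
      Ideal.isMaximal_comap_of_isIntegral_of_isMaximal P.asIdeal
    have h2 : P.asIdeal.comap (algebraMap R (integralClosure R L)) ≠ ⊥ :=
      ne_bot_of_le_ne_bot (mt Ideal.relNorm_eq_bot_iff.mp P.ne_bot) (Ideal.relNorm_le_comap R _)
    have h3 : Finite (R ⧸ P.asIdeal.under R) := hres _ h1 h2
    have h4 : Finite (integralClosure R L ⧸ P.asIdeal) :=
      Module.finite_of_finite (R ⧸ P.asIdeal.under R)
    exact ⟨_, half_res hK' P⟩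
  · obtain ⟨a, ha⟩ := IsDedekindDomain.HeightOneSpectrum.mem_integers_of_valuation_le_one
      (R := integralClosure R L) L x fun P => (half_ge_zero hK' P x).mp (hx P)
    rw [← ha]
    exact a.2

end Pool.Agent.Lib.MP_6adaea_nt
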