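import Pool.Agent.Lib.MP_6adaea_nt.Half

/-!
Places in a finite Galois extension: the inertia group has order the ramification index.
-/

set_option linter.unusedSectionVars false

namespace Pool.Agent.Lib.MP_6adaea_nt
open Module Polynomial IsDedekindDomain

universe u v

variable {k : Type u} {L K : Type v} [Field k] [Field L] [Field K] [Algebra k L] [Algebra k K]
  [Algebra L K] [IsScalarTower k L K]

namespace Place

open Classical in
/-- the multiplicative valuation of a place -/
noncomputable def val (v : Place k L) : Valuation L (WithZero (Multiplicative ℤ)) where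
  toFun x := if x = 0 then 0 else WithZero.exp (-v.ord x)
  map_zero' := by simp
  map_one' := by simp
  map_mul' x y := by
    by_cases hx : x = 0
    · simp [hx]
    by_cases hy : y = 0
    · simp [hy]
    simp only [if_neg hx, if_neg hy, if_neg (mul_ne_zero hx hy), v.ord_mul hx hy, neg_add,
      WithZero.exp_add]
  map_add_le_max' x y := by
    by_cases hx : x = 0
    · simp [hx]
    by_cases hy : y = 0
    · simp [hy]
    by_cases h : x + y = 0
    · simp [h]
    simp only [if_neg hx, if_neg hy, if_neg h, le_max_iff, WithZero.exp_le_exp]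
    have := v.ord_add hx hy h
    omega

open Classical in
lemma val_apply (v : Place k L) (x : L) :
    v.val x = if x = 0 then 0 else WithZero.exp (-v.ord x) := rfl

lemma val_le_one (v : Place k L) {x : L} : v.val x ≤ 1 ↔ v.Ge x 0 := by
  by_cases hx : x = 0
  · simp [hx]
  rw [val_apply, if_neg hx, ← WithZero.exp_zero, WithZero.exp_le_exp, ge_iff hx]
  omega

lemma val_lt_one (v : Place k L) {x : L} : v.val x < 1 ↔ v.Ge x 1 := by
  by_cases hx : x = 0
  · simp [hx]
  rw [val_apply, if_neg hx, ← WithZero.exp_zero, WithZero.exp_lt_exp, ge_iff hx]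
  omega

instance val_nontrivial (v : Place k L) : v.val.IsNontrivial := by
  obtain ⟨t, h0, h1⟩ := v.surj
  exact ⟨t, (Valuation.ne_zero_iff _).mpr h0, (v.val_lt_one.mpr (Ge.of_le h1.ge)).ne⟩

/-- the valuation ring of a place -/
noncomputable abbrev O (v : Place k L) : ValuationSubring L := v.val.valuationSubring

lemma mem_O (v : Place k L) {x : L} : x ∈ v.O ↔ v.Ge x 0 :=
  (Valuation.mem_valuationSubring_iff _ _).trans v.val_le_one

lemma mem_max (v : Place k L) (x : v.O) : x ∈ IsLocalRing.maximalIdeal v.O ↔ v.Ge (x : L) 1 :=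
  (Valuation.mem_maximalIdeal_iff _ _).trans v.val_lt_one

/-- a ring homomorphism that maps the valuation ring and its maximal ideal into those of another
place multiplies the order by a positive integer -/
lemma exists_mul {F : Type*} [FunLike F L K] [RingHomClass F L K] (f : F) (v : Place k L)
    (w : Place k K) (h0 : ∀ x, v.Ge x 0 → w.Ge (f x) 0) (h1 : ∀ x, v.Ge x 1 → w.Ge (f x) 1) :
    ∃ e : ℕ, 0 < e ∧ ∀ x, w.ord (f x) = e * v.ord x := by
  obtain ⟨t, ht0, ht1⟩ := v.surj
  have hf : ∀ x : L, x ≠ 0 → f x ≠ 0 := fun x hx => (map_ne_zero f).mpr hx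
  have he := (h1 t (Ge.of_le ht1.ge)).le (hf t ht0)
  refine ⟨(w.ord (f t)).toNat, by omega, fun x => ?_⟩
  by_cases hx : x = 0
  · simp [hx]
  have hz : t ^ v.ord x ≠ 0 := zpow_ne_zero _ ht0
  have hu : x / t ^ v.ord x ≠ 0 := div_ne_zero hx hz
  have h2 : v.ord (x / t ^ v.ord x) = 0 := by simp [v.ord_div hx hz, ht1]
  have h3 := (h0 _ (Ge.of_le h2.ge)).le (hf _ hu)
  have h4 := (h0 (x / t ^ v.ord x)⁻¹ (Ge.of_le (by simp only [ord_inv, h2, neg_zero, le_refl]))).le
    (hf _ (inv_ne_zero hu))
  rw [map_inv₀, ord_inv] at h4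
  have h5 : w.ord (f (x / t ^ v.ord x)) = 0 := by omega
  rw [map_div₀, map_zpow₀, w.ord_div (hf x hx) (zpow_ne_zero _ (hf t ht0)), ord_zpow] at h5
  rw [Int.toNat_of_nonneg (by omega)]
  linarith

lemma eq_of_ge {v w : Place k L} (h0 : ∀ x, v.Ge x 0 → w.Ge x 0)
    (h1 : ∀ x, v.Ge x 1 → w.Ge x 1) : v = w := by
  obtain ⟨e, he, h⟩ := exists_mul (RingHom.id L) v w h0 h1
  obtain ⟨t, -, ht⟩ := w.surj
  have h2 : (e : ℤ) = 1 := Int.eq_one_of_mul_eq_one_right (by omega) ((h t).symm.trans ht)
  ext x
  simpa [h2] using (h x).symm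

/-- `w` lies over `v` with ramification index `e` -/
def Over (w : Place k K) (v : Place k L) (e : ℕ) : Prop :=
  0 < e ∧ ∀ x : L, w.ord (algebraMap L K x) = e * v.ord x

lemma Over.ge_iff {w : Place k K} {v : Place k L} {e : ℕ} (h : w.Over v e) {x : L} {m : ℤ} :
    w.Ge (algebraMap L K x) (e * m) ↔ v.Ge x m := by
  by_cases hx : x = 0
  · simp [hx]
  rw [Place.ge_iff hx, Place.ge_iff (by simpa using hx), h.2,
    mul_le_mul_iff_right₀ (by exact_mod_cast h.1)]

lemma Over.ge_zero {w : Place k K} {v : Place k L} {e : ℕ} (h : w.Over v e) {x : L} :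
    w.Ge (algebraMap L K x) 0 ↔ v.Ge x 0 := by
  simpa using h.ge_iff (x := x) (m := 0)

lemma Over.ge_one {w : Place k K} {v : Place k L} {e : ℕ} (h : w.Over v e) {x : L} :
    w.Ge (algebraMap L K x) 1 ↔ v.Ge x 1 := by
  by_cases hx : x = 0
  · simp [hx]
  have he : (0 : ℤ) < e := by exact_mod_cast h.1
  rw [Place.ge_iff hx, Place.ge_iff (by simpa using hx), h.2]
  constructor
  · intro h1
    by_contra h2
    nlinarith
  · intro h1
    nlinarith

/-- integral elements have nonnegative order -/
lemma ge_of_isIntegral {R : Type*} [CommRing R] [Algebra R K] (w : Place k K)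
    (hR : ∀ a : R, w.Ge (algebraMap R K a) 0) {x : K} (hx : IsIntegral R x) : w.Ge x 0 := by
  let _ : Algebra R w.O := ((algebraMap R K).codRestrict w.O.toSubring
    fun a => w.mem_O.mpr (hR a)).toAlgebra
  have : IsScalarTower R w.O K := IsScalarTower.of_algebraMap_eq fun _ => rfl
  obtain ⟨y, rfl⟩ := IsIntegrallyClosed.isIntegral_iff.mp (hx.tower_top (A := w.O))
  exact w.mem_O.mp y.2

variable (L) in
/-- the inertia group -/
def inertia (w : Place k K) : Subgroup (K ≃ₐ[L] K) where
  carrier := {σ | ∀ x, w.Ge x 0 → w.Ge (σ x - x) 1}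
  one_mem' x _ := by simp
  mul_mem' := by
    intro σ τ hσ hτ x hx
    have h1 := hτ x hx
    have h2 : w.Ge (τ x) 0 := by simpa using (h1.mono zero_le_one).add hx
    simpa using (hσ _ h2).add h1
  inv_mem' := by
    intro σ hσ x hx
    have h2 : w.Ge (σ⁻¹ x) 0 := by
      by_contra h
      obtain ⟨h0, h1⟩ := not_ge_iff.mp h
      have h3 : w.Ge (σ⁻¹ x)⁻¹ 1 := Ge.of_le (by rw [ord_inv]; omega)
      have h4 := (hσ _ (h3.mono zero_le_one)).add h3
      have hx0 : x ≠ 0 := fun h => h0 (by simp [h])
      rw [sub_add_cancel, map_inv₀, ← AlgEquiv.mul_apply, mul_inv_cancel, AlgEquiv.one_apply,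
        ge_iff (inv_ne_zero hx0), ord_inv] at h4
      have := hx.le hx0
      omega
    have h3 := (hσ _ h2).neg
    rwa [← AlgEquiv.mul_apply, mul_inv_cancel, AlgEquiv.one_apply, neg_sub] at h3

lemma mem_inertia {w : Place k K} {σ : K ≃ₐ[L] K} :
    σ ∈ w.inertia L ↔ ∀ x, w.Ge x 0 → w.Ge (σ x - x) 1 := Iff.rfl

/-- inertia preserves the order -/
lemma ord_inertia {w : Place k K} {σ : K ≃ₐ[L] K} (hσ : σ ∈ w.inertia L) (x : K) :
    w.ord (σ x) = w.ord x := by
  have key : ∀ τ ∈ w.inertia L, ∃ e : ℕ, 0 < e ∧ ∀ x, w.ord (τ x) = e * w.ord x := fun τ hτ =>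
    exists_mul τ w w (fun x hx => by simpa using ((hτ x hx).mono zero_le_one).add hx)
      (fun x hx => by simpa using (hτ x (hx.mono zero_le_one)).add hx)
  obtain ⟨a, ha, h1⟩ := key σ hσ
  obtain ⟨b, hb, h2⟩ := key σ⁻¹ (inv_mem hσ)
  obtain ⟨t, -, ht⟩ := w.surj
  have h3 := h1 (σ⁻¹ t)
  rw [← AlgEquiv.mul_apply, mul_inv_cancel, AlgEquiv.one_apply, h2, ht, mul_one] at h3
  rw [h1, Int.eq_one_of_mul_eq_one_right (by omega) h3.symm, one_mul]

lemma ge_inertia {w : Place k K} {σ : K ≃ₐ[L] K} (hσ : σ ∈ w.inertia L) {x : K} {m : ℤ} :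
    w.Ge (σ x) m ↔ w.Ge x m := by
  simp [Ge, ord_inertia hσ]

end Place

section galois
open Place

variable (v : Place k L)

lemma inert_hK (c : k) : ∃ a : integralClosure v.O K, algebraMap _ K a = algebraMap k K c :=
  ⟨algebraMap v.O _ ⟨algebraMap k L c, v.mem_O.mpr (v.ge_const c)⟩, by
    rw [← IsScalarTower.algebraMap_apply, IsScalarTower.algebraMap_apply k L K]
    rfl⟩

/-- a place that is nonnegative on a Dedekind domain and positive exactly on a prime -/
lemma inert_eq_half {S : Type v} [CommRing S] [IsDedekindDomain S] [Algebra S K]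
    [IsFractionRing S K] (hK : ∀ c : k, ∃ a : S, algebraMap S K a = algebraMap k K c)
    (P : HeightOneSpectrum S) (w : Place k K) (h0 : ∀ a : S, w.Ge (algebraMap S K a) 0)
    (h1 : ∀ a : S, w.Ge (algebraMap S K a) 1 ↔ a ∈ P.asIdeal) : half_pl hK P = w := by
  have key : ∀ x, (half_pl hK P).Ge x 0 → ∃ a s : S, s ∉ P.asIdeal ∧
      x * algebraMap S K s = algebraMap S K a := fun x hx => by
    obtain ⟨a, s, h⟩ := P.exists_primeCompl_mul_eq_of_integer x ((half_ge_zero hK P x).mp hx)
    exact ⟨a, s, s.2, h⟩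
  have unit : ∀ s : S, s ∉ P.asIdeal → algebraMap S K s ≠ 0 ∧ w.ord (algebraMap S K s) = 0 :=
    fun s hs => by
      obtain ⟨h2, h3⟩ := not_ge_iff.mp (mt (h1 s).mp hs)
      have := (h0 s).le h2
      exact ⟨h2, by omega⟩
  refine eq_of_ge (fun x hx => ?_) fun x hx => ?_
  · obtain ⟨a, s, hs, h⟩ := key x hx
    have h2 := h0 a
    rwa [← h, ge_mul_iff (unit s hs).1, (unit s hs).2, sub_zero] at h2
  · obtain ⟨a, s, hs, h⟩ := key x (hx.mono zero_le_one)
    have h2 : (half_pl hK P).Ge (algebraMap S K a) 1 := by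
      rw [← h]
      simpa using hx.mul (half_ge_int hK P s)
    have h3 := (h1 a).mpr ((half_ge_one hK P a).mp h2)
    rwa [← h, ge_mul_iff (unit s hs).1, (unit s hs).2, sub_zero] at h3

/-- the maximal ideal of the valuation ring as a height one prime -/
noncomputable def inert_max : HeightOneSpectrum v.O :=
  ⟨IsLocalRing.maximalIdeal v.O, inferInstance, IsDiscreteValuationRing.not_a_field _⟩

lemma inert_hL (c : k) : ∃ a : v.O, algebraMap _ L a = algebraMap k L c :=
  ⟨⟨algebraMap k L c, v.mem_O.mpr (v.ge_const c)⟩, rfl⟩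

lemma inert_max_eq : half_pl (inert_hL v) (inert_max v) = v :=
  inert_eq_half _ _ v (fun a => v.mem_O.mp a.2) fun a => (v.mem_max a).symm

instance inert_faith : FaithfulSMul v.O (integralClosure v.O K) :=
  (faithfulSMul_iff_algebraMap_injective _ _).mpr fun _ _ h =>
    Subtype.ext ((algebraMap L K).injective (congrArg Subtype.val h))

variable [FiniteDimensional L K] [Algebra.IsSeparable L K]

instance inert_ded : IsDedekindDomain (integralClosure v.O K) :=
  integralClosure.isDedekindDomain v.O L K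

instance inert_frac : IsFractionRing (integralClosure v.O K) K :=
  integralClosure.isFractionRing_of_finite_extension L K

instance inert_fin : Module.Finite v.O (integralClosure v.O K) :=
  IsIntegralClosure.finite v.O L K _

lemma inert_over (P : HeightOneSpectrum (integralClosure v.O K))
    [P.asIdeal.LiesOver (inert_max v).asIdeal] :
    (half_pl (inert_hK v) P).Over v ((inert_max v).asIdeal.ramificationIdx' P.asIdeal) := by
  refine ⟨Nat.pos_of_ne_zero (Ideal.IsDedekindDomain.ramificationIdx'_ne_zero_of_liesOver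
    P.asIdeal (inert_max v).ne_bot), fun x => ?_⟩
  have h := HeightOneSpectrum.valuation_liesOver K (inert_max v) P x
  have h2 : v.ord x = -WithZero.log ((inert_max v).valuation L x) :=
    (congrArg (fun u : Place k L => u.ord x) (inert_max_eq v)).symm
  show -WithZero.log (P.valuation K (algebraMap L K x)) = _
  rw [← h, h2, WithZero.log_pow]
  simp

variable (K) in
/-- every place extends to a finite separable extension -/
theorem exists_over : ∃ (w : Place k K) (e : ℕ), w.Over v e := by
  obtain ⟨P, h1, h2⟩ := Ideal.exists_ideal_over_maximal_of_isIntegral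
    (S := integralClosure v.O K) (IsLocalRing.maximalIdeal v.O) (by
      rw [(RingHom.injective_iff_ker_eq_bot (algebraMap v.O (integralClosure v.O K))).mp
        (FaithfulSMul.algebraMap_injective _ _)]
      exact bot_le)
  have h3 : P ≠ ⊥ := by
    rintro rfl
    rw [Ideal.comap_bot_of_injective _ (FaithfulSMul.algebraMap_injective _ _)] at h2
    exact (inert_max v).ne_bot h2.symm
  have : (⟨P, h1.isPrime, h3⟩ : HeightOneSpectrum _).asIdeal.LiesOver (inert_max v).asIdeal :=
    ⟨h2.symm⟩
  exact ⟨_, _, inert_over v ⟨P, h1.isPrime, h3⟩⟩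

variable {v}

lemma inert_ge {w : Place k K} {e : ℕ} (h : w.Over v e) (a : integralClosure v.O K) :
    w.Ge (algebraMap _ K a) 0 :=
  w.ge_of_isIntegral (R := v.O) (fun b => h.ge_zero.mpr (v.mem_O.mp b.2)) a.2

/-- the prime of the integral closure below a place -/
noncomputable def inert_prime {w : Place k K} {e : ℕ} (h : w.Over v e) :
    HeightOneSpectrum (integralClosure v.O K) where
  asIdeal :=
    { carrier := {a | w.Ge (algebraMap _ K a) 1}
      add_mem' := fun ha hb => by simpa using Ge.add ha hb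
      zero_mem' := by simp
      smul_mem' := fun c a ha => by simpa using (inert_ge h c).mul ha }
  isPrime := by
    refine ⟨fun h1 => ?_, fun {a b} hab => ?_⟩
    · have h2 : w.Ge (algebraMap (integralClosure v.O K) K 1) 1 :=
        (Ideal.eq_top_iff_one _).mp h1
      rw [map_one, ge_iff one_ne_zero, ord_one] at h2
      omega
    · by_contra hc
      obtain ⟨ha, hb⟩ := not_or.mp hc
      obtain ⟨a1, a2⟩ := not_ge_iff.mp ha
      obtain ⟨b1, b2⟩ := not_ge_iff.mp hb
      have h3 : w.Ge (algebraMap _ K (a * b)) 1 := hab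
      rw [map_mul, ge_iff (mul_ne_zero a1 b1), w.ord_mul a1 b1] at h3
      omega
  ne_bot := by
    obtain ⟨t, h0, h1⟩ := v.surj
    intro h2
    have h3 : algebraMap v.O (integralClosure v.O K) ⟨t, v.mem_O.mpr (Ge.of_le (by omega))⟩ ∈
        (⊥ : Ideal (integralClosure v.O K)) := by
      rw [← h2]
      exact h.ge_one.mpr (Ge.of_le h1.ge)
    rw [Ideal.mem_bot, FaithfulSMul.algebraMap_eq_zero_iff] at h3
    exact h0 (congrArg Subtype.val h3)

lemma inert_prime_eq {w : Place k K} {e : ℕ} (h : w.Over v e) :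
    half_pl (inert_hK v) (inert_prime h) = w :=
  inert_eq_half _ _ w (inert_ge h) fun _ => Iff.rfl

instance inert_lies {w : Place k K} {e : ℕ} (h : w.Over v e) :
    (inert_prime h).asIdeal.LiesOver (inert_max v).asIdeal :=
  ⟨by
    ext a
    exact (v.mem_max a).trans h.ge_one.symm⟩

lemma Place.Over.unique {w : Place k K} {e e' : ℕ} (h : w.Over v e) (h' : w.Over v e') :
    e = e' := by
  obtain ⟨t, -, h1⟩ := v.surj
  have := (h.2 t).symm.trans (h'.2 t)
  rw [h1] at this
  omega

end galois

section galois2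
open Place

variable {v : Place k L} [FiniteDimensional L K] [IsGalois L K]

/-- the order of the inertia group is the ramification index -/
theorem card_inertia (p : ℕ) [Fact p.Prime] [CharP L p]
    (hv : ∀ x, v.Ge x 0 → ∃ y, v.Ge y 0 ∧ v.Ge (x - y ^ p) 1) {w : Place k K} {e : ℕ}
    (h : w.Over v e) : Nat.card (w.inertia L) = e := by
  let : MulSemiringAction (K ≃ₐ[L] K) (integralClosure v.O K) :=
    IsIntegralClosure.MulSemiringAction v.O L K _
  have : IsGaloisGroup (K ≃ₐ[L] K) v.O (integralClosure v.O K) :=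
    IsGaloisGroup.of_isFractionRing _ _ _ L K
  have hP := (inert_prime h).isPrime
  have hm := (inert_max v).isPrime
  have hO : CharP v.O p := CharP.subring L p v.O.toSubring
  have : PerfectField (inert_max v).asIdeal.ResidueField := by
    have : CharP (inert_max v).asIdeal.ResidueField p := by
      have h0 : (p : (inert_max v).asIdeal.ResidueField) = 0 := by
        rw [← map_natCast (algebraMap v.O _), CharP.cast_eq_zero, map_zero]
      exact (CharP.charP_iff_prime_eq_zero Fact.out).mpr h0
    have hmax : (inert_max v).asIdeal.IsMaximal := (inert_max v).isMaximal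
    have : PerfectRing (inert_max v).asIdeal.ResidueField p := by
      refine PerfectRing.ofSurjective _ p fun z => ?_
      obtain ⟨x, rfl⟩ := Ideal.algebraMap_residueField_surjective (inert_max v).asIdeal z
      obtain ⟨y, hy, hxy⟩ := hv x (v.mem_O.mp x.2)
      refine ⟨algebraMap v.O _ ⟨y, v.mem_O.mpr hy⟩, ?_⟩
      rw [frobenius_def, ← map_pow, eq_comm, ← sub_eq_zero, ← map_sub,
        Ideal.algebraMap_residueField_eq_zero]
      exact (v.mem_max _).mpr hxy
    exact PerfectRing.toPerfectField _ p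
  have h1 := Ideal.card_inertia_eq_ramificationIdxIn (G := K ≃ₐ[L] K) (inert_max v).asIdeal
    (inert_prime h).asIdeal
  have h2 := inert_over v (inert_prime h)
  rw [inert_prime_eq] at h2
  rw [Ideal.ramificationIdxIn_eq_ramificationIdx _ (inert_prime h).asIdeal (K ≃ₐ[L] K),
    ← Ideal.ramificationIdx'_eq_ramificationIdx (inert_max v).asIdeal _ (inert_max v).ne_bot,
    h2.unique h] at h1
  have hs : ∀ (σ : K ≃ₐ[L] K) (a : integralClosure v.O K),
      algebraMap _ K (σ • a) = σ (algebraMap _ K a) := fun σ a => by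
    exact algebraMap_galRestrict_apply v.O σ a
  rw [← h1]
  congr 2
  ext σ
  rw [mem_inertia, Ideal.inertia, AddSubgroup.mem_inertia]
  constructor
  · intro hσ a
    have h3 := hσ _ (inert_ge h a)
    rw [← hs, ← map_sub] at h3
    exact h3
  · intro hσ x hx
    have h3 : ∀ a : integralClosure v.O K, w.Ge (σ (algebraMap _ K a) - algebraMap _ K a) 1 :=
      fun a => by
        rw [← hs, ← map_sub]
        exact hσ a
    rw [← inert_prime_eq h] at hx
    obtain ⟨a, s, hs⟩ := (inert_prime h).exists_primeCompl_mul_eq_of_integer x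
      ((half_ge_zero _ _ x).mp hx)
    rw [inert_prime_eq h] at hx
    obtain ⟨s1, s2⟩ := not_ge_iff.mp (show ¬ w.Ge (algebraMap _ K s.1) 1 from s.2)
    have s3 : ¬ w.Ge (σ (algebraMap _ K s.1)) 1 := fun h4 => s.2 (by
      have h5 := h4.sub (h3 s.1)
      rwa [sub_sub_cancel] at h5)
    obtain ⟨s4, s5⟩ := not_ge_iff.mp s3
    have h4 := (h3 a).sub (hx.mul (h3 s.1))
    have e1 : σ (algebraMap _ K a) - algebraMap _ K a -
        x * (σ (algebraMap _ K s.1) - algebraMap _ K s.1) =
        (σ x - x) * σ (algebraMap _ K s.1) := by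
      rw [← hs, map_mul]
      ring
    rw [e1, ge_mul_iff s4] at h4
    exact h4.mono (by omega)

/-- the places over a place are conjugate -/
theorem exists_conj {w w' : Place k K} {e e' : ℕ} (h : w.Over v e) (h' : w'.Over v e') :
    ∃ σ : K ≃ₐ[L] K, ∀ x, w'.ord (σ x) = w.ord x := by
  obtain ⟨σ, hσ⟩ := Ideal.exists_comap_galRestrict_eq v.O L K (integralClosure v.O K)
    (p := (inert_max v).asIdeal) (P₁ := (inert_prime h').asIdeal) (P₂ := (inert_prime h).asIdeal)
    ⟨(inert_prime h').isPrime, inferInstance⟩ ⟨(inert_prime h).isPrime, inferInstance⟩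
  let u : Place k K :=
    { ord := fun x => w'.ord (σ x)
      ord_zero := by simp
      ord_mul := fun hf hg => by
        rw [map_mul, w'.ord_mul (by simpa using hf) (by simpa using hg)]
      ord_add := fun {f g} hf hg hfg => by
        rw [map_add]
        exact w'.ord_add (by simpa using hf) (by simpa using hg) (by rwa [← map_add, _root_.map_ne_zero])
      ord_const := fun c => by
        rw [IsScalarTower.algebraMap_apply k L K, AlgEquiv.commutes,
          ← IsScalarTower.algebraMap_apply, ord_const']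
      surj := by
        obtain ⟨t, h0, h1⟩ := w'.surj
        exact ⟨σ.symm t, by simpa using h0, by simpa using h1⟩ }
  have hu : ∀ x m, u.Ge x m ↔ w'.Ge (σ x) m := fun x m => by simp [Ge, u]
  have h1 := inert_eq_half (inert_hK v) (inert_prime h) u
    (fun a => by
      rw [hu, ← algebraMap_galRestrict_apply v.O σ a]
      exact inert_ge h' _)
    (fun a => by
      rw [hu, ← algebraMap_galRestrict_apply v.O σ a, ← hσ, Ideal.mem_comap]
      rfl)
  rw [inert_prime_eq] at h1
  exact ⟨σ, fun x => (congrArg (fun z : Place k K => z.ord x) h1).symm⟩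

end galois2

end Pool.Agent.Lib.MP_6adaea_nt
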