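import Pool.Agent.Lib.MP_6adaea_nt.Defs

/-!
An interpolation bound for coefficients, and the growth of the dimension of discs.
-/

set_option linter.unusedSectionVars false

namespace Pool.Agent.Lib.MP_6adaea_nt
open Module Polynomial

universe u v

variable {K : Type u} {L : Type v} [Field K] [Finite K] [Field L] [Algebra K L]

lemma interp_mul {v : Place K L} {N : ℕ} {c c' : ℤ} {a b : L} (ha : a ∈ disc v N c)
    (hb : b ∈ disc v N c') : a * b ∈ disc v N (c + c') := by
  by_cases h1 : a = 0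
  · exact Or.inl (by simp [h1])
  by_cases h2 : b = 0
  · exact Or.inl (by simp [h2])
  refine Or.inr ?_
  rw [v.ord_mul h1 h2, mul_add]
  exact add_le_add (ha.resolve_left h1) (hb.resolve_left h2)

lemma interp_mono {v : Place K L} {N : ℕ} {c c' : ℤ} {a : L} (ha : a ∈ disc v N c)
    (h : c' ≤ c) : a ∈ disc v N c' := ha.imp id h.trans

/-- the weighted order of a polynomial is at least `m` -/
def interpPG (v : Place K L) (N : ℕ) (s m : ℤ) (Q : L[X]) : Prop :=
  ∀ k : ℕ, Q.coeff k ∈ disc v N (m - k * s)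

lemma interpPG_mono {v : Place K L} {N : ℕ} {s m m' : ℤ} {Q : L[X]} (h : interpPG v N s m Q)
    (hm : m' ≤ m) : interpPG v N s m' Q := fun k => interp_mono (h k) (by omega)

lemma interpPG_mul {v : Place K L} {N : ℕ} {s m m' : ℤ} {Q R : L[X]} (h : interpPG v N s m Q)
    (h' : interpPG v N s m' R) : interpPG v N s (m + m') (Q * R) := by
  intro k
  rw [coeff_mul]
  refine Submodule.sum_mem _ fun c hc => interp_mono (interp_mul (h c.1) (h' c.2)) (le_of_eq ?_)
  rw [← Finset.HasAntidiagonal.mem_antidiagonal.mp hc]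
  push_cast
  ring

lemma interpPG_C {v : Place K L} {N : ℕ} {s m : ℤ} {a : L} (h : a ∈ disc v N m) :
    interpPG v N s m (C a) := by
  intro k
  rw [coeff_C]
  split_ifs with hk
  · simpa [hk] using h
  · exact Submodule.zero_mem _

lemma interpPG_prod {ι : Type*} {v : Place K L} {N : ℕ} {s : ℤ} (S : Finset ι) (m : ι → ℤ)
    (Q : ι → L[X]) (h : ∀ i ∈ S, interpPG v N s (m i) (Q i)) :
    interpPG v N s (∑ i ∈ S, m i) (∏ i ∈ S, Q i) := by
  classical
  induction S using Finset.induction_on with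
  | empty =>
    rw [Finset.sum_empty, Finset.prod_empty, ← C_1]
    exact interpPG_C (Or.inr (by simp))
  | insert a S ha ih =>
    rw [Finset.sum_insert ha, Finset.prod_insert ha]
    exact interpPG_mul (h a (by simp)) (ih fun i hi => h i (by simp [hi]))

lemma interpPG_lin {v : Place K L} {N : ℕ} {s m : ℤ} {y : L} (h : y ∈ disc v N m) (hm : m ≤ s) :
    interpPG v N s m (X - C y) := by
  intro k
  rw [coeff_sub]
  refine Submodule.sub_mem _ ?_ (interpPG_C h k)
  rw [coeff_X]
  split_ifs with hk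
  · exact Or.inr (by simp [← hk, hm])
  · exact Submodule.zero_mem _

lemma interp_rank (g : L →ₗ[K] L) (A : Submodule K L) [FiniteDimensional K A] :
    finrank K (A.map g) + finrank K (A ⊓ LinearMap.ker g : Submodule K L) = finrank K A := by
  rw [← LinearMap.finrank_range_add_finrank_ker (g.domRestrict A), LinearMap.range_domRestrict,
    LinearMap.ker_domRestrict, ← Submodule.finrank_map_subtype_eq A, Submodule.map_comap_subtype]

lemma interp_map (g : L →ₗ[K] L) {A B : Submodule K L} [FiniteDimensional K B] (h : A ≤ B) {r : ℕ}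
    (hr : finrank K B ≤ finrank K A + r) : finrank K (B.map g) ≤ finrank K (A.map g) + r := by
  have := Submodule.finiteDimensional_of_le h
  have e1 := interp_rank g A
  have e2 := interp_rank g B
  have e3 : finrank K (A ⊓ LinearMap.ker g : Submodule K L) ≤
      finrank K (B ⊓ LinearMap.ker g : Submodule K L) :=
    Submodule.finrank_mono (inf_le_inf_right _ h)
  omega

lemma interp_dim {A : Submodule K L} [FiniteDimensional K A] {r : ℕ}
    (h : (els A).card ≤ Nat.card K ^ r) : finrank K A ≤ r := by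
  rw [card_els] at h
  exact (Nat.pow_le_pow_iff_right (two_le_card (K := K))).mp h

/-- Put `PG m Q := ∀ k, Q.coeff k ≠ 0 → m ≤ N * ord (Q.coeff k) + k * s`; it is closed under sums
and products (adding `m`). Lagrange interpolation on `els G` (`Lagrange.eq_interpolate`):
`Φ = ∑ x, C (Φ x) * ∏ y ≠ x, C (x - y)⁻¹ * (X - C y)`. The factor `X - C y` has `PG (N ord y)` for
`y ≠ 0` and `PG s` for `y = 0`; `y ↦ x - y` permutes `G`, so for `x ≠ 0` the product has
`PG (s - N ord x)` and `s - N ord x ≥ 0` (note `ord 0 = 0`). -/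
theorem interp (v : Place K L) (Φ : L[X]) (h0 : Φ.eval 0 = 0) (G : Submodule K L)
    [FiniteDimensional K G] (hG : Φ.natDegree < (els G).card) (N : ℕ) (s t : ℤ)
    (h1 : ∀ x ∈ G, x ≠ 0 → N * v.ord x ≤ s)
    (h2 : ∀ x ∈ G, Φ.eval x ≠ 0 → t ≤ N * v.ord (Φ.eval x)) (k : ℕ) (hk : Φ.coeff k ≠ 0) :
    t ≤ N * v.ord (Φ.coeff k) + k * s := by
  classical
  have hΦ : Φ ≠ 0 := fun h => hk (by simp [h])
  have e := Lagrange.eq_interpolate (s := els G) (v := id) (f := Φ) (Set.injOn_id _)
    (by rw [degree_eq_natDegree hΦ]; exact_mod_cast hG)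
  have key : interpPG v N s t Φ := by
    intro j
    rw [e, Lagrange.interpolate_apply, finsetSum_coeff]
    refine Submodule.sum_mem _ fun x hx => ?_
    have hxG := mem_els.mp hx
    by_cases hx0 : Φ.eval x = 0
    · simp [hx0]
    have hx1 : x ≠ 0 := fun h => hx0 (h ▸ h0)
    have hb : interpPG v N s (∑ y ∈ (els G).erase x,
        (-(N * v.ord (x - y)) + (N * v.ord y + if y = 0 then s else 0)))
        (Lagrange.basis (els G) id x) := by
      refine interpPG_prod _ _ _ fun y hy => ?_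
      refine interpPG_mul (interpPG_C (Or.inr (by simp))) ?_
      by_cases hy0 : y = 0
      · exact interpPG_lin (Or.inl hy0) (by simp [hy0])
      · have := h1 y (mem_els.mp (Finset.mem_of_mem_erase hy)) hy0
        exact interpPG_lin (Or.inr (by simp [hy0])) (by simpa [hy0] using this)
    have s1 : ∑ y ∈ (els G).erase x, (N : ℤ) * v.ord (x - y) = ∑ y ∈ els G, N * v.ord y := by
      rw [Finset.sum_erase _ (by simp)]
      exact Finset.sum_bij' (fun y _ => x - y) (fun y _ => x - y)
        (fun y hy => mem_els.mpr (G.sub_mem hxG (mem_els.mp hy)))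
        (fun y hy => mem_els.mpr (G.sub_mem hxG (mem_els.mp hy)))
        (fun y _ => by simp) (fun y _ => by simp) fun y _ => rfl
    have s2 := Finset.add_sum_erase (els G) (fun y => (N : ℤ) * v.ord y) hx
    have s3 : ∑ y ∈ (els G).erase x, (if y = 0 then s else 0) = s := by
      rw [Finset.sum_ite_eq', if_pos (Finset.mem_erase.mpr ⟨hx1.symm, mem_els.mpr G.zero_mem⟩)]
    rw [Finset.sum_add_distrib, Finset.sum_add_distrib, Finset.sum_neg_distrib, s1, s3] at hb
    have h3 := h1 x hxG hx1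
    exact interpPG_mono (interpPG_mul (interpPG_C (Or.inr (h2 x hxG hx0))) hb) (by omega) j
  have := (key k).resolve_left hk
  omega

/-- One step. Let `V = W ⊓ disc v N (s + 1)`, `V' = W ⊓ disc v N (N ord (Φ.coeff k) + k s + 1)`,
`G = W ⊓ comap φ V'`. A complement `G'` of `G ⊓ V` in `G`
(`IsModularLattice.exists_disjoint_and_sup_eq`) has at most `q ^ r` elements by `interp`, so
dimension `≤ r`. `V' ⊓ map φ W = map φ G` has codimension `≤ r` in `V'` because
`W ⊓ ker φ` has dimension `≤ r` (roots of `Φ ≠ 0`). For `A ≤ B` finite dimensional,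
`finrank B ≤ finrank A + r` implies the same for the images under `f` (rank-nullity
`finrank (map f A) + finrank (A ⊓ ker f) = finrank A`), and
`finrank (map f (map φ V)) ≤ finrank (map f V)` because `ker f ≤ ker (f ∘ φ)`. -/
theorem disc_step (v : Place K L) (Φ : L[X]) (φ : L →ₗ[K] L) (hφ : ∀ x, φ x = Φ.eval x) (r : ℕ)
    (hr : Φ.natDegree ≤ Nat.card K ^ r) (W : Submodule K L) [FiniteDimensional K W]
    (hW : ∀ x ∈ W, φ x ∈ W) (f : L →ₗ[K] L) (hf : ∀ x, f x = 0 → f (φ x) = 0) (N : ℕ) (s : ℤ)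
    (k : ℕ) (hk : Φ.coeff k ≠ 0) :
    finrank K ((W ⊓ disc v N (N * v.ord (Φ.coeff k) + k * s + 1)).map f) ≤
      finrank K ((W ⊓ disc v N (s + 1)).map f) + 2 * r := by
  classical
  obtain ⟨c, hc⟩ : ∃ c, c = N * v.ord (Φ.coeff k) + k * s + 1 := ⟨_, rfl⟩
  rw [← hc]
  obtain ⟨V, hV⟩ : ∃ V, V = W ⊓ disc v N (s + 1) := ⟨_, rfl⟩
  obtain ⟨V', hV'⟩ : ∃ V', V' = W ⊓ disc v N c := ⟨_, rfl⟩
  obtain ⟨G, hG⟩ : ∃ G, G = W ⊓ V'.comap φ := ⟨_, rfl⟩
  rw [← hV, ← hV']
  have hΦ : Φ ≠ 0 := fun h => hk (by simp [h])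
  have l1 : V ≤ W := hV ▸ inf_le_left
  have l2 : V' ≤ W := hV' ▸ inf_le_left
  have l3 : G ≤ W := hG ▸ inf_le_left
  have l4 : W.map φ ≤ W := by
    rintro _ ⟨x, hx, rfl⟩
    exact hW x hx
  have := Submodule.finiteDimensional_of_le l1
  have := Submodule.finiteDimensional_of_le l2
  have := Submodule.finiteDimensional_of_le l3
  obtain ⟨G', d1, d2⟩ := IsModularLattice.exists_disjoint_and_sup_eq (inf_le_left : G ⊓ V ≤ G)
  have l5 : G' ≤ G := d2 ▸ le_sup_right
  have := Submodule.finiteDimensional_of_le l5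
  have e1 : finrank K G' ≤ r := by
    refine interp_dim (le_trans ?_ hr)
    by_contra hlt
    have := interp v Φ (by rw [← hφ, map_zero]) G' (not_le.mp hlt) N s c (fun x hx hx0 => ?_)
      (fun x hx hx0 => ?_) k hk
    · omega
    · by_contra h
      refine hx0 (Submodule.disjoint_def.mp d1 x ⟨l5 hx, ?_⟩ hx)
      rw [hV]
      exact ⟨l3 (l5 hx), Or.inr (by omega)⟩
    · have h3 := l5 hx
      rw [hG, hV'] at h3
      rw [← hφ] at hx0 ⊢
      exact (mem_disc.mp h3.2.2).resolve_left hx0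
  have e2 : finrank K G ≤ finrank K (G ⊓ V : Submodule K L) + r := by
    have := Submodule.finrank_sup_add_finrank_inf_eq (G ⊓ V) G'
    rw [d2] at this
    omega
  have e3 : finrank K (W ⊓ LinearMap.ker φ : Submodule K L) ≤ r := by
    refine interp_dim (le_trans ?_ hr)
    refine le_trans (Finset.card_le_card fun x hx => ?_)
      ((Multiset.toFinset_card_le _).trans (card_roots' Φ))
    have h3 : φ x = 0 := (mem_els.mp hx).2
    rw [Multiset.mem_toFinset, mem_roots hΦ, IsRoot.def, ← hφ]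
    exact h3
  have e4 : V' ⊓ W.map φ = G.map φ := by
    rw [hG]
    ext x
    constructor
    · rintro ⟨h3, y, hy, rfl⟩
      exact ⟨y, ⟨hy, h3⟩, rfl⟩
    · rintro ⟨y, ⟨hy, h3⟩, rfl⟩
      exact ⟨h3, y, hy, rfl⟩
  have e5 : finrank K V' ≤ finrank K (G.map φ) + r := by
    have h3 := Submodule.finrank_sup_add_finrank_inf_eq V' (W.map φ)
    have h4 := interp_rank φ W
    have h5 : finrank K (V' ⊔ W.map φ : Submodule K L) ≤ finrank K W :=
      Submodule.finrank_mono (sup_le l2 l4)
    rw [e4] at h3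
    omega
  have e6 := interp_map f (e4 ▸ inf_le_left : G.map φ ≤ V') e5
  have e7 := interp_map (f ∘ₗ φ) (inf_le_left : G ⊓ V ≤ G) e2
  have e8 : finrank K ((G ⊓ V).map (f ∘ₗ φ)) ≤ finrank K (V.map (f ∘ₗ φ)) :=
    Submodule.finrank_mono (Submodule.map_mono inf_le_right)
  have e9 : finrank K (V ⊓ LinearMap.ker f : Submodule K L) ≤
      finrank K (V ⊓ LinearMap.ker (f ∘ₗ φ) : Submodule K L) :=
    Submodule.finrank_mono (inf_le_inf_left _ fun x hx => hf x hx)
  have e10 := interp_rank f V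
  have e11 := interp_rank (f ∘ₗ φ) V
  rw [← Submodule.map_comp] at e6
  omega

end Pool.Agent.Lib.MP_6adaea_nt
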