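import Pool.Agent.Lib.MP_6adaea_nt.Defs

/-!
A subspace stable under a polynomial is not a single class modulo powers; the quotient isogeny.
-/

set_option linter.unusedSectionVars false

namespace Pool.Agent.Lib.MP_6adaea_nt
open Module Polynomial

universe u v

variable {K : Type u} {L : Type v} [Field K] [Finite K] [Field L] [Algebra K L]

/-- Let `E = (iterateFrobenius L p m).fieldRange`. Suppose all ratios lie in `E`. `Y ≠ 0` since
`natDegree Ψ ≥ 1`; fix `y₀ ∈ Y` nonzero. Choose an `E`-linear form `lam` on `L` with `lam 1 = 0`,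
`lam (Ψ.coeff 1) ≠ 0` (`Submodule.exists_dual_map_eq_bot_of_notMem` for `span E {1}`). For
`y = y₀ z ∈ Y` one has `z ∈ E`, `Ψ(y) / y₀ ∈ E`, so
`0 = lam (Ψ(y) / y₀) = ∑ lam (Ψ.coeff k * y₀ ^ k / y₀) z ^ k`: a nonzero polynomial over `L` of
degree `≤ natDegree Ψ` with too many roots
(`Polynomial.eq_zero_of_natDegree_lt_card_of_eval_eq_zero'`). -/
theorem exists_not_pow (p m : ℕ) [Fact p.Prime] [CharP L p] (Ψ : L[X])
    (hθ : ¬ ∃ y, Ψ.coeff 1 = y ^ p ^ m) (Y : Submodule K L) [FiniteDimensional K Y]
    (hY : ∀ y ∈ Y, Ψ.eval y ∈ Y) (hQ : Ψ.natDegree < (els Y).card) :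
    ∃ a ∈ Y, ∃ b ∈ Y, a ≠ 0 ∧ b ≠ 0 ∧ ¬ ∃ y, a / b = y ^ p ^ m := by
  classical
  by_contra hcon
  push Not at hcon
  set E : Subfield L := (iterateFrobenius L p m).fieldRange with hE
  have hmem : ∀ x : L, x ∈ E ↔ ∃ y, x = y ^ p ^ m := by
    intro x
    rw [hE, RingHom.mem_fieldRange]
    simp only [iterateFrobenius_def, eq_comm]
  have hp : p ^ m ≠ 0 := pow_ne_zero _ (Fact.out : p.Prime).ne_zero
  have h1 : Ψ.coeff 1 ≠ 0 := fun h => hθ ⟨0, by rw [h, zero_pow hp]⟩
  have hdeg : 1 ≤ Ψ.natDegree := le_natDegree_of_ne_zero h1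
  obtain ⟨y0, hy0, hy00⟩ := Finset.exists_mem_ne (s := els Y) (by omega) 0
  rw [mem_els] at hy0
  have hrat : ∀ y ∈ Y, y / y0 ∈ E := by
    intro y hy
    by_cases h : y = 0
    · rw [h, zero_div]
      exact E.zero_mem
    · exact (hmem _).mpr (hcon y hy y0 hy0 h hy00)
  have hnot : Ψ.coeff 1 ∉ Submodule.span E ({1} : Set L) := by
    rw [Submodule.mem_span_singleton]
    rintro ⟨a, ha⟩
    refine hθ ((hmem _).mp ?_)
    rw [← ha, Subfield.smul_def, smul_eq_mul, mul_one]
    exact a.2
  obtain ⟨lam, hl1, hl0⟩ := Submodule.exists_dual_map_eq_bot_of_notMem hnot inferInstance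
  have hlE : ∀ x ∈ E, lam x = 0 := by
    intro x hx
    have : lam x ∈ (Submodule.span E ({1} : Set L)).map lam :=
      Submodule.mem_map_of_mem (Submodule.mem_span_singleton.mpr
        ⟨⟨x, hx⟩, by rw [Subfield.smul_def, smul_eq_mul, mul_one]⟩)
    rwa [hl0, Submodule.mem_bot] at this
  set G : L[X] := ∑ k ∈ Finset.range (Ψ.natDegree + 1),
    C ((lam (Ψ.coeff k * y0 ^ k / y0) : E) : L) * X ^ k with hG
  have hGd : G.natDegree ≤ Ψ.natDegree :=
    natDegree_sum_le_of_forall_le _ _ fun k hk =>
      (natDegree_C_mul_X_pow_le _ _).trans (Nat.lt_succ_iff.mp (Finset.mem_range.mp hk))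
  have hG0 : G = 0 := by
    refine Polynomial.eq_zero_of_natDegree_lt_card_of_eval_eq_zero' G
      ((els Y).image fun y => y / y0) ?_ ?_
    · intro z hz
      obtain ⟨y, hy, rfl⟩ := Finset.mem_image.mp hz
      rw [mem_els] at hy
      set z : E := ⟨y / y0, hrat y hy⟩ with hz'
      have e1 : Ψ.eval y / y0 = ∑ k ∈ Finset.range (Ψ.natDegree + 1),
          z ^ k • (Ψ.coeff k * y0 ^ k / y0) := by
        rw [eval_eq_sum_range, Finset.sum_div]
        refine Finset.sum_congr rfl fun k _ => ?_
        rw [Subfield.smul_def, smul_eq_mul, SubmonoidClass.coe_pow, hz', div_pow]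
        field_simp
      have e2 := hlE _ (hrat _ (hY y hy))
      rw [e1, map_sum] at e2
      have e3 := congrArg (fun x : E => (x : L)) e2
      simp only [map_smul, smul_eq_mul, AddSubmonoidClass.coe_finsetSum, MulMemClass.coe_mul,
        SubmonoidClass.coe_pow, ZeroMemClass.coe_zero, hz'] at e3
      rw [hG, eval_finsetSum, ← e3]
      refine Finset.sum_congr rfl fun k _ => ?_
      rw [eval_mul, eval_C, eval_pow, eval_X, mul_comm]
    · rw [Finset.card_image_of_injective _ (fun a b h => (div_left_inj' hy00).mp h)]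
      omega
  have hc : G.coeff 1 = ((lam (Ψ.coeff 1) : E) : L) := by
    rw [hG, finsetSum_coeff, Finset.sum_eq_single 1, coeff_C_mul_X_pow, if_pos rfl, pow_one,
      mul_div_cancel_right₀ _ hy00]
    · intro k _ hk
      rw [coeff_C_mul_X_pow, if_neg hk.symm]
    · intro h
      exact absurd (Finset.mem_range.mpr (by omega)) h
  rw [hG0, coeff_zero] at hc
  exact hl1 (Subtype.ext hc.symm)

/-- the polynomial whose roots are the elements of `U` -/
noncomputable def isoF (U : Submodule K L) : L[X] := ∏ u ∈ els U, (X - C u)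

lemma isoF_eval (U : Submodule K L) (x : L) : (isoF U).eval x = ∏ u ∈ els U, (x - u) := by
  simp [isoF, eval_prod]

lemma isoF_monic (U : Submodule K L) : (isoF U).Monic := monic_prod_X_sub_C _ _

lemma isoF_natDegree (U : Submodule K L) : (isoF U).natDegree = (els U).card := by
  rw [isoF, natDegree_finsetProd_X_sub_C_eq_card]

lemma isoF_pos (U : Submodule K L) [FiniteDimensional K U] : 0 < (isoF U).natDegree := by
  rw [isoF_natDegree]
  exact Finset.card_pos.mpr ⟨0, mem_els.mpr U.zero_mem⟩

lemma isoF_root {U : Submodule K L} [FiniteDimensional K U] {u : L} (hu : u ∈ U) :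
    (isoF U).eval u = 0 := by
  rw [isoF_eval]
  exact Finset.prod_eq_zero (mem_els.mpr hu) (sub_self u)

lemma isoF_comp {U : Submodule K L} [FiniteDimensional K U] {v : L} (hv : v ∈ U) :
    (isoF U).comp (X + C v) = isoF U := by
  rw [isoF, Polynomial.prod_comp]
  refine Finset.prod_nbij' (fun u => u - v) (fun u => u + v) ?_ ?_ ?_ ?_ ?_
  · intro u hu
    exact mem_els.mpr (U.sub_mem (mem_els.mp hu) hv)
  · intro u hu
    exact mem_els.mpr (U.add_mem (mem_els.mp hu) hv)
  · intro u _
    simp
  · intro u _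
    simp
  · intro u _
    simp only [sub_comp, X_comp, C_comp, C_sub]
    ring

lemma isoF_add {U : Submodule K L} [FiniteDimensional K U] {v : L} (hv : v ∈ U) (x : L) :
    (isoF U).eval (x + v) = (isoF U).eval x := by
  conv_rhs => rw [← isoF_comp hv]
  simp [eval_comp]

/-- Let `F = ∏ u ∈ els U, (X - C u)`, monic of degree `|U|`, invariant under translations by `U`.
Additive: for fixed `y`, `F(X + y) - F(X) - F(y)` has degree `< |U|` and vanishes on `U`.
Homogeneous: `F(c x) = c ^ |U| F(x)` and `c ^ |U| = c` (`card_els`, `FiniteField.pow_card_pow`). -/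
theorem exists_fmap (U : Submodule K L) [FiniteDimensional K U] :
    ∃ f : L →ₗ[K] L, ∀ x, f x = ∏ u ∈ els U, (x - u) := by
  classical
  have hadd : ∀ x y : L, (isoF U).eval (x + y) = (isoF U).eval x + (isoF U).eval y := by
    intro x y
    have hm : ((isoF U).comp (X + C y)).Monic := (isoF_monic U).comp_X_add_C y
    have hd : ((isoF U).comp (X + C y)).natDegree = (isoF U).natDegree := by
      rw [natDegree_comp, natDegree_X_add_C, mul_one]
    have hlt : ((isoF U).comp (X + C y) - isoF U).natDegree < (isoF U).natDegree := by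
      by_cases h0 : (isoF U).comp (X + C y) - isoF U = 0
      · rw [h0, natDegree_zero]
        exact isoF_pos U
      · rw [← hd]
        refine natDegree_lt_natDegree h0 (degree_sub_lt_left ?_ hm.ne_zero ?_)
        · rw [degree_eq_natDegree hm.ne_zero, degree_eq_natDegree (isoF_monic U).ne_zero, hd]
        · rw [hm.leadingCoeff, (isoF_monic U).leadingCoeff]
    have hz : (isoF U).comp (X + C y) - isoF U - C ((isoF U).eval y) = 0 := by
      refine Polynomial.eq_zero_of_natDegree_lt_card_of_eval_eq_zero' _ (els U) ?_ ?_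
      · intro u hu
        rw [mem_els] at hu
        simp only [eval_sub, eval_comp, eval_add, eval_X, eval_C]
        rw [add_comm, isoF_add hu, isoF_root hu]
        ring
      · rw [natDegree_sub_C, ← isoF_natDegree]
        exact hlt
    have := congrArg (eval x) hz
    simp only [eval_sub, eval_comp, eval_add, eval_X, eval_C, eval_zero] at this
    linear_combination this
  have hsm : ∀ (c : K) (x : L), (isoF U).eval (c • x) = c • (isoF U).eval x := by
    intro c x
    by_cases hc : c = 0
    · rw [hc, zero_smul, zero_smul, isoF_root U.zero_mem]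
    have : Fintype K := Fintype.ofFinite K
    have h1 : ∏ u ∈ els U, (c • x - u) = ∏ u ∈ els U, (c • x - c • u) := by
      refine Finset.prod_nbij' (fun u => c⁻¹ • u) (fun u => c • u) ?_ ?_ ?_ ?_ ?_
      · intro u hu
        exact mem_els.mpr (U.smul_mem _ (mem_els.mp hu))
      · intro u hu
        exact mem_els.mpr (U.smul_mem _ (mem_els.mp hu))
      · intro u _
        simp [smul_smul, hc]
      · intro u _
        simp [smul_smul, hc]
      · intro u _
        simp [smul_smul, hc]
    rw [isoF_eval, isoF_eval, h1]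
    simp only [← smul_sub]
    rw [Finset.prod_smul, Finset.prod_const, card_els, Nat.card_eq_fintype_card,
      FiniteField.pow_card_pow]
  exact ⟨{ toFun := fun x => (isoF U).eval x, map_add' := hadd, map_smul' := hsm },
    fun x => isoF_eval U x⟩

lemma iso_decomp (U : Submodule K L) [FiniteDimensional K U] (n : ℕ) :
    ∀ H : L[X], H.natDegree = n → (∀ u ∈ U, H.comp (X + C u) = H) →
      ∃ Ψ : L[X], H = Ψ.comp (isoF U) := by
  classical
  induction n using Nat.strong_induction_on with
  | _ n ih =>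
    intro H hn hH
    have hdvd : isoF U ∣ H - C (H.eval 0) := by
      refine Finset.prod_dvd_of_coprime
        ((pairwise_coprime_X_sub_C Function.injective_id).set_pairwise _) fun u hu => ?_
      rw [dvd_iff_isRoot, IsRoot.def, eval_sub, eval_C, sub_eq_zero]
      conv_rhs => rw [← hH u (mem_els.mp hu)]
      simp [eval_comp]
    obtain ⟨Q, hQ⟩ := hdvd
    by_cases hQ0 : Q = 0
    · refine ⟨C (H.eval 0), ?_⟩
      rw [hQ0, mul_zero, sub_eq_zero] at hQ
      rw [C_comp]
      exact hQ
    have hd : Q.natDegree < n := by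
      have := congrArg natDegree hQ
      rw [natDegree_sub_C, natDegree_mul (isoF_monic U).ne_zero hQ0, hn] at this
      have := isoF_pos U
      omega
    obtain ⟨Ψ, hΨ⟩ := ih _ hd Q rfl (by
      intro u hu
      have h := congrArg (fun P : L[X] => P.comp (X + C u)) hQ
      simp only [sub_comp, C_comp, mul_comp, hH u hu, isoF_comp hu] at h
      rw [hQ] at h
      exact (mul_left_cancel₀ (isoF_monic U).ne_zero h).symm)
    refine ⟨C (H.eval 0) + X * Ψ, ?_⟩
    rw [add_comp, C_comp, mul_comp, X_comp, ← hΨ, ← hQ]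
    ring

/-- A polynomial `H` with `H.comp (X + C u) = H` for all `u ∈ U` is `Ψ.comp F`: induction on the
degree, `H - C (H 0)` vanishes on `U`, hence is `F * Q` with `Q` invariant. Apply this to
`H = F.comp Φ` (`Polynomial.funext`), compare degrees (`natDegree_comp`) and derivatives at `0`
(`Φ 0 = 0`, `F 0 = 0`, `F' 0 ≠ 0`). -/
theorem exists_iso [Infinite L] (Φ : L[X]) (φ : L →ₗ[K] L) (hφ : ∀ x, φ x = Φ.eval x)
    (U : Submodule K L) [FiniteDimensional K U] (hU : ∀ u ∈ U, φ u ∈ U) (f : L →ₗ[K] L)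
    (hf : ∀ x, f x = ∏ u ∈ els U, (x - u)) :
    ∃ Ψ : L[X], Ψ.natDegree ≤ Φ.natDegree ∧ Ψ.coeff 1 = Φ.coeff 1 ∧
      ∀ x, f (φ x) = Ψ.eval (f x) := by
  classical
  obtain ⟨Ψ, hΨ⟩ := iso_decomp U _ ((isoF U).comp Φ) rfl (by
    intro u hu
    refine Polynomial.funext fun x => ?_
    simp only [eval_comp, eval_add, eval_X, eval_C]
    rw [← hφ, ← hφ, map_add, isoF_add (hU u hu)])
  have hpos := isoF_pos U
  refine ⟨Ψ, ?_, ?_, fun x => ?_⟩
  · have h := congrArg natDegree hΨ
    rw [natDegree_comp, natDegree_comp, mul_comm] at h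
    exact (Nat.eq_of_mul_eq_mul_right hpos h).ge
  · have h := congrArg (fun P : L[X] => (derivative P).eval 0) hΨ
    have h0 : Φ.eval 0 = 0 := by rw [← hφ, map_zero]
    have h1 : (isoF U).eval 0 = 0 := isoF_root U.zero_mem
    have hsep : (isoF U).Separable :=
      separable_prod_X_sub_C_iff'.mpr fun x _ y _ hxy => hxy
    have h2 : (derivative (isoF U)).eval 0 ≠ 0 := by
      have := hsep.aeval_derivative_ne_zero (x := (0 : L)) (by simpa using h1)
      simpa using this
    simp only [derivative_comp, eval_mul, eval_comp, h0, h1] at h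
    have h3 : ∀ P : L[X], (derivative P).eval 0 = P.coeff 1 := by
      intro P
      rw [← coeff_zero_eq_eval_zero, coeff_derivative]
      simp
    rw [h3 Φ, h3 Ψ, mul_comm] at h
    exact (mul_left_cancel₀ h2 h).symm
  · have h := congrArg (eval x) hΨ
    rw [eval_comp, eval_comp] at h
    rw [hf, hf, ← isoF_eval, ← isoF_eval, hφ, h]

lemma fmap_eq_zero {U : Submodule K L} [FiniteDimensional K U] {f : L →ₗ[K] L}
    (hf : ∀ x, f x = ∏ u ∈ els U, (x - u)) {x : L} : f x = 0 ↔ x ∈ U := by
  rw [hf, Finset.prod_eq_zero_iff]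
  exact ⟨fun ⟨u, hu, h⟩ => sub_eq_zero.mp h ▸ mem_els.mp hu,
    fun h => ⟨x, mem_els.mpr h, sub_self x⟩⟩

end Pool.Agent.Lib.MP_6adaea_nt
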