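import Pool.Agent.Lib.MP_6adaea_nt.Defs

/-!
The theorem of Mason and its consequence for pairs of elements of a subspace.
-/

set_option linter.unusedSectionVars false

namespace Pool.Agent.Lib.MP_6adaea_nt
open Module Polynomial

universe u v

variable {K : Type u} {L : Type v} [Field K] [Finite K] [Field L] [Algebra K L]
  {p : ℕ} [Fact p.Prime] [CharP L p] (P : PSys K L p)

/-- write `x = π ^ n * ε` with a uniformiser `π` (`Place.surj`) and `ord ε = 0`;
`D x = n π ^ (n - 1) D π ε + π ^ n D ε` (`Derivation.leibniz_zpow`); integers have order `≥ 0` -/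
theorem PSys.der_ge (i : P.ι) (x : L) :
    (P.pl i).Ge (P.D x) ((P.pl i).ord x - 1 - P.κ i) := by
  by_cases hx : x = 0
  · simp [hx]
  obtain ⟨t, ht0, ht1⟩ := (P.pl i).surj
  set n := (P.pl i).ord x with hn
  have hz : t ^ n ≠ 0 := zpow_ne_zero _ ht0
  have he : (P.pl i).Ge (x / t ^ n) 0 :=
    Place.Ge.of_le (by rw [(P.pl i).ord_div hx hz, Place.ord_zpow, ht1]; omega)
  have hxe : x = t ^ n * (x / t ^ n) := by field_simp
  have hint : (P.pl i).Ge ((n : ℤ) : L) 0 := by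
    have := (P.pl i).ge_const ((n : ℤ) : K)
    rwa [map_intCast] at this
  have hD : P.D x = t ^ n * P.D (x / t ^ n) + x / t ^ n * ((n : L) * (t ^ (n - 1) * P.D t)) := by
    conv_lhs => rw [hxe]
    rw [Derivation.leibniz, Derivation.leibniz_zpow, smul_eq_mul, smul_eq_mul, smul_eq_mul,
      zsmul_eq_mul]
  have h1 : (P.pl i).Ge (t ^ n) n := Place.Ge.of_le (by rw [Place.ord_zpow, ht1]; omega)
  have h2 : (P.pl i).Ge (t ^ (n - 1)) (n - 1) :=
    Place.Ge.of_le (by rw [Place.ord_zpow, ht1]; omega)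
  have h3 := P.der i t (Place.Ge.of_le (by omega))
  rw [hD]
  exact ((h1.mul (P.der i _ he)).mono (by omega)).add
    ((he.mul (hint.mul (h2.mul h3))).mono (by omega))

open Classical in
/-- the local inequality -/
lemma mason_local {u : L} (hD : P.D u ≠ 0) (T : Finset P.ι)
    (hT : ∀ i, i ∉ T → (P.pl i).ord u = 0 ∧ (P.pl i).ord (1 - u) = 0) (i : P.ι) :
    |(P.pl i).ord u| ≤ 2 * (P.pl i).ord (P.D u) - (P.pl i).ord u - 2 * (P.pl i).ord (1 - u) +
      2 * (if i ∈ T then 1 else 0) + 2 * (P.κ i : ℤ) := by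
  have hu0 : u ≠ 0 := fun h => hD (by simp [h])
  have hu1 : 1 - u ≠ 0 := fun h => hD (by rw [← sub_eq_zero.mp h]; simp)
  have ha := (P.der_ge i u).le hD
  have hb : (P.pl i).ord (1 - u) - 1 - P.κ i ≤ (P.pl i).ord (P.D u) := by
    have h1 : P.D (1 - u) = -P.D u := by simp
    have h2 := (P.der_ge i (1 - u)).le (by rw [h1]; exact neg_ne_zero.mpr hD)
    rwa [h1, Place.ord_neg] at h2
  by_cases hi : i ∈ T
  · rw [if_pos hi]
    rcases lt_trichotomy ((P.pl i).ord u) 0 with h | h | h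
    · have h1 := (Place.ord_add_of_ge (v := P.pl i) (f := -u) (g := 1) (neg_ne_zero.mpr hu0)
        ((P.pl i).ge_one.mono (by rw [Place.ord_neg]; omega))).2
      rw [neg_add_eq_sub, Place.ord_neg] at h1
      rw [abs_of_neg h]
      omega
    · rw [h, abs_zero]
      omega
    · have h1 := (Place.ord_add_of_ge (v := P.pl i) (f := 1) (g := -u) one_ne_zero
        (Place.Ge.of_le (by rw [Place.ord_neg, Place.ord_one]; omega))).2
      rw [← sub_eq_add_neg, Place.ord_one] at h1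
      rw [abs_of_pos h]
      omega
  · obtain ⟨h1, h2⟩ := hT i hi
    have h3 := (P.der i u (Place.Ge.of_le h1.ge)).le hD
    rw [if_neg hi, h1, h2, abs_zero]
    omega

/-- the case of a nonzero derivative -/
lemma mason_sep {u : L} (hD : P.D u ≠ 0) (T : Finset P.ι)
    (hT : ∀ i, i ∉ T → (P.pl i).ord u = 0 ∧ (P.pl i).ord (1 - u) = 0) :
    ∑ i ∈ T, (P.w i : ℤ) * |(P.pl i).ord u| ≤ 2 * (∑ i ∈ T, (P.w i : ℤ) + P.kap) := by
  classical
  have hu0 : u ≠ 0 := fun h => hD (by simp [h])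
  have hu1 : 1 - u ≠ 0 := fun h => hD (by rw [← sub_eq_zero.mp h]; simp)
  set S := T ∪ P.κ.support ∪ (P.fin (P.D u)).toFinset with hS
  have hTS : T ⊆ S := fun i hi => by simp [hS, hi]
  have e1 := P.prod u hu0 S fun i hi => hTS (by_contra fun h => hi (hT i h).1)
  have e2 := P.prod (1 - u) hu1 S fun i hi => hTS (by_contra fun h => hi (hT i h).2)
  have e3 := P.prod (P.D u) hD S fun i hi => by simp [hS, hi]
  have e4 : ∑ i ∈ S, (P.w i : ℤ) * (if i ∈ T then 1 else 0) = ∑ i ∈ T, (P.w i : ℤ) := by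
    simp only [mul_ite, mul_one, mul_zero, Finset.sum_ite_mem, Finset.inter_eq_right.mpr hTS]
  have e5 : ∑ i ∈ S, (P.w i : ℤ) * (P.κ i : ℤ) = P.kap := by
    rw [PSys.kap, Finsupp.sum_of_support_subset _ (s := S) (fun i hi => by simp [hS, hi]) _
      (by simp)]
    push_cast
    rfl
  calc ∑ i ∈ T, (P.w i : ℤ) * |(P.pl i).ord u| ≤ ∑ i ∈ S, (P.w i : ℤ) * |(P.pl i).ord u| :=
        Finset.sum_le_sum_of_subset_of_nonneg hTS fun i _ _ => by positivity
    _ ≤ ∑ i ∈ S, (P.w i : ℤ) * (2 * (P.pl i).ord (P.D u) - (P.pl i).ord u -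
        2 * (P.pl i).ord (1 - u) + 2 * (if i ∈ T then 1 else 0) + 2 * (P.κ i : ℤ)) :=
        Finset.sum_le_sum fun i _ => mul_le_mul_of_nonneg_left
          (by convert mason_local P hD T hT i) (by positivity)
    _ = 2 * ∑ i ∈ S, (P.w i : ℤ) * (P.pl i).ord (P.D u) - ∑ i ∈ S, (P.w i : ℤ) * (P.pl i).ord u -
        2 * ∑ i ∈ S, (P.w i : ℤ) * (P.pl i).ord (1 - u) +
        2 * ∑ i ∈ S, (P.w i : ℤ) * (if i ∈ T then 1 else 0) +
        2 * ∑ i ∈ S, (P.w i : ℤ) * (P.κ i : ℤ) := by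
        simp only [Finset.mul_sum, ← Finset.sum_add_distrib, ← Finset.sum_sub_distrib]
        exact Finset.sum_congr rfl fun i _ => by ring
    _ = _ := by
        rw [e1, e2, e3, e4, e5]
        ring

/-- First the case `D u ≠ 0`: with `a = ord u`, `b = ord (1 - u)`, `d = ord (D u)`
(`D (1 - u) = - D u`) one has at every place
`|a| ≤ 2 d - a - 2 b + 2 * (if i ∈ T then 1 else 0) + 2 κ` (cases `a > 0`, `a < 0`, `a = 0`);
sum with weights over `T ∪ supp κ ∪ supp ord (D u)` and use the product formula three times.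
Then induction on `m`: if `D u = 0` then `u = y ^ p`, `1 - u = (1 - y) ^ p`. -/
theorem PSys.mason (m : ℕ) (u : L) (hu : ¬ ∃ y, u = y ^ p ^ m) (T : Finset P.ι)
    (hT : ∀ i, i ∉ T → (P.pl i).ord u = 0 ∧ (P.pl i).ord (1 - u) = 0) :
    ∑ i ∈ T, (P.w i : ℤ) * |(P.pl i).ord u| ≤ 2 * p ^ m * (∑ i ∈ T, (P.w i : ℤ) + P.kap) := by
  induction m generalizing u with
  | zero => exact absurd ⟨u, by simp⟩ hu
  | succ m ih =>
    have hp : 0 < p := (Fact.out : p.Prime).pos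
    have hp' : (0 : ℤ) < p := by exact_mod_cast hp
    have hA : (0 : ℤ) ≤ ∑ i ∈ T, (P.w i : ℤ) + P.kap := by positivity
    by_cases hD : P.D u = 0
    · obtain ⟨y, rfl⟩ := P.ker u hD
      have h1 : 1 - y ^ p = (1 - y) ^ p := by rw [sub_pow_char, one_pow]
      have h2 := ih y (fun ⟨z, hz⟩ => hu ⟨z, by rw [hz, ← pow_mul, pow_succ]⟩) fun i hi => by
        have h3 := hT i hi
        rw [h1, Place.ord_pow, Place.ord_pow] at h3
        exact ⟨(mul_eq_zero.mp h3.1).resolve_left hp'.ne', (mul_eq_zero.mp h3.2).resolve_left hp'.ne'⟩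
      calc ∑ i ∈ T, (P.w i : ℤ) * |(P.pl i).ord (y ^ p)|
          = p * ∑ i ∈ T, (P.w i : ℤ) * |(P.pl i).ord y| := by
            rw [Finset.mul_sum]
            refine Finset.sum_congr rfl fun i _ => ?_
            rw [Place.ord_pow, abs_mul, abs_of_pos hp']
            ring
        _ ≤ p * (2 * p ^ m * (∑ i ∈ T, (P.w i : ℤ) + P.kap)) :=
            mul_le_mul_of_nonneg_left h2 hp'.le
        _ = _ := by ring
    · refine (mason_sep P hD T hT).trans (mul_le_mul_of_nonneg_right ?_ hA)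
      have : (1 : ℤ) ≤ p ^ (m + 1) := one_le_pow₀ (by omega)
      omega

/-- the case of a quotient that is not a power -/
lemma mason_quot (m : ℕ) (Y : Submodule K L) (T : Finset P.ι)
    (hT : ∀ i, i ∉ T → Flat (P.pl i) Y) {y y' : L} (hy : y ∈ Y) (hy' : y' ∈ Y) (h0 : y ≠ 0)
    (h0' : y' ≠ 0) (hq : ¬ ∃ z, y / y' = z ^ p ^ m) :
    ∑ i ∈ T, (P.w i : ℤ) * |(P.pl i).ord y - (P.pl i).ord y'| ≤
      2 * p ^ m * (∑ i ∈ T, (P.w i : ℤ) + P.kap) := by
  have hne : y' - y ≠ 0 := fun h => hq ⟨1, by rw [sub_eq_zero.mp h, div_self h0, one_pow]⟩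
  have h1 := P.mason m (y / y') hq T fun i hi => by
    rw [one_sub_div h0', (P.pl i).ord_div h0 h0', (P.pl i).ord_div hne h0',
      hT i hi y hy y' hy' h0 h0', hT i hi _ (Y.sub_mem hy' hy) y' hy' hne h0']
    simp
  simpa only [Place.ord_div _ h0 h0'] using h1

/-- If `y / y'` is not a `p ^ m`-th power apply `mason` to `u = y / y'`,
`1 - u = (y' - y) / y'`. Otherwise one of `a`, `b`, say `z`, has `y / z` not a power, and then
`z / y'` is not a power; triangle inequality. -/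
theorem PSys.pair (m : ℕ) (Y : Submodule K L)
    (hY : ∃ a ∈ Y, ∃ b ∈ Y, a ≠ 0 ∧ b ≠ 0 ∧ ¬ ∃ y, a / b = y ^ p ^ m) (T : Finset P.ι)
    (hT : ∀ i, i ∉ T → Flat (P.pl i) Y) {y y' : L} (hy : y ∈ Y) (hy' : y' ∈ Y) (h0 : y ≠ 0)
    (h0' : y' ≠ 0) : ∑ i ∈ T, (P.w i : ℤ) * |(P.pl i).ord y - (P.pl i).ord y'| ≤
      4 * p ^ m * (∑ i ∈ T, (P.w i : ℤ) + P.kap) := by
  have hA : (0 : ℤ) ≤ p ^ m * (∑ i ∈ T, (P.w i : ℤ) + P.kap) := by positivity
  by_cases hq : ∃ z, y / y' = z ^ p ^ m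
  · obtain ⟨c, hc⟩ := hq
    obtain ⟨z, hz, hz0, hzq⟩ : ∃ z ∈ Y, z ≠ 0 ∧ ¬ ∃ s, y / z = s ^ p ^ m := by
      obtain ⟨a, ha, b, hb, ha0, hb0, hab⟩ := hY
      by_contra hcon
      push Not at hcon
      obtain ⟨s, hs⟩ := hcon a ha ha0
      obtain ⟨t, ht⟩ := hcon b hb hb0
      exact hab ⟨t / s, by rw [div_pow, ← hs, ← ht]; field_simp⟩
    have hzq' : ¬ ∃ s, z / y' = s ^ p ^ m := fun ⟨e, he⟩ =>
      hzq ⟨c / e, by rw [div_pow, ← hc, ← he]; field_simp⟩
    have h1 := mason_quot P m Y T hT hy hz h0 hz0 hzq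
    have h2 := mason_quot P m Y T hT hz hy' hz0 h0' hzq'
    calc ∑ i ∈ T, (P.w i : ℤ) * |(P.pl i).ord y - (P.pl i).ord y'|
        ≤ ∑ i ∈ T, ((P.w i : ℤ) * |(P.pl i).ord y - (P.pl i).ord z| +
          (P.w i : ℤ) * |(P.pl i).ord z - (P.pl i).ord y'|) := by
          refine Finset.sum_le_sum fun i _ => ?_
          rw [← mul_add]
          exact mul_le_mul_of_nonneg_left (abs_sub_le _ _ _) (by positivity)
      _ ≤ _ := by
          rw [Finset.sum_add_distrib]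
          linarith
  · have h1 := mason_quot P m Y T hT hy hy' h0 h0' hq
    linarith

end Pool.Agent.Lib.MP_6adaea_nt
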