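import Pool.Agent.Lib.MP_6adaea_nt.LocA
import Pool.Agent.Lib.MP_6adaea_nt.Mason

/-!
The global inequality.
-/

set_option linter.unusedSectionVars false

namespace Pool.Agent.Lib.MP_6adaea_nt
open Module Polynomial

universe u v

variable {K : Type u} {L : Type v} [Field K] [Finite K] [Field L] [Algebra K L]

lemma key_sq (t : ℕ) (ht : 4 ≤ t) : t * t ≤ 2 ^ t := by
  induction t, ht using Nat.le_induction with
  | base => norm_num
  | succ t ht ih => rw [pow_succ]; nlinarith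

lemma key_growth (A r : ℕ) (hr : 1 ≤ r) : ∃ n0, ∀ n, n0 ≤ n → A * (n + 1) ≤ 2 ^ (n / (2 * r)) := by
  refine ⟨2 * r * (2 * r * A + 5), fun n hn => ?_⟩
  have h0 : 0 < 2 * r := by omega
  have h1 : 2 * r * A + 5 ≤ n / (2 * r) := (Nat.le_div_iff_mul_le h0).mpr (by rwa [mul_comm])
  have h2 : n + 1 ≤ 2 * r * (n / (2 * r) + 1) := Nat.lt_mul_div_succ n h0
  set t := n / (2 * r)
  refine le_trans ?_ (key_sq t (by omega))
  calc A * (n + 1) ≤ A * (2 * r * (t + 1)) := Nat.mul_le_mul_left _ h2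
    _ = (2 * r * A) * (t + 1) := by ring
    _ ≤ t * t := by nlinarith

lemma key_finrank (W U : Submodule K L) [FiniteDimensional K W] (hUW : U ≤ W) (f : L →ₗ[K] L)
    (hf : ∀ x, f x = 0 ↔ x ∈ U) : finrank K (W.map f) + finrank K U = finrank K W := by
  have h := (f.domRestrict W).finrank_range_add_finrank_ker
  rw [LinearMap.range_domRestrict, LinearMap.ker_domRestrict,
    show LinearMap.ker f = U from Submodule.ext hf,
    (Submodule.comapSubtypeEquivOfLe hUW).finrank_eq] at h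
  exact h

lemma key_ge_aeval (v : Place K L) (θ : L) (b : K[X]) :
    v.Ge (aeval θ b) (-(b.natDegree * ((-v.ord θ).toNat : ℤ))) := by
  rw [aeval_eq_sum_range]
  refine Place.Ge.sum fun i hi => Place.Ge.smul (((v.ge_ord θ).pow i).mono ?_) _
  have h1 : (i : ℤ) ≤ b.natDegree := by have := Finset.mem_range.mp hi; omega
  have h2 : -v.ord θ ≤ ((-v.ord θ).toNat : ℤ) := Int.self_le_toNat _
  have h3 : (0 : ℤ) ≤ ((-v.ord θ).toNat : ℤ) := Int.natCast_nonneg _
  have h4 : (0 : ℤ) ≤ i := Int.natCast_nonneg _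
  nlinarith

lemma key_root (v : Place K L) {θ : L} {c : K} (h0 : v.Ge (θ - algebraMap K L c) 1) {b : K[X]}
    (hb : v.Ge (aeval θ b) 1) : X - C c ∣ b := by
  have hθ : v.Ge θ 0 := by simpa using (h0.mono zero_le_one).add (v.ge_const c)
  obtain ⟨a, ha⟩ := X_sub_C_dvd_sub_C_eval (p := b) (a := c)
  have h1 := congrArg (aeval θ) ha
  rw [map_sub, map_mul, map_sub, aeval_X, aeval_C, aeval_C] at h1
  have h2 : v.Ge (aeval θ a) 0 := by
    refine (key_ge_aeval v θ a).mono ?_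
    rcases hθ with h | h
    · simp [h]
    · simp [Int.toNat_eq_zero.mpr (neg_nonpos.mpr h)]
  have h3 := hb.sub (h1 ▸ (h0.mul h2).mono (by norm_num))
  rw [sub_sub_cancel] at h3
  exact dvd_iff_isRoot.mpr (Place.const_eq_zero_of_ge h3)

variable {p : ℕ} [Fact p.Prime] [CharP L p] (P : PSys K L p)

lemma PSys.exists_zero {x : L} {i : P.ι} (h : (P.pl i).ord x < 0) : ∃ j, 0 < (P.pl j).ord x := by
  by_contra hc
  push Not at hc
  have hx : x ≠ 0 := fun e => by simp [e] at h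
  have h1 := P.prod x hx (P.fin x).toFinset fun j hj => (P.fin x).mem_toFinset.mpr hj
  have h2 := Finset.sum_lt_sum (s := (P.fin x).toFinset)
    (f := fun j => (P.w j : ℤ) * (P.pl j).ord x) (g := fun _ => 0)
    (fun j _ => mul_nonpos_of_nonneg_of_nonpos (Int.natCast_nonneg _) (hc j))
    ⟨i, (P.fin x).mem_toFinset.mpr h.ne,
      mul_neg_of_pos_of_neg (by exact_mod_cast P.w_pos i) h⟩
  simp [h1] at h2

/-- the weighted number of poles -/
noncomputable def PSys.hh (θ : L) : ℕ :=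
  ∑ i ∈ (P.fin θ).toFinset, P.w i * (-(P.pl i).ord θ).toNat

lemma PSys.exc (θ : L) {b : K[X]} (hb : aeval θ b ≠ 0) (S : Finset P.ι)
    (hS : ∀ i ∈ S, (P.pl i).ord θ < 0 ∨ 0 < (P.pl i).ord (aeval θ b)) :
    ∑ i ∈ S, (P.w i : ℤ) ≤ P.hh θ * (b.natDegree + 1) := by
  classical
  set S' := (P.fin θ).toFinset ∪ (P.fin (aeval θ b)).toFinset with hS'
  have hsub : S ⊆ S' := fun i hi => by
    rcases hS i hi with h | h
    · exact Finset.mem_union_left _ ((P.fin _).mem_toFinset.mpr h.ne)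
    · exact Finset.mem_union_right _ ((P.fin _).mem_toFinset.mpr h.ne')
  have h1 := P.prod _ hb S' fun j hj => Finset.mem_union_right _ ((P.fin _).mem_toFinset.mpr hj)
  have h2 : (P.hh θ : ℤ) = ∑ i ∈ S', (P.w i : ℤ) * ((-(P.pl i).ord θ).toNat : ℤ) := by
    rw [PSys.hh]
    push_cast
    refine Finset.sum_subset Finset.subset_union_left fun i _ hi => ?_
    have : (P.pl i).ord θ = 0 := by simpa using hi
    simp [this]
  have h3 : ∑ i ∈ S, (P.w i : ℤ) = ∑ i ∈ S', (P.w i : ℤ) * (if i ∈ S then 1 else 0) := by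
    simp only [mul_ite, mul_one, mul_zero, Finset.sum_ite_mem, Finset.inter_eq_right.mpr hsub]
  rw [h3, h2, Finset.sum_mul, ← add_zero (∑ i ∈ S', _ * _ * _), ← h1, ← Finset.sum_add_distrib]
  refine Finset.sum_le_sum fun i _ => ?_
  rw [mul_assoc, ← mul_add]
  refine mul_le_mul_of_nonneg_left ?_ (Int.natCast_nonneg _)
  have h4 := (key_ge_aeval (P.pl i) θ b).le hb
  have h5 : (0 : ℤ) ≤ ((-(P.pl i).ord θ).toNat : ℤ) := Int.natCast_nonneg _
  have h7 : (0 : ℤ) ≤ b.natDegree := Int.natCast_nonneg _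
  split_ifs with h
  · rcases hS i h with h6 | h6
    · have : (1 : ℤ) ≤ ((-(P.pl i).ord θ).toNat : ℤ) := by omega
      nlinarith
    · nlinarith
  · nlinarith

lemma PSys.card_le (i : P.ι) : ∃ B : ℕ, ∀ (Y : Submodule K L) [FiniteDimensional K Y],
    Flat (P.pl i) Y → (els Y).card ≤ B + 1 := by
  classical
  obtain ⟨B, hB⟩ := P.res i
  refine ⟨B, fun Y _ hY => ?_⟩
  by_cases h : ∃ y ∈ Y, y ≠ 0
  · obtain ⟨y, hy, h0⟩ := h
    have key : ∀ x ∈ Y, x ≠ 0 → (P.pl i).ord (x / y) = 0 := fun x hx hx0 => by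
      rw [(P.pl i).ord_div hx0 h0, hY x hx y hy hx0 h0, sub_self]
    rw [← Finset.card_image_of_injective _ (f := fun x => x / y) fun _ _ e => (div_left_inj' h0).mp e]
    refine (hB _ ?_ ?_).trans (Nat.le_succ B)
    · intro x' hx'
      obtain ⟨x, hx, rfl⟩ := Finset.mem_image.mp hx'
      by_cases hx0 : x = 0
      · simp [hx0]
      · exact Place.Ge.of_le (key x (mem_els.mp hx) hx0).ge
    · intro x' hx' z' hz' hxz
      obtain ⟨x, hx, rfl⟩ := Finset.mem_image.mp hx'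
      obtain ⟨z, hz, rfl⟩ := Finset.mem_image.mp hz'
      by_contra hne
      have h1 : x - z ≠ 0 := fun e => hne (by rw [sub_eq_zero.mp e])
      rw [← sub_div] at hxz
      have h2 := hxz.le (div_ne_zero h1 h0)
      rw [key _ (Y.sub_mem (mem_els.mp hx) (mem_els.mp hz)) h1] at h2
      omega
  · push Not at h
    have : els Y ⊆ {0} := fun x hx => Finset.mem_singleton.mpr (h x (mem_els.mp hx))
    have := Finset.card_le_card this
    simp only [Finset.card_singleton] at this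
    omega

lemma PSys.exists_nonflat (Y : Submodule K L) [FiniteDimensional K Y] :
    ∃ T : Finset P.ι, ∀ i, i ∈ T ↔ ¬ Flat (P.pl i) Y := by
  have : {i | ¬ Flat (P.pl i) Y}.Finite := by
    refine ((fin_sub Y).biUnion fun y _ => P.fin y).subset fun i hi => ?_
    by_contra h
    simp only [Set.mem_iUnion, Set.mem_ofPred_eq, not_exists, not_not, SetLike.mem_coe] at h
    exact hi fun y hy y' hy' _ _ => by rw [h y hy, h y' hy']
  exact ⟨this.toFinset, fun i => this.mem_toFinset⟩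

lemma PSys.sum_var (m : ℕ) (Y : Submodule K L) [FiniteDimensional K Y]
    (hY : ∃ a ∈ Y, ∃ b ∈ Y, a ≠ 0 ∧ b ≠ 0 ∧ ¬ ∃ y, a / b = y ^ p ^ m) (T : Finset P.ι)
    (hT : ∀ i, i ∉ T → Flat (P.pl i) Y) :
    ∑ i ∈ T, (P.w i : ℤ) * var (P.pl i) Y ≤
      Nat.card K ^ (2 * finrank K Y) * (4 * p ^ m * (∑ i ∈ T, (P.w i : ℤ) + P.kap)) := by
  classical
  set c : ℤ := 4 * p ^ m * (∑ i ∈ T, (P.w i : ℤ) + P.kap) with hc
  have hc0 : 0 ≤ c := by positivity
  have hcard : (((els Y).erase 0).card : ℤ) ≤ Nat.card K ^ finrank K Y := by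
    have := Finset.card_erase_le (s := els Y) (a := 0)
    rw [card_els] at this
    exact_mod_cast this
  simp only [var, Finset.mul_sum]
  rw [Finset.sum_comm]
  refine (Finset.sum_le_card_nsmul _ _ (Nat.card K ^ finrank K Y * c) fun y hy => ?_).trans ?_
  · rw [Finset.sum_comm]
    refine (Finset.sum_le_card_nsmul _ _ c fun y' hy' => ?_).trans ?_
    · have h1 := Finset.mem_erase.mp (show y ∈ (els Y).erase 0 by convert hy)
      have h2 := Finset.mem_erase.mp (show y' ∈ (els Y).erase 0 by convert hy')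
      exact P.pair m Y hY T hT (mem_els.mp h1.2) (mem_els.mp h2.2) h1.1 h2.1
    · rw [nsmul_eq_mul]
      exact mul_le_mul_of_nonneg_right (by convert hcard) hc0
  · rw [nsmul_eq_mul, two_mul, pow_add, mul_assoc]
    exact mul_le_mul_of_nonneg_right (by convert hcard) (by positivity)

include P in
theorem key (θ : L) (hθ : Transcendental K θ) (r : ℕ) : ∃ n0 c : ℕ, ∀ (g : ℕ → L)
    (φ : L →ₗ[K] L), (∀ x, φ x = (drP K θ r g).eval x) → (∃ i ∈ Finset.Icc 1 r, g i ≠ 0) →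
    ∀ (π : K[X]) (k : ℕ), Irreducible π → ∀ (W U : Submodule K L) [FiniteDimensional K W]
    [FiniteDimensional K U], (∀ x ∈ W, φ x ∈ W) → (∀ x ∈ U, φ x ∈ U) → U ≤ W →
    (∀ x ∈ W, aeval φ (π ^ k) x = 0) → ∀ n : ℕ, finrank K W = finrank K U + n → n0 ≤ n →
    π.natDegree ≤ n → (∀ V ≤ W, (∀ x ∈ V, φ x ∈ V) → V ≤ U ∨ V = W ∨
      (U ≤ V ∧ c * (n + 1) * Nat.card K ^ (2 * n) ≤ Nat.card K ^ finrank K U)) → False := by
  classical
  rcases Nat.eq_zero_or_pos r with rfl | hr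
  · exact ⟨0, 0, fun g φ _ hg => by simp at hg⟩
  obtain ⟨i0, hi0⟩ := P.pole θ hθ
  have hθ0 : θ ≠ 0 := fun e => by simp [e] at hi0
  obtain ⟨m, hm⟩ : ∃ m : ℕ, ¬ ∃ y, θ = y ^ p ^ m := by
    refine ⟨(-(P.pl i0).ord θ).toNat, fun ⟨y, hy⟩ => ?_⟩
    have h1 := congrArg (P.pl i0).ord hy
    rw [Place.ord_pow] at h1
    have h2 := Nat.lt_pow_self (n := (-(P.pl i0).ord θ).toNat) (Fact.out : p.Prime).one_lt
    generalize p ^ (-(P.pl i0).ord θ).toNat = a at h1 h2
    have h3 : (P.pl i0).ord y ≤ -1 := by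
      by_contra h
      have := mul_nonneg (Int.natCast_nonneg a) (show 0 ≤ (P.pl i0).ord y by omega)
      omega
    have h4 : -(P.pl i0).ord θ < a := by omega
    nlinarith
  obtain ⟨v0, hv0⟩ := P.exists_zero hi0
  obtain ⟨h10, h11⟩ := Place.ord_add_of_ge (v := P.pl i0) hθ0
    (((P.pl i0).ge_const (-1)).neg.mono (show (P.pl i0).ord θ + 1 ≤ 0 by omega))
  rw [← sub_eq_add_neg] at h10 h11
  obtain ⟨v1, hv1⟩ := P.exists_zero (h11 ▸ hi0)
  obtain ⟨B0, hB0⟩ := P.card_le v0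
  obtain ⟨B1, hB1⟩ := P.card_le v1
  set c := 4 * p ^ m * (1 + P.kap + P.hh θ) + 1 with hc
  obtain ⟨n1, hn1⟩ := key_growth (32 * Nat.card K ^ (4 * r) * c) r hr
  refine ⟨n1 + 4 * r + B0 + B1 + 2, c, ?_⟩
  intro g φ hφ hg π k hπ W U _ _ hW hU hUW hkill n hn hn0 hd huni
  have : Infinite L := Infinite.of_injective _ (transcendental_iff_injective.mp hθ)
  obtain ⟨f, hf⟩ := exists_fmap U
  obtain ⟨Ψ, hΨ1, hΨ2, hΨ3⟩ := exists_iso _ φ hφ U hU f hf
  have hrk : finrank K (W.map f) = n := by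
    have := key_finrank W U hUW f fun x => fmap_eq_zero hf
    omega
  have hq := two_le_card (K := K)
  have hY := exists_not_pow p m Ψ (by rwa [hΨ2, drP_coeff_one]) (W.map f) (by
    rintro _ ⟨w, hw, rfl⟩
    exact ⟨φ w, hW w hw, hΨ3 w⟩) (by
    rw [card_els, hrk]
    exact (hΨ1.trans (drP_natDegree θ r g)).trans_lt (Nat.pow_lt_pow_right hq (by omega)))
  obtain ⟨T, hT⟩ := P.exists_nonflat (W.map f)
  have hπ0 : aeval θ π ≠ 0 := fun e => hπ.ne_zero (transcendental_iff.mp hθ π e)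
  have hgood : ∀ i, 0 ≤ (P.pl i).ord θ → (P.pl i).ord (aeval θ π) ≤ 0 → i ∉ T := by
    intro i1 a1 a2 a3
    set X := T.filter fun i => (P.pl i).ord θ < 0 ∨ 0 < (P.pl i).ord (aeval θ π) with hX
    set Bad := T.filter fun i => ¬ ((P.pl i).ord θ < 0 ∨ 0 < (P.pl i).ord (aeval θ π)) with hBad
    have e1 : ∑ i ∈ X, (P.w i : ℤ) + ∑ i ∈ Bad, (P.w i : ℤ) = ∑ i ∈ T, (P.w i : ℤ) :=
      Finset.sum_filter_add_sum_filter_not _ _ _
    have e2 := P.exc θ hπ0 X fun i hi => (Finset.mem_filter.mp hi).2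
    have e3 := P.sum_var m (W.map f) hY T fun i hi => not_not.mp fun h => hi ((hT i).mpr h)
    have e4 : (∑ i ∈ Bad, (P.w i : ℤ)) * (((c * (n + 1) : ℕ) : ℤ) * Nat.card K ^ (2 * n)) ≤
        ∑ i ∈ T, (P.w i : ℤ) * var (P.pl i) (W.map f) := by
      rw [Finset.sum_mul]
      refine le_trans (Finset.sum_le_sum fun i hi => ?_) (Finset.sum_le_sum_of_subset_of_nonneg
        (Finset.filter_subset _ T) fun i _ _ => mul_nonneg (Int.natCast_nonneg _)
        (Finset.sum_nonneg fun _ _ => Finset.sum_nonneg fun _ _ => abs_nonneg _))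
      obtain ⟨b1, b2⟩ := Finset.mem_filter.mp hi
      push Not at b2
      have b3 := (key_ge_aeval (P.pl i) θ π).le hπ0
      rw [Int.toNat_eq_zero.mpr (neg_nonpos.mpr b2.1)] at b3
      refine mul_le_mul_of_nonneg_left (local_var (P.pl i) hφ hg (Place.Ge.of_le b2.1)
        (b := π ^ k) (by rw [map_pow]; exact pow_ne_zero _ hπ0) ?_ W U hW hU hUW hkill f hf n hrk
        (by omega) _ (by rw [← mul_assoc]; exact hn1 n (by omega)) huni ((hT i).mp b1))
        (Int.natCast_nonneg _)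
      rw [map_pow, Place.ord_pow, le_antisymm b2.2 (by simpa using b3), mul_zero]
    have e5 : (1 : ℤ) ≤ ∑ i ∈ Bad, (P.w i : ℤ) :=
      le_trans (by exact_mod_cast P.w_pos i1) (Finset.single_le_sum (f := fun i => (P.w i : ℤ))
        (fun _ _ => Int.natCast_nonneg _) (Finset.mem_filter.mpr ⟨a3, by omega⟩))
    have e6 := e4.trans e3
    rw [hrk, ← e1, ← mul_assoc, mul_comm] at e6
    have e7 := le_of_mul_le_mul_left e6 (by positivity)
    have e8 : (π.natDegree : ℤ) ≤ n := by exact_mod_cast hd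
    rw [hc] at e7
    push_cast at e7
    generalize ∑ i ∈ Bad, (P.w i : ℤ) = a at e5 e7
    generalize ∑ i ∈ X, (P.w i : ℤ) = x at e2 e7
    have e9 : (0 : ℤ) ≤ 4 * p ^ m := by positivity
    generalize (4 * p ^ m : ℤ) = A at e7 e9
    have k0 : (0 : ℤ) ≤ P.kap := Int.natCast_nonneg _
    have h0 : (0 : ℤ) ≤ P.hh θ := Int.natCast_nonneg _
    have n0 : (0 : ℤ) ≤ n := Int.natCast_nonneg _
    generalize (P.kap : ℤ) = κ at e7 k0
    generalize (P.hh θ : ℤ) = H at e7 e2 h0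
    have f1 : x ≤ a * (H * (n + 1)) := by
      have : H * (π.natDegree + 1) ≤ H * (n + 1) := mul_le_mul_of_nonneg_left (by omega) h0
      have : H * (n + 1) ≤ a * (H * (n + 1)) := le_mul_of_one_le_left (by positivity) e5
      omega
    have f2 : a + κ ≤ a * ((1 + κ) * (n + 1)) := by
      have : 1 + κ ≤ (1 + κ) * (n + 1) := le_mul_of_one_le_right (by omega) (by omega)
      nlinarith
    have f3 : A * (x + a + κ) ≤ A * (a * ((1 + κ + H) * (n + 1))) :=
      mul_le_mul_of_nonneg_left (by nlinarith) e9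
    nlinarith
  have hbig : ∀ B : ℕ, B + 2 ≤ n → ¬ (els (W.map f)).card ≤ B + 1 := fun B hB h => by
    rw [card_els, hrk] at h
    have := Nat.lt_pow_self (n := n) hq
    omega
  by_cases c0 : (P.pl v0).ord (aeval θ π) ≤ 0
  · exact hbig B0 (by omega) (hB0 _ (not_not.mp fun h => hgood v0 hv0.le c0 ((hT _).mpr h)))
  by_cases c1 : (P.pl v1).ord (aeval θ π) ≤ 0
  · have : (P.pl v1).Ge θ 0 := by
      simpa using (Place.Ge.of_le hv1.le).add ((P.pl v1).ge_const (-1))
    exact hbig B1 (by omega) (hB1 _ (not_not.mp fun h => hgood v1 (this.le hθ0) c1 ((hT _).mpr h)))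
  have d0 : X - C 0 ∣ π := key_root (P.pl v0) (θ := θ) (Place.Ge.of_le (by rw [map_zero, sub_zero]; exact hv0))
    (Place.Ge.of_le (by omega))
  have d1 : X - C (-1) ∣ π := key_root (P.pl v1) (Place.Ge.of_le hv1) (Place.Ge.of_le (by omega))
  have d2 := d0.trans ((irreducible_X_sub_C (-1 : K)).associated_of_dvd hπ d1).symm.dvd
  simpa using dvd_iff_isRoot.mp d2

end Pool.Agent.Lib.MP_6adaea_nt
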