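import Pool.Agent.Lib.MP_6adaea_nt.LocB

/-!
Local analysis at a place where `θ` is integral and the annihilator is a unit.
-/

set_option linter.unusedSectionVars false

namespace Pool.Agent.Lib.MP_6adaea_nt
open Module Polynomial

universe u v

variable {K : Type u} {L : Type v} [Field K] [Finite K] [Field L] [Algebra K L]
  {θ : L} {r : ℕ} {g : ℕ → L} {φ : L →ₗ[K] L}

lemma loca_pow_pos {i : ℕ} (hi : i ∈ Finset.Icc 1 r) : (1 : ℤ) ≤ (Nat.card K : ℤ) ^ i - 1 := by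
  have h1 := Nat.one_lt_pow (n := i) (a := Nat.card K)
    (by have := (Finset.mem_Icc.mp hi).1; omega) (two_le_card (K := K))
  have h2 : (1 : ℤ) < (Nat.card K : ℤ) ^ i := by exact_mod_cast h1
  omega

theorem exists_nrm (v : Place K L) (hg : ∃ i ∈ Finset.Icc 1 r, g i ≠ 0) :
    ∃ j ∈ Finset.Icc 1 r, g j ≠ 0 ∧ ∀ i ∈ Finset.Icc 1 r, g i ≠ 0 →
      ((Nat.card K : ℤ) ^ i - 1) * v.ord (g j) ≤ ((Nat.card K : ℤ) ^ j - 1) * v.ord (g i) := by
  classical
  obtain ⟨i0, hi0, hg0⟩ := hg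
  obtain ⟨j, hj, h⟩ := Finset.exists_min_image ((Finset.Icc 1 r).filter fun i => g i ≠ 0)
    (fun i => (v.ord (g i) : ℚ) / ((Nat.card K : ℚ) ^ i - 1)) ⟨i0, Finset.mem_filter.mpr ⟨hi0, hg0⟩⟩
  obtain ⟨hj1, hj2⟩ := Finset.mem_filter.mp hj
  refine ⟨j, hj1, hj2, fun i hi hgi => ?_⟩
  have h1 := h i (Finset.mem_filter.mpr ⟨hi, hgi⟩)
  have p1 : (0 : ℚ) < (Nat.card K : ℚ) ^ i - 1 := by
    have := loca_pow_pos (K := K) hi
    have h2 : (0 : ℤ) < (Nat.card K : ℤ) ^ i - 1 := by omega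
    exact_mod_cast h2
  have p2 : (0 : ℚ) < (Nat.card K : ℚ) ^ j - 1 := by
    have := loca_pow_pos (K := K) hj1
    have h2 : (0 : ℤ) < (Nat.card K : ℤ) ^ j - 1 := by omega
    exact_mod_cast h2
  rw [div_le_div_iff₀ p2 p1, mul_comm, mul_comm (v.ord (g i) : ℚ)] at h1
  exact_mod_cast h1

section
variable (v : Place K L) (hφ : ∀ x, φ x = (drP K θ r g).eval x) {N : ℕ} {γ : ℤ} (hN : 1 ≤ N)
  (hn : ∀ i ∈ Finset.Icc 1 r, g i ≠ 0 → ((Nat.card K : ℤ) ^ i - 1) * γ ≤ N * v.ord (g i))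
include hφ hN hn

lemma loca_hi {y : L} {m e : ℤ} (he0 : 0 ≤ e) (he1 : e ≤ 1) (hy : v.Ge y m) (hm : -γ + e ≤ N * m) :
    v.Ge (φ y - θ * y) (m + e) := by
  rw [hφ, drP_eval, add_sub_cancel_left]
  refine Place.Ge.sum fun i hi => ?_
  by_cases hgi : g i = 0
  · simp [hgi]
  refine ((v.ge_ord (g i)).mul (hy.pow _)).mono ?_
  have h1 := hn i hi hgi
  have h2 := loca_pow_pos (K := K) hi
  push_cast
  set a : ℤ := (Nat.card K : ℤ) ^ i - 1 with ha
  have h3 : (Nat.card K : ℤ) ^ i = a + 1 := by omega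
  rw [h3]
  have hN' : (1 : ℤ) ≤ N := by exact_mod_cast hN
  have h4 : e ≤ N * (v.ord (g i) + a * m) := by nlinarith
  have h5 : e ≤ v.ord (g i) + a * m := by
    by_contra h
    have h6 : v.ord (g i) + a * m ≤ e - 1 := by omega
    rcases (by omega : e = 0 ∨ e = 1) with rfl | rfl <;> nlinarith
  linarith

lemma loca_stab (hθ : v.Ge θ 0) {y : L} {m : ℤ} (hy : v.Ge y m) (hm : -γ ≤ N * m) :
    v.Ge (φ y) m := by
  have h1 := loca_hi v hφ hN hn le_rfl zero_le_one hy (by simpa using hm)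
  have h2 := hθ.mul hy
  rw [add_zero] at h1
  rw [zero_add] at h2
  simpa using h1.add h2

lemma loca_aeval (hθ : v.Ge θ 0) {y : L} {m : ℤ} (hy : v.Ge y m) (hm : -γ + 1 ≤ N * m)
    (b : K[X]) : v.Ge (aeval φ b y - aeval θ b * y) (m + 1) := by
  have key : ∀ n : ℕ, v.Ge ((φ ^ n) y) m ∧ v.Ge ((φ ^ n) y - θ ^ n * y) (m + 1) := by
    intro n
    induction n with
    | zero => simpa using hy
    | succ n ih =>
      rw [pow_succ', Module.End.mul_apply]
      refine ⟨loca_stab v hφ hN hn hθ ih.1 (by omega), ?_⟩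
      have h1 := loca_hi v hφ hN hn zero_le_one le_rfl ih.1 hm
      have h2 := hθ.mul ih.2
      rw [zero_add] at h2
      convert h1.add h2 using 1
      ring
  induction b using Polynomial.induction_on' with
  | add a b ha hb =>
    convert ha.add hb using 1
    simp only [map_add, LinearMap.add_apply]
    ring
  | monomial n a =>
    convert (key n).2.smul a using 1
    rw [aeval_monomial, aeval_monomial, Module.End.mul_apply, Module.algebraMap_end_apply,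
      smul_sub, Algebra.smul_def a (θ ^ n * y), mul_assoc]

lemma loca_le (hθ : v.Ge θ 0) {b : K[X]} (hb0 : aeval θ b ≠ 0) (hb : v.ord (aeval θ b) = 0)
    {x : L} (hx : x ≠ 0) (h : aeval φ b x = 0) : N * v.ord x ≤ -γ := by
  by_contra hc
  have h1 := loca_aeval v hφ hN hn hθ (v.ge_ord x) (by omega) b
  rw [h, zero_sub] at h1
  have h2 := h1.le (neg_ne_zero.mpr (mul_ne_zero hb0 hx))
  rw [Place.ord_neg, v.ord_mul hb0 hx, hb] at h2
  omega

end

lemma loca_ord (v : Place K L) {W U : Submodule K L} [FiniteDimensional K U] (hUW : U ≤ W)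
    {f : L →ₗ[K] L} (hf : ∀ x, f x = ∏ u ∈ els U, (x - u)) {N : ℕ} (hN : 1 ≤ N) {c : ℤ}
    (hU : U ≤ disc v N c) (hW : ∀ x ∈ W, x ≠ 0 → N * v.ord x ≤ c) {w : L} (hw : w ∈ W)
    (hw' : w ∉ U) : v.ord (f w) = (els U).card * v.ord w := by
  have hne : ∀ u ∈ els U, w - u ≠ 0 := fun u hu h => hw' (sub_eq_zero.mp h ▸ mem_els.mp hu)
  rw [hf, v.ord_prod _ _ hne, Finset.sum_congr rfl (g := fun _ => v.ord w), Finset.sum_const,
    nsmul_eq_mul]
  intro u hu
  by_cases h0 : u = 0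
  · rw [h0, sub_zero]
  have hu' := mem_els.mp hu
  have hw0 : w ≠ 0 := fun h => hw' (h ▸ U.zero_mem)
  have hN' : (0 : ℤ) < N := by exact_mod_cast hN
  have h1 := (hU hu').resolve_left h0
  have h2 : v.ord w ≤ v.ord u := le_of_mul_le_mul_left ((hW w hw hw0).trans h1) hN'
  have h3 : v.ord (w - u) ≤ v.ord u :=
    le_of_mul_le_mul_left ((hW _ (W.sub_mem hw (hUW hu')) (hne u hu)).trans h1) hN'
  have h4 := ((v.ge_ord w).sub (Place.Ge.of_le h2)).le (hne u hu)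
  have h5 := ((v.ge_ord (w - u)).add (Place.Ge.of_le h3)).le (by simpa using hw0)
  rw [sub_add_cancel] at h5
  omega

lemma le_var (v : Place K L) (Y : Submodule K L) [FiniteDimensional K Y] {y y' : L} (hy : y ∈ Y)
    (hy' : y' ∈ Y) (h0 : y ≠ 0) (h0' : y' ≠ 0) : |v.ord y - v.ord y'| ≤ var v Y := by
  classical
  have h1 : y ∈ (els Y).erase 0 := Finset.mem_erase.mpr ⟨h0, mem_els.mpr hy⟩
  have h2 : y' ∈ (els Y).erase 0 := Finset.mem_erase.mpr ⟨h0', mem_els.mpr hy'⟩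
  unfold var
  refine le_trans ?_ (Finset.single_le_sum (f := fun y => ∑ y' ∈ (els Y).erase 0,
    |v.ord y - v.ord y'|) (fun _ _ => Finset.sum_nonneg fun _ _ => abs_nonneg _) (by convert h1))
  exact Finset.single_le_sum (f := fun y' => |v.ord y - v.ord y'|) (fun _ _ => abs_nonneg _)
    (by convert h2)

/-- a place where the image of `W` is not flat has large variation -/
theorem local_var (v : Place K L) (hφ : ∀ x, φ x = (drP K θ r g).eval x)
    (hg : ∃ i ∈ Finset.Icc 1 r, g i ≠ 0) (hθ : v.Ge θ 0) {b : K[X]} (hb0 : aeval θ b ≠ 0)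
    (hb : v.ord (aeval θ b) = 0) (W U : Submodule K L) [FiniteDimensional K W]
    [FiniteDimensional K U] (hW : ∀ x ∈ W, φ x ∈ W) (hU : ∀ x ∈ U, φ x ∈ U) (hUW : U ≤ W)
    (hkill : ∀ x ∈ W, aeval φ b x = 0) (f : L →ₗ[K] L) (hf : ∀ x, f x = ∏ u ∈ els U, (x - u))
    (n : ℕ) (hn : finrank K (W.map f) = n) (h4 : 4 * r < n) (M : ℕ)
    (hM : 32 * Nat.card K ^ (4 * r) * M ≤ 2 ^ (n / (2 * r)))
    (huni : ∀ V ≤ W, (∀ x ∈ V, φ x ∈ V) →
      V ≤ U ∨ V = W ∨ (U ≤ V ∧ M * Nat.card K ^ (2 * n) ≤ Nat.card K ^ finrank K U))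
    (hnf : ¬ Flat v (W.map f)) : (M : ℤ) * Nat.card K ^ (2 * n) ≤ var v (W.map f) := by
  obtain ⟨j, hj, hgj, hnrm⟩ := exists_nrm v hg
  have hj1 := loca_pow_pos (K := K) hj
  obtain ⟨N, hN⟩ : ∃ N : ℕ, Nat.card K ^ j = N + 1 :=
    ⟨Nat.card K ^ j - 1, by have := Nat.one_le_pow j (Nat.card K) Nat.card_pos; omega⟩
  have hN' : (Nat.card K : ℤ) ^ j - 1 = N := by
    have : ((Nat.card K ^ j : ℕ) : ℤ) = (N + 1 : ℕ) := by rw [hN]
    push_cast at this
    omega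
  have hN1 : 1 ≤ N := by omega
  rw [hN'] at hnrm
  have hco : (drP K θ r g).coeff (N + 1) = g j := by rw [← hN, drP_coeff θ r g hj]
  have hle : ∀ x ∈ W, x ≠ 0 → N * v.ord x ≤ -v.ord (g j) := fun x hx h0 =>
    loca_le v hφ hN1 hnrm hθ hb0 hb h0 (hkill x hx)
  have hN0 : (0 : ℤ) < N := by exact_mod_cast hN1
  have hst : ∀ x ∈ W ⊓ disc v N (-v.ord (g j)), φ x ∈ W ⊓ disc v N (-v.ord (g j)) := by
    rintro x ⟨h1, h2⟩
    refine ⟨hW x h1, ?_⟩
    rcases h2 with h2 | h2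
    · exact Or.inl (by simp [h2])
    · exact (loca_stab v hφ hN1 hnrm hθ (v.ge_ord x) h2).imp id fun h =>
        h2.trans (mul_le_mul_of_nonneg_left h hN0.le)
  have hord : U ≤ disc v N (-v.ord (g j)) → ∀ y ∈ W.map f, y ≠ 0 →
      ∃ w ∈ W, w ≠ 0 ∧ v.ord y = (els U).card * v.ord w := by
    rintro h _ ⟨w, hw, rfl⟩ h0
    have hw' : w ∉ U := fun h => h0 ((fmap_eq_zero hf).mpr h)
    exact ⟨w, hw, fun h => hw' (h ▸ U.zero_mem), loca_ord v hUW hf hN1 h hle hw hw'⟩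
  rcases huni _ inf_le_left hst with h | h | ⟨h, h'⟩
  · exact var_large v _ φ hφ r (drP_natDegree θ r g) W U hW hU hUW f hf N hN1 (hco ▸ hgj)
      (hco ▸ h) n hn h4 M hM
  · have hWd : W ≤ disc v N (-v.ord (g j)) := h ▸ inf_le_right
    refine absurd (fun y hy y' hy' h0 h0' => ?_) hnf
    obtain ⟨w, hw, hw0, e⟩ := hord (hUW.trans hWd) y hy h0
    obtain ⟨w', hw', hw0', e'⟩ := hord (hUW.trans hWd) y' hy' h0'
    have h1 := le_antisymm (hle w hw hw0) ((hWd hw).resolve_left hw0)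
    have h2 := le_antisymm (hle w' hw' hw0') ((hWd hw').resolve_left hw0')
    rw [e, e', mul_left_cancel₀ hN0.ne' (h1.trans h2.symm)]
  · simp only [Flat, not_forall] at hnf
    obtain ⟨y, hy, y', hy', h0, h0', hne⟩ := hnf
    obtain ⟨w, hw, hw0, e⟩ := hord (h.trans inf_le_right) y hy h0
    obtain ⟨w', hw', hw0', e'⟩ := hord (h.trans inf_le_right) y' hy' h0'
    refine le_trans ?_ (le_var v _ hy hy' h0 h0')
    have h1 : (M : ℤ) * Nat.card K ^ (2 * n) ≤ (els U).card := by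
      rw [card_els]
      exact_mod_cast h'
    have h2 : v.ord w - v.ord w' ≠ 0 := fun h => hne (by rw [e, e', sub_eq_zero.mp h])
    rw [e, e', ← mul_sub, abs_mul, Nat.abs_cast]
    exact h1.trans (le_mul_of_one_le_right (Int.natCast_nonneg _) (Int.one_le_abs h2))

end Pool.Agent.Lib.MP_6adaea_nt
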