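import Pool.Agent.Lib.MP_6adaea_nt.Interp
import Pool.Agent.Lib.MP_6adaea_nt.Iso

/-!
Large variation of the order when no point outside the kernel is integral.
-/

set_option linter.unusedSectionVars false

namespace Pool.Agent.Lib.MP_6adaea_nt
open Module Polynomial

universe u v

variable {K : Type u} {L : Type v} [Field K] [Finite K] [Field L] [Algebra K L]

/-- `ord (f x) = ∑ u ∈ U, ord (x - u)`. Replace `w` by an element `w₀` of `w + U` of maximal
order (`f w₀ = f w`). For `u ≠ 0`: `ord (w₀ - u) ≤ min (ord w₀) (ord u) ≤ ord (w' - u)`. -/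
theorem ord_fmap_mono (v : Place K L) {U : Submodule K L} [FiniteDimensional K U] {f : L →ₗ[K] L}
    (hf : ∀ x, f x = ∏ u ∈ els U, (x - u)) {w w' : L} (hw : w ∉ U) (hw' : w' ∉ U) {c : ℤ}
    (hc : 0 ≤ c) (h : ∀ u ∈ U, v.ord (w + u) + c ≤ v.ord w') :
    v.ord (f w) + c ≤ v.ord (f w') := by
  classical
  obtain ⟨u₀, hu₀, hmax⟩ := Finset.exists_max_image (els U) (fun u => v.ord (w + u))
    ⟨0, mem_els.mpr U.zero_mem⟩
  have hu := mem_els.mp hu₀
  have ne : ∀ {x : L}, x ∉ U → ∀ u ∈ els U, x - u ≠ 0 := fun hx u hu e =>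
    hx (sub_eq_zero.mp e ▸ mem_els.mp hu)
  have hw₀ : w + u₀ ∉ U := fun e => hw (by simpa using U.sub_mem e hu)
  have e0 : f w = f (w + u₀) := by rw [map_add, (fmap_eq_zero hf).mpr hu, add_zero]
  have z : (0 : L) ∈ els U := mem_els.mpr U.zero_mem
  rw [e0, hf, hf, v.ord_prod _ _ (ne hw₀), v.ord_prod _ _ (ne hw'), ← Finset.add_sum_erase _ _ z,
    ← Finset.add_sum_erase _ _ z, sub_zero, sub_zero]
  have h1 := h u₀ hu
  have h2 : ∑ u ∈ (els U).erase 0, v.ord (w + u₀ - u) ≤ ∑ u ∈ (els U).erase 0, v.ord (w' - u) := by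
    refine Finset.sum_le_sum fun u hu' => ?_
    obtain ⟨u0, u1⟩ := Finset.mem_erase.mp hu'
    have a1 : v.ord (w + u₀ - u) ≤ v.ord (w + u₀) := by
      have := hmax (u₀ - u) (mem_els.mpr (U.sub_mem hu (mem_els.mp u1)))
      rwa [← add_sub_assoc] at this
    have a2 : v.ord (w + u₀ - u) ≤ v.ord u := by
      have := ((Place.Ge.of_le a1).sub (v.ge_ord (w + u₀ - u))).le (by simpa using u0)
      rwa [sub_sub_cancel] at this
    exact ((Place.Ge.of_le (f := w') (by omega)).sub (Place.Ge.of_le a2)).le (ne hw' u u1)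
  omega

theorem LocB_top (v : Place K L) (W : Submodule K L) [FiniteDimensional K W] (N : ℕ) (hN : 1 ≤ N)
    (γ : ℤ) : ∃ j : ℕ, W ≤ disc v N (-γ - ((N : ℤ) + 1) ^ j + 1) := by
  obtain ⟨x₀, -, hmin⟩ := Finset.exists_min_image (els W) (fun x => (N : ℤ) * v.ord x)
    ⟨0, mem_els.mpr W.zero_mem⟩
  obtain ⟨j, hj⟩ := pow_unbounded_of_one_lt (-γ - N * v.ord x₀ + 1)
    (show (1 : ℤ) < (N : ℤ) + 1 by omega)
  refine ⟨j, fun x hx => mem_disc.mpr (Or.inr ?_)⟩
  have := hmin x (mem_els.mpr hx)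
  omega

theorem LocB_var (v : Place K L) (Y : Submodule K L) (A B : Finset L) (c : ℕ)
    (hA : ∀ y ∈ A, y ∈ els Y ∧ y ≠ 0) (hB : ∀ y ∈ B, y ∈ els Y ∧ y ≠ 0)
    (h : ∀ y ∈ A, ∀ y' ∈ B, v.ord y + c ≤ v.ord y') :
    ((A.card * (B.card * c) : ℕ) : ℤ) ≤ var v Y := by
  classical
  have e : var v Y = ∑ y ∈ (els Y).erase 0, ∑ y' ∈ (els Y).erase 0, |v.ord y - v.ord y'| := by
    unfold var
    congr!
  rw [e]
  calc ((A.card * (B.card * c) : ℕ) : ℤ) = ∑ _y ∈ A, ∑ _y' ∈ B, (c : ℤ) := by simp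
    _ ≤ ∑ y ∈ A, ∑ y' ∈ (els Y).erase 0, |v.ord y - v.ord y'| := by
      refine Finset.sum_le_sum fun y hy => ?_
      refine le_trans (Finset.sum_le_sum fun y' hy' => ?_)
        (Finset.sum_le_sum_of_subset_of_nonneg
          (fun y' hy' => Finset.mem_erase.mpr (hB y' hy').symm) fun _ _ _ => abs_nonneg _)
      have := h y hy y' hy'
      exact le_abs.mpr (Or.inr (by omega))
    _ ≤ _ := Finset.sum_le_sum_of_subset_of_nonneg
      (fun y hy => Finset.mem_erase.mpr (hA y hy).symm)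
      fun _ _ _ => Finset.sum_nonneg fun _ _ => abs_nonneg _

/-- Let `γ = ord (Φ.coeff a)`, `N = a - 1`, `V j = W ⊓ disc v N (-γ - a ^ j + 1)`,
`d j = finrank (map f (V j))`. `d 0 = 0` by `h0`; `d (j + 1) ≤ d j + 2 r` by `disc_step` with
`s = -γ - a ^ j` (`N γ + a s = -γ - a ^ (j + 1)`); `V j = W` for large `j`. Let `j` be maximal with
`d j < n`. Then `n ≤ 2 r (j + 1)`, `j ≥ 2`, `Y₁ = map f (V j)` is a proper subspace of
`Y = map f W` (at most half of the elements), `Y₀ = map f (V (j - 1))` has dimension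
`≥ n - 4 r ≥ 1`. For `y ∈ Y \ Y₁` and `y' ∈ Y₀ \ 0`, `ord_fmap_mono` gives
`ord y' - ord y ≥ a ^ (j - 2) ≥ 2 ^ (j - 2)` because `N * a ^ (j - 2) ≤ a ^ j - a ^ (j - 1)`.
There are at least `(q ^ n / 2) * (q ^ (n - 4 r) / 2)` such pairs. -/
theorem var_large (v : Place K L) (Φ : L[X]) (φ : L →ₗ[K] L) (hφ : ∀ x, φ x = Φ.eval x) (r : ℕ)
    (hr : Φ.natDegree ≤ Nat.card K ^ r) (W U : Submodule K L) [FiniteDimensional K W]
    [FiniteDimensional K U] (hW : ∀ x ∈ W, φ x ∈ W) (hU : ∀ x ∈ U, φ x ∈ U) (hUW : U ≤ W)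
    (f : L →ₗ[K] L) (hf : ∀ x, f x = ∏ u ∈ els U, (x - u)) (N : ℕ) (hN : 1 ≤ N)
    (hk : Φ.coeff (N + 1) ≠ 0) (h0 : W ⊓ disc v N (-v.ord (Φ.coeff (N + 1))) ≤ U)
    (n : ℕ) (hn : finrank K (W.map f) = n) (h4 : 4 * r < n) (M : ℕ)
    (hM : 32 * Nat.card K ^ (4 * r) * M ≤ 2 ^ (n / (2 * r))) :
    (M : ℤ) * Nat.card K ^ (2 * n) ≤ var v (W.map f) := by
  classical
  have hq := two_le_card (K := K)
  obtain ⟨γ, hγ⟩ : ∃ γ, γ = v.ord (Φ.coeff (N + 1)) := ⟨_, rfl⟩
  let V : ℕ → Submodule K L := fun j => W ⊓ disc v N (-γ - ((N : ℤ) + 1) ^ j + 1)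
  let d : ℕ → ℕ := fun j => finrank K ((V j).map f)
  have d0 : d 0 = 0 := by
    have : (V 0).map f = ⊥ := by
      rw [eq_bot_iff, Submodule.map_le_iff_le_comap]
      intro x hx
      refine (fmap_eq_zero hf).mpr (h0 ⟨hx.1, ?_⟩)
      have := hx.2
      rwa [pow_zero, sub_add_cancel, hγ] at this
    show finrank K ((V 0).map f) = 0
    rw [this, finrank_bot]
  have ds : ∀ j, d (j + 1) ≤ d j + 2 * r := fun j => by
    have := disc_step v Φ φ hφ r hr W hW f
      (fun x hx => (fmap_eq_zero hf).mpr (hU x ((fmap_eq_zero hf).mp hx))) N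
      (-γ - ((N : ℤ) + 1) ^ j) (N + 1) hk
    rwa [← hγ, show (N : ℤ) * γ + ((N + 1 : ℕ) : ℤ) * (-γ - ((N : ℤ) + 1) ^ j) + 1 =
      -γ - ((N : ℤ) + 1) ^ (j + 1) + 1 by push_cast; ring] at this
  have db : ∀ j, d j ≤ 2 * r * j := fun j => by
    induction j with
    | zero => omega
    | succ j ih =>
      have := ds j
      rw [Nat.mul_succ]
      omega
  have ex : ∃ j, n ≤ d j := by
    obtain ⟨j, hj⟩ := LocB_top v W N hN γ
    refine ⟨j, le_of_eq ?_⟩
    show n = finrank K ((W ⊓ disc v N (-γ - ((N : ℤ) + 1) ^ j + 1)).map f)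
    rw [inf_eq_left.mpr hj, hn]
  have f1 := Nat.find_spec ex
  have f2 : 2 ≤ Nat.find ex := by
    by_contra hc
    have := db (Nat.find ex)
    have : 2 * r * Nat.find ex ≤ 2 * r * 1 := Nat.mul_le_mul_left _ (by omega)
    omega
  obtain ⟨i, hi⟩ : ∃ i, Nat.find ex = i + 2 := ⟨Nat.find ex - 2, by omega⟩
  have f3 : d (i + 1) < n := not_le.mp (Nat.find_min ex (by omega))
  rw [hi] at f1
  have f4 : n - 4 * r ≤ d i := by
    have := ds i
    have : d (i + 2) ≤ d (i + 1) + 2 * r := ds (i + 1)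
    omega
  have f5 : n / (2 * r) ≤ i + 2 := Nat.div_le_of_le_mul (f1.trans (db _))
  have sub : ∀ j, (V j).map f ≤ W.map f := fun j => Submodule.map_mono inf_le_left
  have key := LocB_var v (W.map f) (els (W.map f) \ els ((V (i + 1)).map f))
    ((els ((V i).map f)).erase 0) ((N + 1) ^ i)
    (fun y hy => ⟨(Finset.mem_sdiff.mp hy).1, fun e => (Finset.mem_sdiff.mp hy).2
      (mem_els.mpr (e ▸ Submodule.zero_mem _))⟩)
    (fun y hy => ⟨mem_els.mpr (sub i (mem_els.mp (Finset.mem_erase.mp hy).2)),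
      (Finset.mem_erase.mp hy).1⟩) (by
      intro y hy y' hy'
      obtain ⟨y1, y2⟩ := Finset.mem_sdiff.mp hy
      obtain ⟨y3, y4⟩ := Finset.mem_erase.mp hy'
      obtain ⟨w, hw, rfl⟩ := mem_els.mp y1
      obtain ⟨w', hw', rfl⟩ := mem_els.mp y4
      have n1 : ∀ u ∈ U, w + u ∉ V (i + 1) := fun u hu e => y2 (mem_els.mpr ⟨w + u, e, by
        rw [map_add, (fmap_eq_zero hf).mpr hu, add_zero]⟩)
      have n2 : w' ∉ U := fun e => y3 ((fmap_eq_zero hf).mpr e)
      refine ord_fmap_mono v hf (fun e => n1 (-w) (U.neg_mem e) (by simp)) n2 (by positivity)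
        fun u hu => ?_
      have a1 : ¬ (-γ - ((N : ℤ) + 1) ^ (i + 1) + 1 ≤ N * v.ord (w + u)) := fun e =>
        n1 u hu ⟨W.add_mem hw (hUW hu), mem_disc.mpr (Or.inr e)⟩
      have a2 := (mem_disc.mp hw'.2).resolve_left fun e => n2 (e ▸ U.zero_mem)
      push_cast
      refine le_of_mul_le_mul_left (a := (N : ℤ)) ?_ (by omega)
      rw [pow_succ] at a1
      nlinarith)
  refine le_trans ?_ key
  have cA : Nat.card K ^ n ≤ 2 * (els (W.map f) \ els ((V (i + 1)).map f)).card := by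
    rw [Finset.card_sdiff_of_subset fun y hy => mem_els.mpr (sub _ (mem_els.mp hy)), card_els,
      card_els, hn]
    have a1 : Nat.card K ^ (d (i + 1) + 1) ≤ Nat.card K ^ n := Nat.pow_le_pow_right (by omega) f3
    have a2 : Nat.card K ^ d (i + 1) * 2 ≤ Nat.card K ^ (d (i + 1) + 1) := by
      rw [pow_succ]
      exact Nat.mul_le_mul_left _ hq
    show Nat.card K ^ n ≤ 2 * (Nat.card K ^ n - Nat.card K ^ d (i + 1))
    omega
  have cB : Nat.card K ^ (n - 4 * r) ≤ 2 * ((els ((V i).map f)).erase 0).card := by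
    rw [Finset.card_erase_of_mem (mem_els.mpr (Submodule.zero_mem _)), card_els]
    have a1 : Nat.card K ^ (n - 4 * r) ≤ Nat.card K ^ d i := Nat.pow_le_pow_right (by omega) f4
    have a2 : 1 < Nat.card K ^ (n - 4 * r) := Nat.one_lt_pow (by omega) (by omega)
    show Nat.card K ^ (n - 4 * r) ≤ 2 * (Nat.card K ^ d i - 1)
    omega
  have cC : 4 * (Nat.card K ^ (4 * r) * M) ≤ (N + 1) ^ i := by
    have a1 : 2 ^ (n / (2 * r)) ≤ 2 ^ (i + 2) := Nat.pow_le_pow_right (by omega) f5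
    have a2 : 2 ^ i ≤ (N + 1) ^ i := Nat.pow_le_pow_left (by omega) i
    rw [pow_add] at a1
    rw [mul_assoc] at hM
    omega
  have fin : M * Nat.card K ^ (2 * n) ≤ (els (W.map f) \ els ((V (i + 1)).map f)).card *
      (((els ((V i).map f)).erase 0).card * (N + 1) ^ i) := by
    calc M * Nat.card K ^ (2 * n)
        = Nat.card K ^ n * (Nat.card K ^ (n - 4 * r) * (Nat.card K ^ (4 * r) * M)) := by
          rw [show 2 * n = n + ((n - 4 * r) + 4 * r) by omega, pow_add, pow_add]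
          ring
      _ ≤ (2 * (els (W.map f) \ els ((V (i + 1)).map f)).card) *
          ((2 * ((els ((V i).map f)).erase 0).card) * (Nat.card K ^ (4 * r) * M)) := by
          gcongr
      _ = (els (W.map f) \ els ((V (i + 1)).map f)).card *
          (((els ((V i).map f)).erase 0).card * (4 * (Nat.card K ^ (4 * r) * M))) := by ring
      _ ≤ _ := by gcongr
  exact_mod_cast fin

end Pool.Agent.Lib.MP_6adaea_nt
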