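import Pool.Agent.Lib.MP_6adaea_nt.Half
import Pool.Agent.Lib.MP_6adaea_nt.Der

/-!
Existence of a system of places on a global function field.
-/

set_option linter.unusedSectionVars false

namespace Pool.Agent.Lib.MP_6adaea_nt
open Module Polynomial

universe u v

section aux

variable {K : Type u} [Field K] [DecidableEq (RatFunc K)]

lemma sys_mem_iff (x : RatFunc K) :
    x ∈ (RatFunc.inftyValuation K).valuationSubring ↔ x.intDegree ≤ 0 := by
  rw [Valuation.mem_valuationSubring_iff]
  by_cases hx : x = 0
  · simp [hx]
  · rw [RatFunc.inftyValuation_apply, RatFunc.inftyValuation_of_nonzero K hx, ← WithZero.exp_zero,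
      WithZero.exp_le_exp]

lemma sys_lt_iff {x : RatFunc K} (hx : x ≠ 0) :
    RatFunc.inftyValuation K x < 1 ↔ x.intDegree < 0 := by
  rw [RatFunc.inftyValuation_apply, RatFunc.inftyValuation_of_nonzero K hx, ← WithZero.exp_zero,
    WithZero.exp_lt_exp]

lemma sys_div_mem {a b : K[X]} (hb : b ≠ 0) (h : a.natDegree ≤ b.natDegree) :
    algebraMap K[X] (RatFunc K) a / algebraMap K[X] (RatFunc K) b ∈
      (RatFunc.inftyValuation K).valuationSubring := by
  by_cases ha : a = 0
  · simp [ha]
  rw [sys_mem_iff, RatFunc.intDegree_div (by simpa using ha) (by simpa using hb),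
    RatFunc.intDegree_polynomial, RatFunc.intDegree_polynomial]
  omega

lemma sys_res (x : RatFunc K) (hx : x.intDegree ≤ 0) :
    ∃ c : K, RatFunc.inftyValuation K (x - RatFunc.C c) < 1 := by
  have hd := x.denom_ne_zero
  have hd' : algebraMap K[X] (RatFunc K) x.denom ≠ 0 := by simpa using hd
  have hl : x.denom.leadingCoeff ≠ 0 := leadingCoeff_ne_zero.mpr hd
  refine ⟨x.num.coeff x.denom.natDegree / x.denom.leadingCoeff, ?_⟩
  set c := x.num.coeff x.denom.natDegree / x.denom.leadingCoeff with hc
  have e : x - RatFunc.C c = algebraMap K[X] (RatFunc K) (x.num - C c * x.denom) /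
      algebraMap K[X] (RatFunc K) x.denom := by
    rw [map_sub, map_mul, sub_div, RatFunc.num_div_denom, mul_div_assoc, div_self hd', mul_one,
      RatFunc.algebraMap_C]
  by_cases h0 : x.num - C c * x.denom = 0
  · rw [e, h0]
    simp
  have hne : algebraMap K[X] (RatFunc K) (x.num - C c * x.denom) ≠ 0 := by
    rwa [Ne, map_eq_zero_iff _ (IsFractionRing.injective K[X] (RatFunc K))]
  rw [e, sys_lt_iff (div_ne_zero hne hd'), RatFunc.intDegree_div hne hd',
    RatFunc.intDegree_polynomial, RatFunc.intDegree_polynomial, sub_neg, Nat.cast_lt]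
  have h1 : (x.num - C c * x.denom).natDegree ≤ x.denom.natDegree := by
    refine (natDegree_sub_le _ _).trans (max_le ?_ (natDegree_C_mul_le _ _))
    rw [RatFunc.intDegree] at hx
    omega
  refine lt_of_le_of_ne h1 fun h2 => h0 ?_
  rw [← leadingCoeff_eq_zero, leadingCoeff, h2, coeff_sub, coeff_C_mul, coeff_natDegree, hc,
    div_mul_cancel₀ _ hl, sub_self]

lemma sys_fin [Finite K] (I : Ideal (RatFunc.inftyValuation K).valuationSubring)
    (hI : I.IsMaximal) : Finite (_ ⧸ I) := by
  refine Finite.of_surjective (fun c : K => Ideal.Quotient.mk I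
    ⟨RatFunc.C c, (sys_mem_iff _).mpr (RatFunc.intDegree_C c).le⟩) fun y => ?_
  obtain ⟨a, rfl⟩ := Ideal.Quotient.mk_surjective y
  obtain ⟨c, hc⟩ := sys_res a.1 ((sys_mem_iff _).mp a.2)
  refine ⟨c, (Ideal.Quotient.eq.mpr ?_).symm⟩
  rw [IsLocalRing.eq_maximalIdeal hI, Valuation.mem_maximalIdeal_iff]
  exact hc

omit [DecidableEq (RatFunc K)] in
lemma sys_fin_poly [Finite K] (I : Ideal K[X]) (hI : I ≠ ⊥) : Finite (K[X] ⧸ I) := by
  obtain ⟨f, rfl⟩ := (IsPrincipalIdealRing.principal I).principal
  have hf : f ≠ 0 := fun h => hI (by simp [h])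
  have : Module.Finite K (AdjoinRoot f) := (AdjoinRoot.powerBasis hf).finite
  exact Module.finite_of_finite K (M := AdjoinRoot f)

omit [DecidableEq (RatFunc K)] in
lemma sys_der {L : Type v} [Field L] [Algebra K L] [Algebra (RatFunc K) L]
    [IsScalarTower K (RatFunc K) L] (D : Derivation ℤ L L)
    (h1 : D (algebraMap (RatFunc K) L RatFunc.X) = 1) (h2 : ∀ c : K, D (algebraMap K L c) = 0)
    (a : K[X]) : D (algebraMap (RatFunc K) L (algebraMap K[X] (RatFunc K) a)) =
      algebraMap (RatFunc K) L (algebraMap K[X] (RatFunc K) (derivative a)) := by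
  have hC : ∀ c : K, algebraMap (RatFunc K) L (algebraMap K[X] (RatFunc K) (C c)) =
      algebraMap K L c := fun c => by
    rw [RatFunc.algebraMap_C, IsScalarTower.algebraMap_apply K (RatFunc K) L]
    rfl
  induction a using Polynomial.induction_on with
  | C c => rw [hC, h2, derivative_C, map_zero, map_zero]
  | add a b ha hb => simp only [map_add, ha, hb]
  | monomial n c ih =>
    rw [pow_succ, ← mul_assoc, derivative_mul, map_mul, map_mul, Derivation.leibniz, ih,
      RatFunc.algebraMap_X, h1, derivative_X]
    simp only [map_add, map_mul, map_one, smul_eq_mul, RatFunc.algebraMap_X]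
    ring

end aux

/-- Apply `exists_half` twice with `F = RatFunc K` and the derivation of `exists_der`:
`R = K[X]`, `Ψ = RatFunc.intDegree`; and `R = (RatFunc.inftyValuation K).valuationSubring`
(a discrete valuation ring, `Valuation.valuationSubring_isDiscreteValuationRing`, residue field
`K`), `Ψ = -intDegree`. In the second case `D (num / denom)` is the image of
`(num' denom - num denom') / denom ^ 2`, again of degree `≤ 0`. Take `ι` the sum type. An element
without poles is integral over both rings, so the coefficients of its minimal polynomial over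
`RatFunc K` (`minpoly.isIntegrallyClosed_eq_field_fractions'`) are polynomials of degree `≤ 0`,
i.e. constants, and the element is algebraic over `K`. -/
theorem exists_psys_sep (K : Type u) (L : Type v) [Field K] [Finite K] [Field L] [Algebra K L]
    (p : ℕ) [Fact p.Prime] [CharP K p]
    [Algebra (RatFunc K) L] [IsScalarTower K (RatFunc K) L] [FiniteDimensional (RatFunc K) L]
    [Algebra.IsSeparable (RatFunc K) L] : Nonempty (PSys K L p) := by
  classical
  obtain ⟨D, hD1, hD2, hD3⟩ := exists_der K L p
  let _ : Algebra K[X] L := ((algebraMap (RatFunc K) L).comp (algebraMap K[X] (RatFunc K))).toAlgebra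
  have : IsScalarTower K[X] (RatFunc K) L := IsScalarTower.of_algebraMap_eq' rfl
  have hC : ∀ c : K, algebraMap K L c = algebraMap (RatFunc K) L (RatFunc.C c) := fun c =>
    IsScalarTower.algebraMap_apply K (RatFunc K) L c
  obtain ⟨ι₁, pl₁, w₁, κ₁, a1, a2, a3, a4, a5, a6⟩ := exists_half K L K[X] (RatFunc K)
    (fun c => by
      rw [hC, ← RatFunc.algebraMap_C]
      exact isIntegral_algebraMap (x := C c))
    RatFunc.intDegree (fun x y => RatFunc.intDegree_mul)
    (fun a _ => by
      rw [RatFunc.intDegree_polynomial]
      exact Int.natCast_nonneg _)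
    (fun a h1 h2 => by
      rw [RatFunc.intDegree_polynomial, Int.natCast_pos]
      exact natDegree_pos_of_not_isUnit_of_dvd_monic (monic_mul_leadingCoeff_inv h1) h2
        (dvd_mul_right _ _))
    (fun I _ hI => sys_fin_poly I hI) D
    (fun a => by
      have := sys_der D hD1 hD2 a
      exact (show D (algebraMap K[X] L a) = algebraMap K[X] L (derivative a) from this) ▸
        isIntegral_algebraMap)
  obtain ⟨ι₂, pl₂, w₂, κ₂, b1, b2, b3, b4, b5, b6⟩ := exists_half K L
    (RatFunc.inftyValuation K).valuationSubring (RatFunc K)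
    (fun c => by
      rw [hC]
      exact isIntegral_algebraMap (R := (RatFunc.inftyValuation K).valuationSubring)
        (x := ⟨RatFunc.C c, (sys_mem_iff _).mpr (RatFunc.intDegree_C c).le⟩))
    (fun x => -x.intDegree) (fun x y hx hy => by rw [RatFunc.intDegree_mul hx hy, neg_add])
    (fun a _ => neg_nonneg.mpr ((sys_mem_iff _).mp a.2))
    (fun a h1 h2 => neg_pos.mpr ((sys_lt_iff fun h => h1 (Subtype.ext h)).mp
      ((Valuation.mem_maximalIdeal_iff _ _).mp h2)))
    (fun I hI _ => sys_fin I hI) D
    (fun a => by
      have hd := a.1.denom_ne_zero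
      have ha := (sys_mem_iff _).mp a.2
      rw [RatFunc.intDegree] at ha
      have hm := sys_div_mem (a := a.1.denom * derivative a.1.num - a.1.num * derivative a.1.denom)
        (pow_ne_zero 2 hd) (by
          have c1 := natDegree_derivative_le a.1.num
          have c2 := natDegree_derivative_le a.1.denom
          have c3 := natDegree_mul_le (p := a.1.denom) (q := derivative a.1.num)
          have c4 := natDegree_mul_le (p := a.1.num) (q := derivative a.1.denom)
          rw [natDegree_pow]
          exact (natDegree_sub_le _ _).trans (max_le (by omega) (by omega)))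
      have e : D (algebraMap (RatFunc.inftyValuation K).valuationSubring L a) =
          algebraMap (RatFunc.inftyValuation K).valuationSubring L ⟨_, hm⟩ := by
        change D (algebraMap (RatFunc K) L a.1) = algebraMap (RatFunc K) L (_ / _)
        conv_lhs => rw [← RatFunc.num_div_denom a.1, map_div₀, Derivation.leibniz_div,
          sys_der D hD1 hD2, sys_der D hD1 hD2]
        simp only [map_div₀, map_sub, map_mul, map_pow, smul_eq_mul]
        rw [div_eq_inv_mul, inv_pow]
      rw [e]
      exact isIntegral_algebraMap)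
  refine ⟨{
    ι := ι₁ ⊕ ι₂
    pl := Sum.elim pl₁ pl₂
    w := Sum.elim w₁ w₂
    κ := κ₁.sumElim κ₂
    D := D
    w_pos := Sum.rec a1 b1
    fin := fun x => ?_
    prod := fun x hx S hS => ?_
    der := Sum.rec a4 b4
    ker := hD3
    res := Sum.rec a5 b5
    pole := fun x hx => ?_ }⟩
  · refine (((a2 x).image Sum.inl).union ((b2 x).image Sum.inr)).subset ?_
    rintro (i | i) hi
    · exact Or.inl ⟨i, hi, rfl⟩
    · exact Or.inr ⟨i, hi, rfl⟩
  · rw [Finset.sum_sum_eq_sum_toLeft_add_sum_toRight]
    have c1 := a3 x hx S.toLeft fun i hi => Finset.mem_toLeft.mpr (hS (Sum.inl i) hi)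
    have c2 := b3 x hx S.toRight fun i hi => Finset.mem_toRight.mpr (hS (Sum.inr i) hi)
    simp only [Sum.elim_inl, Sum.elim_inr, c1, c2, add_neg_cancel]
  · by_contra hcon
    push Not at hcon
    have c1 := a6 x fun i => Or.inr (hcon (Sum.inl i))
    have c2 := b6 x fun i => Or.inr (hcon (Sum.inr i))
    have d1 := minpoly.isIntegrallyClosed_eq_field_fractions' (RatFunc K) c1
    have d2 := minpoly.isIntegrallyClosed_eq_field_fractions' (RatFunc K) c2
    have hint : IsIntegral (RatFunc K) x := c1.tower_top
    have d3 : minpoly (RatFunc K) x ∈ lifts (algebraMap K (RatFunc K)) := by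
      rw [lifts_iff_coeff_lifts]
      intro n
      have e1 := congrArg (fun q => coeff q n) d1
      have e2 := congrArg (fun q => coeff q n) d2
      simp only [coeff_map] at e1 e2
      have e3 : ((minpoly (RatFunc K) x).coeff n).intDegree ≤ 0 := by
        rw [e2]
        exact (sys_mem_iff _).mp (Subtype.prop _)
      rw [e1, RatFunc.intDegree_polynomial] at e3
      rw [e1, eq_C_of_natDegree_eq_zero (p := (minpoly K[X] x).coeff n) (by omega),
        RatFunc.algebraMap_C]
      exact ⟨_, rfl⟩
    obtain ⟨q, hq⟩ := (mem_lifts _).mp d3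
    refine hx ⟨q, fun h => minpoly.ne_zero hint (by rw [← hq, h, Polynomial.map_zero]), ?_⟩
    rw [← aeval_map_algebraMap (RatFunc K), hq, minpoly.aeval]

/-- the same for an element `t`: use the algebra structure through
`RatFunc.algEquivOfTranscendental t ht` (`Algebra.IsSeparable.of_equiv_equiv`,
`Module.Finite.of_equiv_equiv`) -/
theorem exists_psys_elt (K : Type u) (L : Type v) [Field K] [Finite K] [Field L] [Algebra K L]
    (p : ℕ) [Fact p.Prime] [CharP K p] (t : L) (ht : Transcendental K t)
    [FiniteDimensional (IntermediateField.adjoin K {t}) L]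
    [Algebra.IsSeparable (IntermediateField.adjoin K {t}) L] : Nonempty (PSys K L p) := by
  let e := RatFunc.algEquivOfTranscendental t ht
  let _ : Algebra (RatFunc K) L :=
    ((algebraMap (IntermediateField.adjoin K {t}) L).comp e.toRingEquiv.toRingHom).toAlgebra
  have he : RingHom.comp (algebraMap (RatFunc K) L) ↑e.toRingEquiv.symm =
      RingHom.comp ↑(RingEquiv.refl L) (algebraMap (IntermediateField.adjoin K {t}) L) := by
    ext x
    exact congrArg (algebraMap (IntermediateField.adjoin K {t}) L) (e.apply_symm_apply x)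
  have : IsScalarTower K (RatFunc K) L := IsScalarTower.of_algebraMap_eq fun c => by
    rw [IsScalarTower.algebraMap_apply K (IntermediateField.adjoin K {t}) L, ← e.commutes]
    rfl
  have : FiniteDimensional (RatFunc K) L :=
    Module.Finite.of_equiv_equiv e.toRingEquiv.symm (RingEquiv.refl L) he
  have : Algebra.IsSeparable (RatFunc K) L :=
    Algebra.IsSeparable.of_equiv_equiv e.toRingEquiv.symm (RingEquiv.refl L) he
  exact exists_psys_sep K L p

theorem exists_psys (K : Type u) (L : Type v) [Field K] [Finite K] [Field L] [Algebra K L]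
    (p : ℕ) [Fact p.Prime] [CharP K p]
    [Algebra (RatFunc K) L] [IsScalarTower K (RatFunc K) L] [FiniteDimensional (RatFunc K) L] :
    Nonempty (PSys K L p) := by
  obtain ⟨t, ht, h1, h2⟩ := exists_sep K L
  exact exists_psys_elt K L p t ht

end Pool.Agent.Lib.MP_6adaea_nt
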