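import Pool.Agent.Lib.MP_6adaea_nt.Key
import Pool.Agent.Lib.MP_6adaea_nt.Sys

/-!
Cyclic modules, and the uniform bound for the torsion.
-/

set_option linter.unusedSectionVars false

namespace Pool.Agent.Lib.MP_6adaea_nt
open Module Polynomial

universe u v

variable {K : Type u} {L : Type v} [Field K] [Finite K] [Field L] [Algebra K L]

/-- the map `b ↦ φ_b y` -/
noncomputable def ev (φ : L →ₗ[K] L) (y : L) : K[X] →ₗ[K] L where
  toFun b := aeval φ b y
  map_add' a b := by simp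
  map_smul' c a := by simp

lemma ev_apply (φ : L →ₗ[K] L) (y : L) (b : K[X]) : ev φ y b = aeval φ b y := rfl

lemma aeval_mul_apply (φ : L →ₗ[K] L) (a b : K[X]) (y : L) :
    aeval φ (a * b) y = aeval φ a (aeval φ b y) := by
  rw [map_mul, Module.End.mul_apply]

lemma aeval_mem {φ : L →ₗ[K] L} {V : Submodule K L} (hV : ∀ x ∈ V, φ x ∈ V) (b : K[X]) {x : L}
    (hx : x ∈ V) : aeval φ b x ∈ V := by
  have key : ∀ n : ℕ, (φ ^ n) x ∈ V := fun n => by
    induction n with
    | zero => simpa using hx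
    | succ n ih =>
      rw [pow_succ', Module.End.mul_apply]
      exact hV _ ih
  induction b using Polynomial.induction_on' with
  | add a b ha hb => simpa using V.add_mem ha hb
  | monomial n a =>
    rw [aeval_monomial, Module.End.mul_apply, Module.algebraMap_end_apply]
    exact V.smul_mem a (key n)

lemma cyc_stable (φ : L →ₗ[K] L) (y : L) :
    ∀ x ∈ LinearMap.range (ev φ y), φ x ∈ LinearMap.range (ev φ y) := by
  rintro _ ⟨b, rfl⟩
  exact ⟨X * b, by rw [ev_apply, aeval_mul_apply, aeval_X, ev_apply]⟩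

lemma cyc_rank {φ : L →ₗ[K] L} {y : L} {a : K[X]} (ha : a ≠ 0)
    (h : ∀ b, aeval φ b y = 0 ↔ a ∣ b) : FiniteDimensional K (LinearMap.range (ev φ y)) ∧
      finrank K (LinearMap.range (ev φ y)) = a.natDegree := by
  have h1 : LinearMap.ker (ev φ y) = (Ideal.span {a}).restrictScalars K := by
    ext b
    rw [LinearMap.mem_ker, ev_apply, h, Submodule.restrictScalars_mem, Ideal.mem_span_singleton]
  have e := ((Submodule.Quotient.restrictScalarsEquiv K (Ideal.span {a})).symm.trans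
    (Submodule.quotEquivOfEq _ _ h1.symm)).trans (ev φ y).quotKerEquivRange
  have : Module.Finite K (K[X] ⧸ Ideal.span {a}) := (AdjoinRoot.powerBasis ha).finite
  exact ⟨e.finiteDimensional, by rw [← e.finrank_eq, finrank_quotient_span_eq_natDegree]⟩

/-- the ideal of polynomials sending `y` into a stable subspace -/
def cyc_ideal {φ : L →ₗ[K] L} (V : Submodule K L) (hV : ∀ x ∈ V, φ x ∈ V) (y : L) :
    Ideal K[X] where
  carrier := {b | aeval φ b y ∈ V}
  zero_mem' := by simp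
  add_mem' := fun ha hb => by simpa using V.add_mem ha hb
  smul_mem' := fun c b hb => by
    show aeval φ (c * b) y ∈ V
    rw [aeval_mul_apply]
    exact aeval_mem hV c hb

lemma cyc_gen {φ : L →ₗ[K] L} (V : Submodule K L) (hV : ∀ x ∈ V, φ x ∈ V) (y : L) :
    ∃ a : K[X], ∀ b, aeval φ b y ∈ V ↔ a ∣ b :=
  ⟨Submodule.IsPrincipal.generator (cyc_ideal V hV y), fun b =>
    Submodule.IsPrincipal.mem_iff_generator_dvd (cyc_ideal V hV y) (x := b)⟩

lemma cyc_sub {φ : L →ₗ[K] L} {y : L} {π : K[X]} (hπ : Irreducible π) {k : ℕ}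
    (h : aeval φ (π ^ k) y = 0) (V : Submodule K L) (hV : ∀ x ∈ V, φ x ∈ V) :
    ∃ i : ℕ, ∀ b, aeval φ b y ∈ V ↔ π ^ i ∣ b := by
  obtain ⟨a, ha⟩ := cyc_gen V hV y
  obtain ⟨i, -, hi⟩ := (dvd_prime_pow hπ.prime k).mp ((ha _).mp (h ▸ V.zero_mem))
  exact ⟨i, fun b => (ha b).trans hi.dvd_iff_dvd_left⟩

section
variable {θ : L} {r : ℕ} {g : ℕ → L} {φ : L →ₗ[K] L}

lemma exists_coeff (hθ : Transcendental K θ) (hφ : ∀ x, φ x = (drP K θ r g).eval x) {y : L}
    {a : K[X]} (ha : a ≠ 0) (h : aeval φ a y = 0) (hy : y ≠ 0) :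
    ∃ i ∈ Finset.Icc 1 r, g i ≠ 0 := by
  by_contra hc
  push Not at hc
  have h1 : φ = Algebra.lmul K L θ := by
    ext x
    rw [hφ, drP_eval, Finset.sum_eq_zero fun i hi => by rw [hc i hi, zero_mul], add_zero]
    rfl
  rw [h1, aeval_algHom_apply] at h
  exact ha (transcendental_iff.mp hθ a ((mul_eq_zero.mp h).resolve_right hy))

/-- `φ_a` is given by a polynomial with linear term `a(θ) X` -/
lemma exists_poly (hφ : ∀ x, φ x = (drP K θ r g).eval x) (a : K[X]) :
    ∃ Q : L[X], Q.natDegree ≤ (Nat.card K ^ r) ^ a.natDegree ∧ Q.derivative.eval 0 = aeval θ a ∧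
      ∀ x, aeval φ a x = Q.eval x := by
  have h0 : (drP K θ r g).eval 0 = 0 := by rw [← hφ, map_zero]
  have h1 : (drP K θ r g).derivative.eval 0 = θ := by
    rw [← coeff_zero_eq_eval_zero, coeff_derivative]
    simp [drP_coeff_one]
  have key : ∀ n : ℕ, ∃ Q : L[X], Q.natDegree ≤ (Nat.card K ^ r) ^ n ∧
      Q.derivative.eval 0 = θ ^ n ∧ ∀ x, (φ ^ n) x = Q.eval x := by
    intro n
    induction n with
    | zero => exact ⟨X, by simp, by simp, by simp⟩
    | succ n ih =>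
      obtain ⟨Q, a1, a2, a3⟩ := ih
      refine ⟨Q.comp (drP K θ r g), ?_, ?_, fun x => ?_⟩
      · rw [pow_succ]
        exact natDegree_comp_le.trans (Nat.mul_le_mul a1 (drP_natDegree θ r g))
      · rw [derivative_comp, eval_mul, eval_comp, h0, h1, a2, pow_succ']
      · rw [pow_succ, Module.End.mul_apply, a3, eval_comp, hφ]
  choose Q a1 a2 a3 using key
  refine ⟨∑ n ∈ Finset.range (a.natDegree + 1), C (algebraMap K L (a.coeff n)) * Q n,
    natDegree_sum_le_of_forall_le _ _ fun n hn => ?_, ?_, fun x => ?_⟩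
  · refine (natDegree_C_mul_le _ _).trans ((a1 n).trans (Nat.pow_le_pow_right
      (pow_pos Nat.card_pos _) ?_))
    have := Finset.mem_range.mp hn
    omega
  · rw [aeval_eq_sum_range, derivative_sum, eval_finsetSum]
    refine Finset.sum_congr rfl fun n _ => ?_
    rw [derivative_C_mul, eval_mul, eval_C, a2, Algebra.smul_def]
  · rw [aeval_eq_sum_range, LinearMap.sum_apply, eval_finsetSum]
    refine Finset.sum_congr rfl fun n _ => ?_
    rw [LinearMap.smul_apply, a3, eval_mul, eval_C, Algebra.smul_def]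

end

variable {p : ℕ} [Fact p.Prime] [CharP L p] (P : PSys K L p)

include P in
theorem prime_pow_bound (θ : L) (hθ : Transcendental K θ) (r : ℕ) : ∃ n0 k0 : ℕ, ∀ (g : ℕ → L)
    (φ : L →ₗ[K] L), (∀ x, φ x = (drP K θ r g).eval x) → ∀ (π : K[X]) (k : ℕ), Irreducible π →
    ∀ y : L, (∀ b, aeval φ b y = 0 ↔ π ^ (k + 1) ∣ b) → π.natDegree < n0 ∧ k < k0 := by
  obtain ⟨n0, c, hkey⟩ := key P θ hθ r
  have main : ∀ (g : ℕ → L) (φ : L →ₗ[K] L), (∀ x, φ x = (drP K θ r g).eval x) →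
      ∀ (π : K[X]) (j l : ℕ), Irreducible π → ∀ y : L,
      (∀ b, aeval φ b y = 0 ↔ π ^ (l + (j + 1)) ∣ b) → n0 ≤ (j + 1) * π.natDegree →
      (j = 0 ∨ c * ((j + 1) * π.natDegree + 1) * Nat.card K ^ (2 * ((j + 1) * π.natDegree)) ≤
        Nat.card K ^ (l * π.natDegree)) → False := by
    intro g φ hφ π j l hπ y hy hn0 hl
    have hy0 : y ≠ 0 := by
      rintro rfl
      have := (hy 1).mp (by simp)
      exact hπ.not_isUnit (isUnit_of_dvd_one ((dvd_pow_self π (by omega)).trans this))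
    have hk := (hy _).mpr dvd_rfl
    have hy' : ∀ b, aeval φ b (aeval φ (π ^ (j + 1)) y) = 0 ↔ π ^ l ∣ b := fun b => by
      rw [← aeval_mul_apply, hy, pow_add, mul_dvd_mul_iff_right (pow_ne_zero _ hπ.ne_zero)]
    obtain ⟨f1, r1⟩ := cyc_rank (pow_ne_zero _ hπ.ne_zero) hy
    obtain ⟨f2, r2⟩ := cyc_rank (pow_ne_zero _ hπ.ne_zero) hy'
    rw [natDegree_pow] at r1 r2
    refine hkey g φ hφ (exists_coeff hθ hφ (pow_ne_zero _ hπ.ne_zero) hk hy0) π (l + (j + 1)) hπ
      _ _ (cyc_stable φ y) (cyc_stable φ (aeval φ (π ^ (j + 1)) y)) ?_ ?_ ((j + 1) * π.natDegree)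
      (by rw [r1, r2]; ring) hn0 (Nat.le_mul_of_pos_left _ (by omega)) fun V hVW hV => ?_
    · rintro _ ⟨b, rfl⟩
      exact ⟨b * π ^ (j + 1), aeval_mul_apply _ _ _ _⟩
    · rintro _ ⟨b, rfl⟩
      rw [ev_apply, ← aeval_mul_apply, mul_comm, aeval_mul_apply, hk, map_zero]
    obtain ⟨i, hi⟩ := cyc_sub hπ hk V hV
    rcases le_or_gt (j + 1) i with h | h
    · refine Or.inl fun x hx => ?_
      obtain ⟨b, rfl⟩ := hVW hx
      obtain ⟨b', rfl⟩ := (pow_dvd_pow π h).trans ((hi b).mp hx)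
      exact ⟨b', by rw [ev_apply, ev_apply, mul_comm, aeval_mul_apply]⟩
    rcases Nat.eq_zero_or_pos i with rfl | h0
    · refine Or.inr (Or.inl (le_antisymm hVW ?_))
      rintro _ ⟨b, rfl⟩
      exact (hi b).mpr (by simp)
    · refine Or.inr (Or.inr ⟨?_, r2 ▸ hl.resolve_left (by omega)⟩)
      rintro _ ⟨b, rfl⟩
      rw [ev_apply, ← aeval_mul_apply]
      exact (hi _).mpr ((pow_dvd_pow π h.le).mul_left b)
  refine ⟨n0, n0 + (c * ((n0 + 1) * n0 + 1) + 2 * ((n0 + 1) * n0)), fun g φ hφ π k hπ y hy => ?_⟩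
  have hd : π.natDegree < n0 := by
    by_contra h
    refine main g φ hφ π 0 0 hπ (aeval φ (π ^ k) y) (fun b => ?_) (by omega) (Or.inl rfl)
    rw [← aeval_mul_apply, hy, pow_succ', mul_dvd_mul_iff_right (pow_ne_zero _ hπ.ne_zero)]
    simp
  refine ⟨hd, ?_⟩
  by_contra h
  obtain ⟨l, rfl⟩ : ∃ l, k = l + n0 := ⟨k - n0, by omega⟩
  have hd0 := hπ.natDegree_pos
  have hq := two_le_card (K := K)
  refine main g φ hφ π n0 l hπ y hy (by nlinarith) (Or.inr ?_)
  have h1 : (n0 + 1) * π.natDegree ≤ (n0 + 1) * n0 := Nat.mul_le_mul_left _ hd.le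
  generalize (n0 + 1) * π.natDegree = n at h1
  calc c * (n + 1) * Nat.card K ^ (2 * n)
      ≤ Nat.card K ^ (c * ((n0 + 1) * n0 + 1)) * Nat.card K ^ (2 * ((n0 + 1) * n0)) :=
        Nat.mul_le_mul ((Nat.mul_le_mul_left c (by omega)).trans (Nat.lt_pow_self hq).le)
          (Nat.pow_le_pow_right (by omega) (by omega))
    _ ≤ Nat.card K ^ (l * π.natDegree) := by
        rw [← pow_add]
        exact Nat.pow_le_pow_right (by omega) (le_trans (by omega) (Nat.le_mul_of_pos_right l hd0))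

lemma fin_poly (n : ℕ) : {b : K[X] | b.natDegree < n}.Finite := by
  have : Finite (degreeLT K n) := Module.finite_of_finite K
  exact (Set.toFinite (degreeLT K n : Set K[X])).subset fun b hb =>
    mem_degreeLT.mpr (degree_le_natDegree.trans_lt (by exact_mod_cast hb))

lemma exists_multiple (n0 k0 : ℕ) : ∃ a : K[X], a ≠ 0 ∧ ∀ b : K[X], b ≠ 0 →
    (∀ (π : K[X]) (k : ℕ), Irreducible π → π ^ (k + 1) ∣ b → π.natDegree < n0 ∧ k < k0) →
    b ∣ a := by
  classical
  have hfin := fin_poly (K := K) n0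
  refine ⟨(∏ π ∈ hfin.toFinset.erase 0, π) ^ k0, pow_ne_zero _
    (Finset.prod_ne_zero_iff.mpr fun π h => Finset.ne_of_mem_erase h), fun b => ?_⟩
  induction b using UniqueFactorizationMonoid.induction_on_coprime with
  | h0 => exact fun h => absurd rfl h
  | h1 h => exact fun _ _ => h.dvd
  | @hpr π i hπ =>
    intro _ h
    cases i with
    | zero => simp
    | succ i =>
      obtain ⟨h1, h2⟩ := h π i hπ.irreducible dvd_rfl
      exact (pow_dvd_pow π h2).trans (pow_dvd_pow_of_dvd (Finset.dvd_prod_of_mem _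
        (Finset.mem_erase.mpr ⟨hπ.ne_zero, hfin.mem_toFinset.mpr h1⟩)) _)
  | @hcp x y hxy hx hy =>
    intro h0 h
    exact hxy.mul_dvd (hx (left_ne_zero_of_mul h0) fun π k h1 h2 => h π k h1 (h2.mul_right y))
      (hy (right_ne_zero_of_mul h0) fun π k h1 h2 => h π k h1 (h2.mul_left x))

include P in
theorem torsion_bound (θ : L) (hθ : Transcendental K θ) (r : ℕ) : ∃ B : ℕ, ∀ (g : ℕ → L)
    (φ : L →ₗ[K] L), (∀ x, φ x = (drP K θ r g).eval x) →
    Set.encard {x : L | ∃ a : K[X], a ≠ 0 ∧ aeval φ a x = 0} ≤ B := by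
  classical
  obtain ⟨n0, k0, h⟩ := prime_pow_bound P θ hθ r
  obtain ⟨a, ha0, ha⟩ := exists_multiple (K := K) n0 k0
  refine ⟨(Nat.card K ^ r) ^ a.natDegree, fun g φ hφ => ?_⟩
  obtain ⟨Q, q1, q2, q3⟩ := exists_poly hφ a
  have hQ : Q ≠ 0 := by
    rintro rfl
    exact ha0 (transcendental_iff.mp hθ a (by simpa using q2.symm))
  have hsub : {x : L | ∃ a : K[X], a ≠ 0 ∧ aeval φ a x = 0} ⊆ Q.roots.toFinset := by
    rintro x ⟨b, hb0, hb⟩
    obtain ⟨e, he⟩ := cyc_gen (φ := φ) ⊥ (by simp) x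
    simp only [Submodule.mem_bot] at he
    have he0 : e ≠ 0 := ne_zero_of_dvd_ne_zero hb0 ((he b).mp hb)
    have h1 : e ∣ a := ha e he0 fun π k hπ ⟨e', he'⟩ => h g φ hφ π k hπ (aeval φ e' x) fun b => by
      rw [← aeval_mul_apply, he, he', mul_dvd_mul_iff_right (right_ne_zero_of_mul (he' ▸ he0))]
    rw [Finset.mem_coe, Multiset.mem_toFinset, mem_roots hQ, IsRoot.def, ← q3]
    exact (he a).mpr h1
  refine (Set.encard_le_encard hsub).trans ?_
  rw [Set.encard_coe_eq_coe_finsetCard]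
  exact_mod_cast ((Multiset.toFinset_card_le _).trans (card_roots' Q)).trans q1

end Pool.Agent.Lib.MP_6adaea_nt
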