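import Mathlib

/-!
Places of a field extension `K / k` (adapted from the library of MP_a01f70_lc).
-/

set_option linter.unusedSectionVars false

namespace Pool.Agent.Lib.MP_6adaea_nt
open Module

/-- a normalised discrete valuation of `K` that is trivial on `k` (junk value `0` at `0`) -/
@[ext] structure Place (k K : Type*) [Field k] [Field K] [Algebra k K] where
  ord : K → ℤ
  ord_zero : ord 0 = 0
  ord_mul : ∀ {f g : K}, f ≠ 0 → g ≠ 0 → ord (f * g) = ord f + ord g
  ord_add : ∀ {f g : K}, f ≠ 0 → g ≠ 0 → f + g ≠ 0 → min (ord f) (ord g) ≤ ord (f + g)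
  ord_const : ∀ c : k, ord (algebraMap k K c) = 0
  surj : ∃ t : K, t ≠ 0 ∧ ord t = 1

variable {k K : Type*} [Field k] [Field K] [Algebra k K]

namespace Place
variable (v : Place k K)

/-- `f` vanishes to order at least `m` at `v` -/
def Ge (f : K) (m : ℤ) : Prop := f = 0 ∨ m ≤ v.ord f

@[simp] lemma ord_zero' : v.ord 0 = 0 := v.ord_zero

@[simp] lemma ord_one : v.ord 1 = 0 := by simpa using v.ord_const 1

@[simp] lemma ord_const' (c : k) : v.ord (algebraMap k K c) = 0 := v.ord_const c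

@[simp] lemma ord_neg (f : K) : v.ord (-f) = v.ord f := by
  by_cases hf : f = 0
  · simp [hf]
  · have h1 : v.ord (-1 : K) = 0 := by simpa using v.ord_const (-1)
    rw [← neg_one_mul, v.ord_mul (by simp) hf, h1, zero_add]

@[simp] lemma ord_inv (f : K) : v.ord f⁻¹ = -v.ord f := by
  by_cases hf : f = 0
  · simp [hf]
  · have := v.ord_mul hf (inv_ne_zero hf)
    rw [mul_inv_cancel₀ hf, ord_one] at this
    omega

lemma ord_div {f g : K} (hf : f ≠ 0) (hg : g ≠ 0) : v.ord (f / g) = v.ord f - v.ord g := by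
  rw [div_eq_mul_inv, v.ord_mul hf (inv_ne_zero hg), ord_inv, sub_eq_add_neg]

@[simp] lemma ord_pow (f : K) (m : ℕ) : v.ord (f ^ m) = m * v.ord f := by
  by_cases hf : f = 0
  · cases m <;> simp [hf]
  induction m with
  | zero => simp
  | succ m ih =>
    rw [pow_succ, v.ord_mul (pow_ne_zero _ hf) hf, ih]
    push_cast
    ring

@[simp] lemma ord_zpow (f : K) (m : ℤ) : v.ord (f ^ m) = m * v.ord f := by
  cases m with
  | ofNat m => simp
  | negSucc m =>
    rw [zpow_negSucc, ord_inv, ord_pow, Int.negSucc_eq]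
    push_cast
    ring

lemma ord_smul {c : k} (hc : c ≠ 0) (f : K) : v.ord (c • f) = v.ord f := by
  by_cases hf : f = 0
  · simp [hf]
  · rw [Algebra.smul_def, v.ord_mul (by simpa using hc) hf]
    simp

lemma ord_prod {ι : Type*} (s : Finset ι) (f : ι → K) (h : ∀ i ∈ s, f i ≠ 0) :
    v.ord (∏ i ∈ s, f i) = ∑ i ∈ s, v.ord (f i) := by
  classical
  induction s using Finset.induction_on with
  | empty => simp
  | insert a s ha ih =>
    rw [Finset.prod_insert ha, Finset.sum_insert ha, v.ord_mul (h a (by simp))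
      (Finset.prod_ne_zero_iff.mpr fun i hi => h i (by simp [hi])), ih fun i hi => h i (by simp [hi])]

lemma exists_ord_eq (m : ℤ) : ∃ t : K, t ≠ 0 ∧ v.ord t = m := by
  obtain ⟨t, h0, h1⟩ := v.surj
  exact ⟨t ^ m, zpow_ne_zero _ h0, by simp [h1]⟩

@[simp] lemma ge_zero (m : ℤ) : v.Ge 0 m := Or.inl rfl

lemma ge_ord (f : K) : v.Ge f (v.ord f) := Or.inr le_rfl

lemma ge_const (c : k) : v.Ge (algebraMap k K c) 0 := Or.inr (by simp)

lemma ge_one : v.Ge 1 0 := Or.inr (by simp)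

variable {v}

lemma ge_iff {f : K} (hf : f ≠ 0) {m : ℤ} : v.Ge f m ↔ m ≤ v.ord f := by simp [Ge, hf]

lemma Ge.le {f : K} {m : ℤ} (h : v.Ge f m) (hf : f ≠ 0) : m ≤ v.ord f := (ge_iff hf).mp h

lemma Ge.of_le {f : K} {m : ℤ} (h : m ≤ v.ord f) : v.Ge f m := Or.inr h

lemma Ge.mono {f : K} {m m' : ℤ} (h : v.Ge f m) (hm : m' ≤ m) : v.Ge f m' :=
  h.imp id hm.trans

lemma not_ge_iff {f : K} {m : ℤ} : ¬ v.Ge f m ↔ f ≠ 0 ∧ v.ord f < m := by simp [Ge]

lemma Ge.add {f g : K} {m : ℤ} (hf : v.Ge f m) (hg : v.Ge g m) : v.Ge (f + g) m := by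
  by_cases h1 : f = 0
  · simpa [h1] using hg
  by_cases h2 : g = 0
  · simpa [h2] using hf
  by_cases h3 : f + g = 0
  · exact Or.inl h3
  exact Or.inr ((le_min (hf.le h1) (hg.le h2)).trans (v.ord_add h1 h2 h3))

lemma Ge.neg {f : K} {m : ℤ} (hf : v.Ge f m) : v.Ge (-f) m := by
  rcases hf with h | h
  · simp [h]
  · exact Or.inr (by simpa using h)

lemma Ge.sub {f g : K} {m : ℤ} (hf : v.Ge f m) (hg : v.Ge g m) : v.Ge (f - g) m := by
  rw [sub_eq_add_neg]
  exact hf.add hg.neg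

lemma Ge.mul {f g : K} {m m' : ℤ} (hf : v.Ge f m) (hg : v.Ge g m') : v.Ge (f * g) (m + m') := by
  by_cases h1 : f = 0
  · simp [h1]
  by_cases h2 : g = 0
  · simp [h2]
  exact Or.inr (by rw [v.ord_mul h1 h2]; exact add_le_add (hf.le h1) (hg.le h2))

lemma Ge.pow {f : K} {m : ℤ} (hf : v.Ge f m) (e : ℕ) : v.Ge (f ^ e) (e * m) := by
  induction e with
  | zero => simpa using v.ge_one
  | succ e ih =>
    rw [pow_succ]
    convert ih.mul hf using 1
    push_cast
    ring

lemma Ge.smul {f : K} {m : ℤ} (hf : v.Ge f m) (c : k) : v.Ge (c • f) m := by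
  rw [Algebra.smul_def]
  simpa using (v.ge_const c).mul hf

lemma Ge.sum {ι : Type*} {s : Finset ι} {f : ι → K} {m : ℤ} (h : ∀ i ∈ s, v.Ge (f i) m) :
    v.Ge (∑ i ∈ s, f i) m :=
  Finset.sum_induction f (fun a => v.Ge a m) (fun _ _ => Ge.add) (v.ge_zero m) h

lemma ge_mul_iff {f g : K} (hg : g ≠ 0) {m : ℤ} : v.Ge (f * g) m ↔ v.Ge f (m - v.ord g) := by
  by_cases hf : f = 0
  · simp [hf]
  · rw [ge_iff (mul_ne_zero hf hg), ge_iff hf, v.ord_mul hf hg]
    omega

/-- a term of strictly smallest order determines the order of a sum -/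
lemma ord_add_of_ge {f g : K} (hf : f ≠ 0) (hg : v.Ge g (v.ord f + 1)) :
    f + g ≠ 0 ∧ v.ord (f + g) = v.ord f := by
  have h1 : ¬ v.Ge (f + g) (v.ord f + 1) := fun h => by
    have := (h.sub hg).le (by simpa using hf)
    rw [add_sub_cancel_right] at this
    omega
  obtain ⟨h2, h3⟩ := not_ge_iff.mp h1
  have := ((v.ge_ord f).add (hg.mono (by omega))).le h2
  exact ⟨h2, by omega⟩

/-- a sum with one term of strictly smallest order -/
lemma ord_sum_of_lt {ι : Type*} {s : Finset ι} {f : ι → K} {i₀ : ι} (hi : i₀ ∈ s) (h0 : f i₀ ≠ 0)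
    (h : ∀ i ∈ s, i ≠ i₀ → v.Ge (f i) (v.ord (f i₀) + 1)) :
    ∑ i ∈ s, f i ≠ 0 ∧ v.ord (∑ i ∈ s, f i) = v.ord (f i₀) := by
  classical
  rw [← Finset.add_sum_erase s f hi]
  exact ord_add_of_ge h0 (Ge.sum fun i hi => h i (Finset.mem_of_mem_erase hi)
    (Finset.ne_of_mem_erase hi))

/-- a constant of positive order is zero -/
lemma const_eq_zero_of_ge {c : k} (h : v.Ge (algebraMap k K c) 1) : c = 0 := by
  rcases h with h | h
  · simpa using h
  · simp at h

/-- elements of the `k`-algebra generated by elements of nonnegative order -/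
lemma ge_of_mem_adjoin {s : Set K} (hs : ∀ a ∈ s, v.Ge a 0) {f : K} (hf : f ∈ Algebra.adjoin k s) :
    v.Ge f 0 := by
  induction hf using Algebra.adjoin_induction with
  | mem a ha => exact hs a ha
  | algebraMap c => exact v.ge_const c
  | add a b _ _ ha hb => exact ha.add hb
  | mul a b _ _ ha hb => simpa using ha.mul hb

end Place

end Pool.Agent.Lib.MP_6adaea_nt
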