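import Pool.Agent.Lib.MP_6adaea_nt.Inert

/-!
The residue map, the tame character of the inertia group, and wild inertia.
-/

set_option linter.unusedSectionVars false

namespace Pool.Agent.Lib.MP_6adaea_nt
open Module Polynomial IsLocalRing

universe u v

variable {k : Type u} {L K : Type v} [Field k] [Field L] [Field K] [Algebra k L] [Algebra k K]
  [Algebra L K] [IsScalarTower k L K]

namespace Place

/-- the residue field -/
abbrev Res (w : Place k K) : Type v := ResidueField w.O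

open Classical in
/-- the residue of an element (junk value `0` at a pole) -/
noncomputable def res (w : Place k K) (x : K) : w.Res :=
  if h : x ∈ w.O then residue w.O ⟨x, h⟩ else 0

variable {w : Place k K}

lemma res_of_ge {x : K} (h : w.Ge x 0) : w.res x = residue w.O ⟨x, w.mem_O.mpr h⟩ :=
  dif_pos (w.mem_O.mpr h)

@[simp] lemma res_zero : w.res 0 = 0 := (res_of_ge (w.ge_zero 0)).trans (map_zero _)

@[simp] lemma res_one : w.res 1 = 1 := (res_of_ge w.ge_one).trans (map_one _)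

lemma res_add {x y : K} (hx : w.Ge x 0) (hy : w.Ge y 0) : w.res (x + y) = w.res x + w.res y := by
  rw [res_of_ge hx, res_of_ge hy, res_of_ge (hx.add hy), ← map_add]
  rfl

lemma res_sub {x y : K} (hx : w.Ge x 0) (hy : w.Ge y 0) : w.res (x - y) = w.res x - w.res y := by
  rw [res_of_ge hx, res_of_ge hy, res_of_ge (hx.sub hy), ← map_sub]
  rfl

lemma res_mul {x y : K} (hx : w.Ge x 0) (hy : w.Ge y 0) : w.res (x * y) = w.res x * w.res y := by
  rw [res_of_ge hx, res_of_ge hy, res_of_ge (by simpa using hx.mul hy), ← map_mul]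
  rfl

lemma res_pow {x : K} (hx : w.Ge x 0) (n : ℕ) : w.res (x ^ n) = w.res x ^ n := by
  induction n with
  | zero => simp
  | succ n ih => rw [pow_succ, res_mul (by simpa using hx.pow n) hx, ih, pow_succ]

lemma res_sum {ι : Type*} {s : Finset ι} {f : ι → K} (h : ∀ i ∈ s, w.Ge (f i) 0) :
    w.res (∑ i ∈ s, f i) = ∑ i ∈ s, w.res (f i) := by
  classical
  induction s using Finset.induction_on with
  | empty => simp
  | insert a s ha ih =>
    rw [Finset.sum_insert ha, Finset.sum_insert ha, res_add (h a (by simp))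
      (Ge.sum fun i hi => h i (by simp [hi])), ih fun i hi => h i (by simp [hi])]

lemma res_eq_zero {x : K} (hx : w.Ge x 0) : w.res x = 0 ↔ w.Ge x 1 := by
  rw [res_of_ge hx, residue_eq_zero_iff, mem_max]

lemma res_eq_iff {x y : K} (hx : w.Ge x 0) (hy : w.Ge y 0) :
    w.res x = w.res y ↔ w.Ge (x - y) 1 := by
  rw [← res_eq_zero (hx.sub hy), res_sub hx hy, sub_eq_zero]

lemma res_surj (z : w.Res) : ∃ x, w.Ge x 0 ∧ w.res x = z := by
  obtain ⟨x, rfl⟩ := residue_surjective z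
  exact ⟨x, w.mem_O.mp x.2, res_of_ge (w.mem_O.mp x.2)⟩

lemma res_ne_zero {x : K} (h0 : x ≠ 0) (h : w.ord x = 0) : w.res x ≠ 0 := fun h1 => by
  have := ((res_eq_zero (Ge.of_le h.ge)).mp h1).le h0
  omega

lemma res_inv {x : K} (h : w.ord x = 0) : w.res x⁻¹ = (w.res x)⁻¹ := by
  by_cases h0 : x = 0
  · simp [h0]
  refine eq_inv_of_mul_eq_one_left ?_
  rw [← res_mul (Ge.of_le (by simp [h])) (Ge.of_le h.ge), inv_mul_cancel₀ h0, res_one]

lemma res_zpow {x : K} (h : w.ord x = 0) (n : ℤ) : w.res (x ^ n) = w.res x ^ n := by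
  cases n with
  | ofNat n => simpa using res_pow (Ge.of_le h.ge) n
  | negSucc n => rw [zpow_negSucc, zpow_negSucc, res_inv (by simp [h]), res_pow (Ge.of_le h.ge)]

variable (w) in
/-- the constants in the residue field -/
noncomputable def cst : k →+* w.Res where
  toFun c := w.res (algebraMap k K c)
  map_one' := by simp
  map_mul' a b := by rw [map_mul, res_mul (w.ge_const a) (w.ge_const b)]
  map_zero' := by simp
  map_add' a b := by rw [map_add, res_add (w.ge_const a) (w.ge_const b)]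

lemma cst_apply (c : k) : w.cst c = w.res (algebraMap k K c) := rfl

lemma res_charP (p : ℕ) [CharP k p] : CharP w.Res p := charP_of_injective_ringHom w.cst.injective p

lemma res_inertia {σ : K ≃ₐ[L] K} (hσ : σ ∈ w.inertia L) {x : K} (hx : w.Ge x 0) :
    w.res (σ x) = w.res x :=
  (res_eq_iff ((ge_inertia hσ).mpr hx) hx).mpr (hσ x hx)

lemma ord_inertia_div {σ : K ≃ₐ[L] K} (hσ : σ ∈ w.inertia L) (x : K) : w.ord (σ x / x) = 0 := by
  by_cases hx : x = 0
  · simp [hx]
  rw [w.ord_div (by simpa using hx) hx, ord_inertia hσ, sub_self]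

variable (w) in
/-- the tame character -/
noncomputable def th (σ : K ≃ₐ[L] K) : w.Res := w.res (σ w.surj.choose / w.surj.choose)

/-- the residue of `σ x / x` only depends on the order of `x` -/
theorem res_div {σ : K ≃ₐ[L] K} (hσ : σ ∈ w.inertia L) {x : K} (hx : x ≠ 0) :
    w.res (σ x / x) = w.th σ ^ w.ord x := by
  obtain ⟨h0, h1⟩ := w.surj.choose_spec
  rw [th]
  set t := w.surj.choose
  have hz : t ^ w.ord x ≠ 0 := zpow_ne_zero _ h0
  have hu : w.ord (x / t ^ w.ord x) = 0 := by simp [w.ord_div hx hz, h1]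
  have e : σ x / x = (σ t / t) ^ w.ord x * (σ (x / t ^ w.ord x) * (x / t ^ w.ord x)⁻¹) := by
    have : σ t ^ w.ord x ≠ 0 := zpow_ne_zero _ (by simpa using h0)
    rw [map_div₀, map_zpow₀, div_zpow]
    field_simp
  have g1 : w.Ge (σ (x / t ^ w.ord x)) 0 := (ge_inertia hσ).mpr (Ge.of_le hu.ge)
  have g2 : w.Ge (x / t ^ w.ord x)⁻¹ 0 := Ge.of_le (by rw [ord_inv, hu, neg_zero])
  rw [e, res_mul (Ge.of_le (by simp [ord_inertia_div hσ])) (by simpa using g1.mul g2),
    res_mul g1 g2, res_zpow (ord_inertia_div hσ t), res_inertia hσ (Ge.of_le hu.ge), res_inv hu,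
    mul_inv_cancel₀ (res_ne_zero (div_ne_zero hx hz) hu), mul_one]

lemma th_ne_zero {σ : K ≃ₐ[L] K} (hσ : σ ∈ w.inertia L) : w.th σ ≠ 0 :=
  res_ne_zero (div_ne_zero (by simpa using w.surj.choose_spec.1) w.surj.choose_spec.1)
    (ord_inertia_div hσ _)

@[simp] lemma th_one : w.th (1 : K ≃ₐ[L] K) = 1 := by
  rw [th, AlgEquiv.one_apply, div_self w.surj.choose_spec.1, res_one]

lemma th_mul {σ τ : K ≃ₐ[L] K} (hσ : σ ∈ w.inertia L) (hτ : τ ∈ w.inertia L) :
    w.th (σ * τ) = w.th σ * w.th τ := by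
  obtain ⟨h0, h1⟩ := w.surj.choose_spec
  have h2 : τ w.surj.choose ≠ 0 := by simpa using h0
  have h3 := res_div hσ h2
  rw [ord_inertia hτ, h1, zpow_one] at h3
  rw [← h3, th, th, ← res_mul (Ge.of_le (ord_inertia_div hσ _).ge)
    (Ge.of_le (ord_inertia_div hτ _).ge), div_mul_div_cancel₀ h2, AlgEquiv.mul_apply]

variable (w L) in
/-- the tame character as a homomorphism -/
noncomputable def thHom : w.inertia L →* w.Resˣ where
  toFun σ := Units.mk0 (w.th σ.1) (th_ne_zero σ.2)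
  map_one' := Units.ext (by simp)
  map_mul' σ τ := Units.ext (th_mul σ.2 τ.2)

@[simp] lemma thHom_val (σ : w.inertia L) : (w.thHom L σ : w.Res) = w.th σ.1 := rfl

lemma th_pow {σ : K ≃ₐ[L] K} (hσ : σ ∈ w.inertia L) (n : ℕ) : w.th (σ ^ n) = w.th σ ^ n := by
  simpa using congrArg Units.val (map_pow (w.thHom L) ⟨σ, hσ⟩ n)

/-- `σ x` is `c x` to first order exactly if `c` is the value of the tame character -/
theorem ge_sub_iff {σ : K ≃ₐ[L] K} (hσ : σ ∈ w.inertia L) {x c : K} (hx : x ≠ 0) (hc : w.Ge c 0) :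
    w.Ge (σ x - c * x) (w.ord x + 1) ↔ w.th σ ^ w.ord x = w.res c := by
  rw [← res_div hσ hx, res_eq_iff (Ge.of_le (ord_inertia_div hσ x).ge) hc,
    show σ x - c * x = (σ x / x - c) * x by field_simp, ge_mul_iff hx, add_sub_cancel_left]

lemma ge_sub_one_iff {σ : K ≃ₐ[L] K} (hσ : σ ∈ w.inertia L) {x : K} (hx : x ≠ 0) :
    w.Ge (σ x - x) (w.ord x + 1) ↔ w.th σ ^ w.ord x = 1 := by
  simpa using ge_sub_iff hσ hx w.ge_one

/-- an eigenvalue in the constant field -/
lemma cst_eq_of_smul {σ : K ≃ₐ[L] K} (hσ : σ ∈ w.inertia L) {x : K} (hx : x ≠ 0) {c : k}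
    (h : σ x = c • x) : w.cst c = w.th σ ^ w.ord x := by
  rw [cst_apply, ← (ge_sub_iff hσ hx (w.ge_const c)).mp]
  rw [h, Algebra.smul_def, sub_self]
  exact w.ge_zero _

/-- wild inertia raises the order -/
lemma Ge.wild {σ : K ≃ₐ[L] K} (hσ : σ ∈ w.inertia L) (h : w.th σ = 1) {x : K} {m : ℤ}
    (hx : w.Ge x m) : w.Ge (σ x - x) (m + 1) := by
  by_cases h0 : x = 0
  · simp [h0]
  exact ((ge_sub_one_iff hσ h0).mpr (by simp [h])).mono (by have := hx.le h0; omega)

lemma th_algebraMap {σ : K ≃ₐ[L] K} (hσ : σ ∈ w.inertia L) {v : Place k L} {e : ℕ}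
    (h : w.Over v e) : w.th σ ^ e = 1 := by
  obtain ⟨t, h0, h1⟩ := v.surj
  have h2 : algebraMap L K t ≠ 0 := by simpa using h0
  have := res_div hσ h2
  rwa [AlgEquiv.commutes, div_self h2, res_one, h.2, h1, mul_one, zpow_natCast, eq_comm] at this

/-- on a `σ`-stable additive subgroup on which the tame character is trivial, the powers of
`σ - 1` raise the order -/
lemma ge_iterate {σ : K ≃ₐ[L] K} (hσ : σ ∈ w.inertia L) (V : AddSubgroup K)
    (hV : ∀ x ∈ V, σ x ∈ V) (h : ∀ x ∈ V, x ≠ 0 → w.th σ ^ w.ord x = 1) {x : K} (hx : x ∈ V)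
    (n : ℕ) : ((σ.toLinearMap - 1 : Module.End L K) ^ n) x ∈ V ∧
      w.Ge (((σ.toLinearMap - 1 : Module.End L K) ^ n) x) (w.ord x + n) := by
  induction n with
  | zero => exact ⟨by simpa using hx, by simpa using w.ge_ord x⟩
  | succ n ih =>
    rw [pow_succ', Module.End.mul_apply]
    generalize ((σ.toLinearMap - 1 : Module.End L K) ^ n) x = y at ih
    refine ⟨V.sub_mem (hV y ih.1) ih.1, ?_⟩
    by_cases hy : y = 0
    · simp [hy]
    refine ((ge_sub_one_iff hσ hy).mpr (h y ih.1 hy)).mono ?_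
    have := ih.2.le hy
    push_cast
    omega

/-- if the tame character is trivial on a stable subgroup, an element of finite order acts
on it through an element of `p`-power order -/
theorem exists_pow_fix (p : ℕ) [Fact p.Prime] [CharP L p] {σ : K ≃ₐ[L] K} (hσ : σ ∈ w.inertia L)
    (hf : IsOfFinOrder σ) (V : AddSubgroup K)
    (hV : ∀ x ∈ V, σ x ∈ V) (h : ∀ x ∈ V, x ≠ 0 → w.th σ ^ w.ord x = 1) :
    ∃ a : ℕ, ∀ x ∈ V, (σ ^ p ^ a) x = x := by
  have hp : p.Prime := Fact.out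
  obtain ⟨a, m, hm, hn⟩ := Nat.exists_eq_pow_mul_and_not_dvd hf.orderOf_pos.ne' p hp.ne_one
  have hm0 : 0 < m := Nat.pos_of_ne_zero fun h => hm (by simp [h])
  have hc : (p ^ m.totient) ≡ 1 [MOD m] :=
    Nat.ModEq.pow_totient ((Nat.Prime.coprime_iff_not_dvd hp).mpr hm)
  have : CharP (Module.End L K) p :=
    charP_of_injective_algebraMap (algebraMap L (Module.End L K)).injective p
  refine ⟨a, fun x hx => ?_⟩
  have key : ∀ j : ℕ, w.Ge ((σ ^ p ^ a) x - x) (w.ord x + (p ^ (a + m.totient * j) : ℕ)) := by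
    intro j
    have h1 : σ ^ p ^ (a + m.totient * j) = σ ^ p ^ a := by
      rw [pow_eq_pow_iff_modEq, hn, pow_add, pow_mul]
      simpa using (hc.pow j).mul_left' (p ^ a)
    have h2 := (ge_iterate hσ V hV h hx (p ^ (a + m.totient * j))).2
    rw [sub_pow_char_pow_of_commute _ _ (Commute.one_right _), one_pow, LinearMap.sub_apply,
      Module.End.one_apply] at h2
    have h3 : ∀ n : ℕ, (σ.toLinearMap ^ n : Module.End L K) x = (σ ^ n) x := fun n => by
      rw [Module.End.pow_apply, AlgEquiv.coe_pow]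
      rfl
    rwa [h3, h1] at h2
  by_contra h0
  have h1 : (σ ^ p ^ a) x - x ≠ 0 := sub_ne_zero.mpr h0
  set j := (w.ord ((σ ^ p ^ a) x - x) - w.ord x).toNat
  have h2 := (key j).le h1
  have h3 : j < p ^ (a + m.totient * j) :=
    (Nat.lt_pow_self hp.one_lt).trans_le (Nat.pow_le_pow_right hp.pos (by
      have := Nat.totient_pos.mpr hm0
      nlinarith))
  omega

/-- wild inertia is a `p`-group -/
theorem isPGroup_ker (p : ℕ) [Fact p.Prime] [CharP L p] [FiniteDimensional L K] :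
    IsPGroup p (w.thHom L).ker := by
  rintro ⟨⟨σ, hσ⟩, h⟩
  have h1 : w.th σ = 1 := congrArg Units.val (MonoidHom.mem_ker.mp h)
  obtain ⟨a, ha⟩ := exists_pow_fix p hσ (isOfFinOrder_of_finite σ) ⊤ (fun _ _ => trivial)
    (fun _ _ _ => by simp [h1])
  exact ⟨a, Subtype.ext (Subtype.ext (AlgEquiv.ext fun x => ha x trivial))⟩

end Place

open Place

/-- the tame character maps the inertia group onto the roots of unity of order the prime to `p`
part of the ramification index -/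
theorem exists_tame_gen [FiniteDimensional L K] [IsGalois L K] (p : ℕ) [Fact p.Prime] [CharP L p]
    {v : Place k L} (hv : ∀ x, v.Ge x 0 → ∃ y, v.Ge y 0 ∧ v.Ge (x - y ^ p) 1) {w : Place k K}
    {e : ℕ} (h : w.Over v e) : ∃ σ₀ ∈ w.inertia L, ∃ a : ℕ, e = p ^ a * orderOf (w.th σ₀) ∧
      ∀ σ ∈ w.inertia L, ∃ n : ℕ, w.th σ = w.th σ₀ ^ n := by
  have hc := card_inertia p hv h
  obtain ⟨a, ha⟩ := IsPGroup.iff_card.mp (isPGroup_ker (w := w) (L := L) p)
  have hfin : Finite (w.thHom L).range := Finite.of_surjective _ (w.thHom L).rangeRestrict_surjective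
  have hcyc : IsCyclic (w.thHom L).range :=
    isCyclic_of_injective_ringHom ((Units.coeHom w.Res).comp (w.thHom L).range.subtype)
      (Units.val_injective.comp Subtype.val_injective)
  obtain ⟨⟨_, σ₀, rfl⟩, hg⟩ := IsCyclic.exists_monoid_generator (α := (w.thHom L).range)
  refine ⟨σ₀.1, σ₀.2, a, ?_, fun σ hσ => ?_⟩
  · rw [← hc, ← (w.thHom L).ker.card_mul_index, ha, Subgroup.index_ker, ← thHom_val, orderOf_units,
      ← orderOf_eq_card_of_forall_mem_powers hg, ← Subgroup.orderOf_coe]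
  · obtain ⟨n, hn⟩ := hg ⟨_, ⟨σ, hσ⟩, rfl⟩
    exact ⟨n, (congrArg (fun z : (w.thHom L).range => (z.1 : w.Res)) hn).symm⟩

/-- an order on which the tame character is trivial is `p`-power divisible by `e` -/
theorem dvd_of_tame [FiniteDimensional L K] [IsGalois L K] (p : ℕ) [Fact p.Prime] [CharP L p]
    {v : Place k L} (hv : ∀ x, v.Ge x 0 → ∃ y, v.Ge y 0 ∧ v.Ge (x - y ^ p) 1) {w : Place k K}
    {e : ℕ} (h : w.Over v e) : ∃ a : ℕ, ∀ m : ℤ, (∀ σ ∈ w.inertia L, w.th σ ^ m = 1) →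
      (e : ℤ) ∣ p ^ a * m := by
  obtain ⟨σ₀, h0, a, ha, -⟩ := exists_tame_gen p hv h
  refine ⟨a, fun m hm => ?_⟩
  have h1 : (w.thHom L ⟨σ₀, h0⟩) ^ m = 1 := Units.ext (by simpa using hm σ₀ h0)
  rw [← orderOf_dvd_iff_zpow_eq_one, ← orderOf_units, thHom_val] at h1
  rw [ha]
  push_cast
  exact mul_dvd_mul_left _ h1

/-- conversely -/
theorem tame_of_dvd (p : ℕ) [Fact p.Prime] [CharP k p] {v : Place k L} {w : Place k K}
    {e : ℕ} (h : w.Over v e) {σ : K ≃ₐ[L] K} (hσ : σ ∈ w.inertia L) {a : ℕ} {m : ℤ}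
    (hm : (e : ℤ) ∣ p ^ a * m) : w.th σ ^ m = 1 := by
  have := w.res_charP p
  obtain ⟨c, hc⟩ := hm
  have h1 : (w.th σ ^ m) ^ p ^ a = 1 := by
    rw [← zpow_natCast, ← zpow_mul, mul_comm, Nat.cast_pow, hc, zpow_mul, zpow_natCast,
      th_algebraMap hσ h, one_zpow]
  have h2 : (w.th σ ^ m - 1) ^ p ^ a = 0 := by rw [sub_pow_char_pow, h1, one_pow, sub_self]
  exact sub_eq_zero.mp (eq_zero_of_pow_eq_zero h2)

end Pool.Agent.Lib.MP_6adaea_nt
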